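import Mathlib

/-!
# Sparse families of bodies and bars
-/

namespace Pool.Agent.helper13.GL

open Finset

variable {V : Type*} [DecidableEq V]

/-- weight of a set of vertices -/
def w (Y : Finset V) : ℤ := if 2 ≤ Y.card then 2 * (Y.card : ℤ) - 3 else 0

omit [DecidableEq V] in
theorem w_nonneg (Y : Finset V) : 0 ≤ w Y := by unfold w; split_ifs <;> omega

omit [DecidableEq V] in
theorem w_mono {Y Z : Finset V} (h : Y ⊆ Z) : w Y ≤ w Z := by
  have := card_le_card h
  unfold w; split_ifs <;> omega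

omit [DecidableEq V] in
theorem w_of_two {Y : Finset V} (h : 2 ≤ Y.card) : w Y = 2 * (Y.card : ℤ) - 3 := by
  unfold w; rw [if_pos h]

omit [DecidableEq V] in
theorem w_of_le_one {Y : Finset V} (h : Y.card ≤ 1) : w Y = 0 := by
  unfold w; rw [if_neg (by omega)]

theorem w_super (A B : Finset V) : w A + w B ≤ w (A ∪ B) + w (A ∩ B) := by
  have h1 := card_union_add_card_inter A B
  have h2 := card_le_card (inter_subset_left : A ∩ B ⊆ A)
  have h3 := card_le_card (inter_subset_right : A ∩ B ⊆ B)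
  unfold w; split_ifs <;> omega

theorem w_three {A B C : Finset V} (hAB : (A ∩ B).card ≤ 1) (hAC : (A ∩ C).card ≤ 1)
    (hBC : (B ∩ C).card ≤ 1) : w A + w B + w C ≤ w (A ∪ B ∪ C) := by
  have h1 := card_union_add_card_inter A B
  have h2 := card_union_add_card_inter (A ∪ B) C
  have h3 : ((A ∪ B) ∩ C).card ≤ (A ∩ C).card + (B ∩ C).card := by
    rw [union_inter_distrib_right]; exact card_union_le _ _
  have h4 := card_union_add_card_inter B C
  have h5 := card_union_add_card_inter A C
  have h6 : (B ∪ C).card ≤ (A ∪ B ∪ C).card := card_le_card (by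
    rw [union_assoc]; exact subset_union_right)
  have h7 : (A ∪ C).card ≤ (A ∪ B ∪ C).card := card_le_card (by
    intro x hx; simp only [mem_union] at hx ⊢; tauto)
  have h8 : (A ∪ B).card ≤ (A ∪ B ∪ C).card := card_le_card subset_union_left
  have h9 : A.card ≤ (A ∪ B).card := card_le_card subset_union_left
  have h10 : B.card ≤ (A ∪ B).card := card_le_card subset_union_right
  have h11 : C.card ≤ (A ∪ C).card := card_le_card subset_union_right
  unfold w; split_ifs <;> omega

/-- number of constraints inside `X` -/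
def val (F : Finset (Finset V)) (X : Finset V) : ℤ := ∑ P ∈ F, w (P ∩ X)

theorem val_super (F : Finset (Finset V)) (X Y : Finset V) :
    val F X + val F Y ≤ val F (X ∪ Y) + val F (X ∩ Y) := by
  unfold val
  rw [← sum_add_distrib, ← sum_add_distrib]
  refine sum_le_sum fun P _ => ?_
  have := w_super (P ∩ X) (P ∩ Y)
  rw [← inter_union_distrib_left] at this
  have e : P ∩ X ∩ (P ∩ Y) = P ∩ (X ∩ Y) := by
    ext a; simp only [mem_inter]; tauto
  rwa [e] at this

theorem val_three (F : Finset (Finset V)) {X Y Z : Finset V} (hXY : (X ∩ Y).card ≤ 1)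
    (hXZ : (X ∩ Z).card ≤ 1) (hYZ : (Y ∩ Z).card ≤ 1) :
    val F X + val F Y + val F Z ≤ val F (X ∪ Y ∪ Z) := by
  unfold val
  rw [← sum_add_distrib, ← sum_add_distrib]
  refine sum_le_sum fun P _ => ?_
  have e1 : ∀ A B : Finset V, P ∩ A ∩ (P ∩ B) ⊆ A ∩ B := by
    intro A B a; simp only [mem_inter]; tauto
  have := w_three (A := P ∩ X) (B := P ∩ Y) (C := P ∩ Z)
    ((card_le_card (e1 _ _)).trans hXY) ((card_le_card (e1 _ _)).trans hXZ)
    ((card_le_card (e1 _ _)).trans hYZ)
  rwa [← inter_union_distrib_left, ← inter_union_distrib_left] at this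

theorem val_mono (F : Finset (Finset V)) {X Y : Finset V} (h : X ⊆ Y) : val F X ≤ val F Y :=
  sum_le_sum fun _ _ => w_mono (inter_subset_inter_left h)

/-- A family of subsets of `S` (bodies and bars) in which no set is over-constrained. -/
structure Sparse (S : Finset V) (F : Finset (Finset V)) : Prop where
  sub : ∀ P ∈ F, P ⊆ S
  two : ∀ P ∈ F, 2 ≤ P.card
  sp : ∀ X, X ⊆ S → 2 ≤ X.card → val F X ≤ 2 * (X.card : ℤ) - 3

/-- tight sets -/
def TSet (S : Finset V) (F : Finset (Finset V)) (X : Finset V) : Prop :=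
  X ⊆ S ∧ 2 ≤ X.card ∧ val F X = 2 * (X.card : ℤ) - 3

/-- tight families -/
def Tight (S : Finset V) (F : Finset (Finset V)) : Prop := Sparse S F ∧ TSet S F S

variable {S : Finset V} {F : Finset (Finset V)}

theorem piece_tset (h : Sparse S F) {P : Finset V} (hP : P ∈ F) : TSet S F P := by
  refine ⟨h.sub P hP, h.two P hP, le_antisymm (h.sp P (h.sub P hP) (h.two P hP)) ?_⟩
  rw [← w_of_two (h.two P hP)]
  have : w (P ∩ P) ≤ val F P :=
    single_le_sum (f := fun Q => w (Q ∩ P)) (fun Q _ => w_nonneg _) hP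
  rwa [inter_self] at this

theorem tset_union (h : Sparse S F) {X Y : Finset V} (hX : TSet S F X) (hY : TSet S F Y)
    (hXY : 2 ≤ (X ∩ Y).card) : TSet S F (X ∪ Y) := by
  have hsub : X ∪ Y ⊆ S := union_subset hX.1 hY.1
  have hc : 2 ≤ (X ∪ Y).card := hX.2.1.trans (card_le_card subset_union_left)
  refine ⟨hsub, hc, le_antisymm (h.sp _ hsub hc) ?_⟩
  have h1 := val_super F X Y
  have h2 := h.sp (X ∩ Y) (inter_subset_left.trans hX.1) hXY
  have h3 := hX.2.2
  have h4 := hY.2.2
  have h5 := card_union_add_card_inter X Y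
  omega

theorem tset_three (h : Sparse S F) {X Y Z : Finset V} (hX : TSet S F X) (hY : TSet S F Y)
    (hZ : TSet S F Z) (hXY : (X ∩ Y).card ≤ 1) (hXZ : (X ∩ Z).card ≤ 1) (hYZ : (Y ∩ Z).card ≤ 1)
    {a b c : V} (ha : a ∈ X ∩ Y) (hb : b ∈ X ∩ Z) (hc : c ∈ Y ∩ Z) (hbc : b ≠ c) :
    TSet S F (X ∪ Y ∪ Z) := by
  have hsub : X ∪ Y ∪ Z ⊆ S := union_subset (union_subset hX.1 hY.1) hZ.1
  have hcard : 2 ≤ (X ∪ Y ∪ Z).card :=
    hZ.2.1.trans (card_le_card subset_union_right)
  refine ⟨hsub, hcard, le_antisymm (h.sp _ hsub hcard) ?_⟩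
  have h1 := val_three F hXY hXZ hYZ
  have h3 := hX.2.2
  have h4 := hY.2.2
  have h5 := hZ.2.2
  have h6 := card_union_add_card_inter X Y
  have h7 := card_union_add_card_inter (X ∪ Y) Z
  have h8 : 1 ≤ (X ∩ Y).card := card_pos.mpr ⟨a, ha⟩
  have h9 : 2 ≤ ((X ∪ Y) ∩ Z).card := by
    have : ({b, c} : Finset V) ⊆ (X ∪ Y) ∩ Z := by
      intro d hd
      simp only [mem_insert, mem_singleton] at hd
      simp only [mem_inter, mem_union] at hb hc ⊢
      rcases hd with rfl | rfl <;> tauto
    rw [← card_pair hbc]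
    exact card_le_card this
  omega

/-- closure lemma -/
theorem closure_lemma (h : Sparse S F) (N : Finset V) (hN : 2 ≤ N.card)
    (hall : ∀ a ∈ N, ∀ b ∈ N, a ≠ b → ∃ X, TSet S F X ∧ a ∈ X ∧ b ∈ X) :
    ∃ T, TSet S F T ∧ N ⊆ T := by
  classical
  obtain ⟨a0, ha0, b0, hb0, hab0⟩ := one_lt_card.mp (by omega : 1 < N.card)
  obtain ⟨T0, hT0, haT0, hbT0⟩ := hall a0 ha0 b0 hb0 hab0
  have hne : (S.powerset.filter (fun T => TSet S F T)).Nonempty :=
    ⟨T0, by simp [mem_filter, hT0.1, hT0]⟩
  obtain ⟨T, hT, hmax⟩ := exists_max_image _ (fun T => (T ∩ N).card) hne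
  simp only [mem_filter, mem_powerset] at hT hmax
  have hmax' : ∀ T', TSet S F T' → (T' ∩ N).card ≤ (T ∩ N).card := fun T' h' =>
    hmax T' ⟨h'.1, h'⟩
  have hT2 : 2 ≤ (T ∩ N).card := by
    refine le_trans ?_ (hmax' T0 hT0)
    rw [← card_pair hab0]
    apply card_le_card
    intro d hd
    simp only [mem_insert, mem_singleton] at hd
    rcases hd with rfl | rfl
    · exact mem_inter.mpr ⟨haT0, ha0⟩
    · exact mem_inter.mpr ⟨hbT0, hb0⟩
  refine ⟨T, hT.2, ?_⟩
  by_contra hcon
  obtain ⟨a, haN, haT⟩ := not_subset.mp hcon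
  have big : ∀ T', TSet S F T' → T ⊆ T' → a ∈ T' → False := by
    intro T' h1 h2 h3
    have h4 : (T ∩ N).card < (T' ∩ N).card := by
      apply card_lt_card
      refine ⟨inter_subset_inter_right h2, fun hc => ?_⟩
      have := hc (mem_inter.mpr ⟨h3, haN⟩)
      exact haT (mem_inter.mp this).1
    exact absurd (hmax' T' h1) (not_le.mpr h4)
  obtain ⟨b, hb, b', hb', hbb'⟩ := one_lt_card.mp (by omega : 1 < (T ∩ N).card)
  rw [mem_inter] at hb hb'
  obtain ⟨X, hX, haX, hbX⟩ := hall a haN b hb.2 (fun e => haT (e ▸ hb.1))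
  obtain ⟨X', hX', haX', hbX'⟩ := hall a haN b' hb'.2 (fun e => haT (e ▸ hb'.1))
  by_cases h1 : 2 ≤ (X ∩ T).card
  · exact big _ (tset_union h hX hT.2 h1) subset_union_right (mem_union_left _ haX)
  by_cases h2 : 2 ≤ (X' ∩ T).card
  · exact big _ (tset_union h hX' hT.2 h2) subset_union_right (mem_union_left _ haX')
  by_cases h3 : 2 ≤ (X ∩ X').card
  · have hY := tset_union h hX hX' h3
    have h4 : 2 ≤ ((X ∪ X') ∩ T).card := by
      rw [← card_pair hbb']
      apply card_le_card
      intro d hd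
      simp only [mem_insert, mem_singleton] at hd
      rcases hd with rfl | rfl
      · exact mem_inter.mpr ⟨mem_union_left _ hbX, hb.1⟩
      · exact mem_inter.mpr ⟨mem_union_right _ hbX', hb'.1⟩
    exact big _ (tset_union h hY hT.2 h4) subset_union_right
      (mem_union_left _ (mem_union_left _ haX))
  · exact big _ (tset_three h hX hX' hT.2 (by omega) (by omega) (by omega)
      (mem_inter.mpr ⟨haX, haX'⟩) (mem_inter.mpr ⟨hbX, hb.1⟩) (mem_inter.mpr ⟨hbX', hb'.1⟩) hbb')
      subset_union_right (mem_union_left _ (mem_union_left _ haX))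

theorem val_insert {Q : Finset V} (hQ : Q ∉ F) (X : Finset V) :
    val (insert Q F) X = w (Q ∩ X) + val F X := by
  unfold val; rw [sum_insert hQ]

/-- a pair of vertices that lies in no tight set can be added as a bar -/
def Addable (S : Finset V) (F : Finset (Finset V)) (a b : V) : Prop :=
  a ∈ S ∧ b ∈ S ∧ a ≠ b ∧ ∀ X, TSet S F X → a ∈ X → b ∈ X → False

theorem Addable.symm {a b : V} (h : Addable S F a b) : Addable S F b a :=
  ⟨h.2.1, h.1, h.2.2.1.symm, fun X hX hb ha => h.2.2.2 X hX ha hb⟩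

theorem Addable.notMem (h : Sparse S F) {a b : V} (hab : Addable S F a b) :
    ({a, b} : Finset V) ∉ F := by
  intro hc
  exact hab.2.2.2 _ (piece_tset h hc) (by simp) (by simp)

theorem w_pair_inter {a b : V} (hab : a ≠ b) (X : Finset V) :
    w (({a, b} : Finset V) ∩ X) = if a ∈ X ∧ b ∈ X then 1 else 0 := by
  split_ifs with hc
  · have : ({a, b} : Finset V) ∩ X = {a, b} := by
      apply inter_eq_left.mpr
      intro d hd
      simp only [mem_insert, mem_singleton] at hd
      rcases hd with rfl | rfl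
      · exact hc.1
      · exact hc.2
    rw [this, w_of_two (by rw [card_pair hab]), card_pair hab]
    norm_num
  · apply w_of_le_one
    by_contra hcon
    have h2 : ({a, b} : Finset V) ∩ X = {a, b} := by
      apply eq_of_subset_of_card_le inter_subset_left
      rw [card_pair hab]; omega
    apply hc
    constructor
    · have : a ∈ ({a, b} : Finset V) ∩ X := by rw [h2]; simp
      exact (mem_inter.mp this).2
    · have : b ∈ ({a, b} : Finset V) ∩ X := by rw [h2]; simp
      exact (mem_inter.mp this).2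

theorem Addable.sparse (h : Sparse S F) {a b : V} (hab : Addable S F a b) :
    Sparse S (insert {a, b} F) := by
  refine ⟨?_, ?_, ?_⟩
  · intro P hP
    rcases mem_insert.mp hP with rfl | hP
    · intro d hd
      simp only [mem_insert, mem_singleton] at hd
      rcases hd with rfl | rfl
      · exact hab.1
      · exact hab.2.1
    · exact h.sub P hP
  · intro P hP
    rcases mem_insert.mp hP with rfl | hP
    · rw [card_pair hab.2.2.1]
    · exact h.two P hP
  · intro X hX hX2
    rw [val_insert (hab.notMem h), w_pair_inter hab.2.2.1]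
    have h1 := h.sp X hX hX2
    split_ifs with hc
    · have : val F X ≠ 2 * (X.card : ℤ) - 3 := fun e => hab.2.2.2 X ⟨hX, hX2, e⟩ hc.1 hc.2
      omega
    · omega

theorem Addable.tset (h : Sparse S F) {a b : V} (hab : Addable S F a b) {X : Finset V}
    (hX : TSet S F X) : TSet S (insert {a, b} F) X := by
  refine ⟨hX.1, hX.2.1, ?_⟩
  rw [val_insert (hab.notMem h), w_pair_inter hab.2.2.1, if_neg, hX.2.2, zero_add]
  rintro ⟨h1, h2⟩
  exact hab.2.2.2 X hX h1 h2

/-- every sparse family extends to a tight one by adding bars -/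
theorem exists_tight (h : Sparse S F) (hS : 2 ≤ S.card) :
    ∃ F', F ⊆ F' ∧ Tight S F' ∧ ∀ Q ∈ F', Q ∈ F ∨ ∃ a b, Q = {a, b} ∧ Addable S F a b := by
  obtain ⟨n, hn⟩ : ∃ n : ℕ, (2 * (S.card : ℤ) - 3) - val F S = n :=
    ⟨((2 * (S.card : ℤ) - 3) - val F S).toNat, by
      have := h.sp S (subset_refl _) hS; omega⟩
  induction n generalizing F with
  | zero =>
    refine ⟨F, subset_refl _, ⟨h, subset_refl _, hS, by omega⟩, fun Q hQ => Or.inl hQ⟩
  | succ n ih =>
    obtain ⟨a, ha, b, hb, hab, hno⟩ : ∃ a ∈ S, ∃ b ∈ S, a ≠ b ∧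
        ∀ X, TSet S F X → a ∈ X → b ∈ X → False := by
      by_contra hcon
      obtain ⟨T, hT, hST⟩ := closure_lemma h S hS (fun a ha b hb hab => by
        by_contra hc
        exact hcon ⟨a, ha, b, hb, hab, fun X hX h1 h2 => hc ⟨X, hX, h1, h2⟩⟩)
      have : T = S := subset_antisymm hT.1 hST
      rw [this] at hT
      have := hT.2.2
      omega
    have hadd : Addable S F a b := ⟨ha, hb, hab, hno⟩
    obtain ⟨F', h1, h2, h3⟩ := ih (hadd.sparse h) (by
      rw [val_insert (hadd.notMem h), w_pair_inter hab, if_pos ⟨ha, hb⟩]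
      push_cast at hn
      omega)
    refine ⟨F', (subset_insert _ _).trans h1, h2, fun Q hQ => ?_⟩
    rcases h3 Q hQ with h4 | ⟨a', b', e, h4⟩
    · rcases mem_insert.mp h4 with rfl | h4
      · exact Or.inr ⟨a, b, rfl, hadd⟩
      · exact Or.inl h4
    · exact Or.inr ⟨a', b', e, h4.1, h4.2.1, h4.2.2.1, fun X hX ha' hb' =>
        h4.2.2.2 X (hadd.tset h hX) ha' hb'⟩

/-! ### restriction -/

/-- restriction of a family to a set of vertices -/
def res (F : Finset (Finset V)) (X : Finset V) : Finset (Finset V) :=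
  (F.image (· ∩ X)).filter (fun Y => 2 ≤ Y.card)

theorem mem_res {X Y : Finset V} : Y ∈ res F X ↔ 2 ≤ Y.card ∧ ∃ P ∈ F, P ∩ X = Y := by
  unfold res; simp only [mem_filter, mem_image]; tauto

theorem res_inj (h : Sparse S F) {X P Q : Finset V} (hX : X ⊆ S) (hP : P ∈ F) (hQ : Q ∈ F)
    (h2 : 2 ≤ (P ∩ X).card) (e : P ∩ X = Q ∩ X) : P = Q := by
  by_contra hne
  set A := P ∩ X with hA
  have hAS : A ⊆ S := inter_subset_right.trans hX
  have h1 : w (P ∩ A) + w (Q ∩ A) ≤ val F A := by
    have : ({P, Q} : Finset (Finset V)) ⊆ F := by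
      intro R hR
      simp only [mem_insert, mem_singleton] at hR
      rcases hR with rfl | rfl <;> assumption
    have h3 := sum_le_sum_of_subset_of_nonneg (f := fun R => w (R ∩ A)) this
      (fun R _ _ => w_nonneg _)
    rwa [sum_pair hne] at h3
  have e1 : P ∩ A = A := by rw [hA, ← inter_assoc, inter_self]
  have e2 : Q ∩ A = A := by
    rw [e, ← inter_assoc, inter_self]
  rw [e1, e2, w_of_two h2] at h1
  have := h.sp A hAS h2
  omega

theorem val_res (h : Sparse S F) {X Y : Finset V} (hX : X ⊆ S) (hY : Y ⊆ X) :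
    val (res F X) Y = val F Y := by
  unfold val res
  rw [filter_image, sum_image]
  · rw [sum_filter]
    refine sum_congr rfl fun P _ => ?_
    have e : P ∩ X ∩ Y = P ∩ Y := by
      rw [inter_assoc, inter_eq_right.mpr hY]
    split_ifs with hc
    · rw [e]
    · rw [w_of_le_one]
      have := card_le_card (inter_subset_inter_left hY : P ∩ Y ⊆ P ∩ X)
      omega
  · intro P hP Q hQ e
    simp only [coe_filter, Set.mem_ofPred_eq] at hP hQ
    exact res_inj h hX hP.1 hQ.1 hP.2 e

theorem sparse_res (h : Sparse S F) {X : Finset V} (hX : X ⊆ S) : Sparse X (res F X) := by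
  refine ⟨?_, ?_, ?_⟩
  · intro P hP
    obtain ⟨_, Q, _, rfl⟩ := mem_res.mp hP
    exact inter_subset_right
  · intro P hP
    exact (mem_res.mp hP).1
  · intro Y hY hY2
    rw [val_res h hX hY]
    exact h.sp Y (hY.trans hX) hY2

theorem tight_res (h : Sparse S F) {X : Finset V} (hX : TSet S F X) : Tight X (res F X) := by
  refine ⟨sparse_res h hX.1, subset_refl _, hX.2.1, ?_⟩
  rw [val_res h hX.1 (subset_refl _)]
  exact hX.2.2

theorem tset_res (h : Sparse S F) {X Y : Finset V} (hX : X ⊆ S) (hY : Y ⊆ X) :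
    TSet X (res F X) Y ↔ TSet S F Y := by
  unfold TSet
  rw [val_res h hX hY]
  exact ⟨fun h' => ⟨hY.trans hX, h'.2⟩, fun h' => ⟨hY, h'.2⟩⟩

end Pool.Agent.helper13.GL
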