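import Mathlib
import Pool.Agent.helper13.GL.Comb

/-!
# Reductions of tight families
-/

namespace Pool.Agent.helper13.GL

open Finset

variable {V : Type*} [DecidableEq V] {S : Finset V} {F : Finset (Finset V)}

/-- number of constraints lost when `z` is deleted -/
def loss (F : Finset (Finset V)) (z : V) : ℤ :=
  ∑ P ∈ F.filter (fun P => z ∈ P), (if P.card = 2 then 1 else 2)

/-- neighbours of `z` -/
def nbr (F : Finset (Finset V)) (z : V) : Finset V :=
  (F.filter (fun P => z ∈ P)).biUnion (fun P => P.erase z)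

theorem mem_nbr {z a : V} : a ∈ nbr F z ↔ ∃ P ∈ F, z ∈ P ∧ a ∈ P ∧ a ≠ z := by
  unfold nbr
  simp only [mem_biUnion, mem_filter, mem_erase]
  constructor
  · rintro ⟨P, ⟨h1, h2⟩, h3, h4⟩; exact ⟨P, h1, h2, h4, h3⟩
  · rintro ⟨P, h1, h2, h4, h3⟩; exact ⟨P, ⟨h1, h2⟩, h3, h4⟩

theorem piece_inter (h : Sparse S F) {P Q : Finset V} (hP : P ∈ F) (hQ : Q ∈ F) (hne : P ≠ Q) :
    (P ∩ Q).card ≤ 1 := by
  by_contra hc
  apply hne
  exact res_inj h (X := P ∩ Q) (inter_subset_left.trans (h.sub P hP)) hP hQ
    (by rw [← inter_assoc, inter_self]; omega)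
    (by rw [← inter_assoc, inter_self, inter_comm P Q, ← inter_assoc, inter_self])

theorem val_add (h : Sparse S F) {z : V} {T : Finset V} (hz : z ∉ T)
    (hP : ∀ P ∈ F, z ∈ P → P ⊆ insert z T) : val F (insert z T) = val F T + loss F z := by
  unfold val loss
  rw [sum_filter, ← sum_add_distrib]
  refine sum_congr rfl fun P hPF => ?_
  split_ifs with h1 h2
  · have e1 : P ∩ insert z T = P := inter_eq_left.mpr (hP P hPF h1)
    have e2 : (P ∩ T).card = P.card - 1 := by
      rw [← card_erase_of_mem h1]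
      congr 1
      ext a
      simp only [mem_inter, mem_erase]
      constructor
      · rintro ⟨h3, h4⟩; exact ⟨fun e => hz (e ▸ h4), h3⟩
      · rintro ⟨h3, h4⟩
        refine ⟨h4, ?_⟩
        rcases mem_insert.mp (hP P hPF h1 h4) with h5 | h5
        · exact absurd h5 h3
        · exact h5
    rw [e1, w_of_two (h.two P hPF), w_of_le_one (by omega)]
    omega
  · have e1 : P ∩ insert z T = P := inter_eq_left.mpr (hP P hPF h1)
    have e2 : (P ∩ T).card = P.card - 1 := by
      rw [← card_erase_of_mem h1]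
      congr 1
      ext a
      simp only [mem_inter, mem_erase]
      constructor
      · rintro ⟨h3, h4⟩; exact ⟨fun e => hz (e ▸ h4), h3⟩
      · rintro ⟨h3, h4⟩
        refine ⟨h4, ?_⟩
        rcases mem_insert.mp (hP P hPF h1 h4) with h5 | h5
        · exact absurd h5 h3
        · exact h5
    have h3 := h.two P hPF
    rw [e1, w_of_two (h.two P hPF), w_of_two (by omega)]
    omega
  · have e1 : P ∩ insert z T = P ∩ T := by
      ext a
      simp only [mem_inter, mem_insert]
      constructor
      · rintro ⟨h3, h4 | h4⟩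
        · exact absurd (h4 ▸ h3) h1
        · exact ⟨h3, h4⟩
      · rintro ⟨h3, h4⟩; exact ⟨h3, Or.inr h4⟩
    rw [e1, add_zero]

theorem val_erase (h : Sparse S F) {z : V} (hz : z ∈ S) :
    val F S = val F (S.erase z) + loss F z := by
  have := val_add h (z := z) (T := S.erase z) (notMem_erase _ _) (fun P hP _ => by
    rw [insert_erase hz]; exact h.sub P hP)
  rwa [insert_erase hz] at this

theorem loss_ge_two (h : Tight S F) (h3 : 3 ≤ S.card) {z : V} (hz : z ∈ S) : 2 ≤ loss F z := by
  have h1 := val_erase h.1 hz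
  have h2 := h.2.2.2
  have h4 := card_erase_of_mem hz
  have h5 := h.1.sp (S.erase z) (erase_subset _ _) (by omega)
  omega

theorem sum_loss (h : Tight S F) : ∑ z ∈ S, loss F z ≤ 4 * (S.card : ℤ) - 6 := by
  have h1 : ∑ z ∈ S, loss F z = ∑ P ∈ F, (P.card : ℤ) * (if P.card = 2 then 1 else 2) := by
    unfold loss
    simp_rw [sum_filter]
    rw [sum_comm]
    refine sum_congr rfl fun P hP => ?_
    rw [← sum_filter, sum_const, nsmul_eq_mul]
    congr 2
    apply congrArg card
    ext a
    simp only [mem_filter]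
    exact ⟨fun h' => h'.2, fun h' => ⟨h.1.sub P hP h', h'⟩⟩
  have h2 : ∑ P ∈ F, (P.card : ℤ) * (if P.card = 2 then 1 else 2) ≤ ∑ P ∈ F, 2 * w (P ∩ S) := by
    refine sum_le_sum fun P hP => ?_
    have h3 := h.1.two P hP
    rw [inter_eq_left.mpr (h.1.sub P hP), w_of_two h3]
    split_ifs with h4 <;> omega
  have h3 : ∑ P ∈ F, 2 * w (P ∩ S) = 2 * val F S := by
    unfold val; rw [mul_sum]
  have h4 := h.2.2.2
  omega

theorem exists_low (h : Tight S F) (h3 : 3 ≤ S.card) {x y : V} (hx : x ∈ S) (hy : y ∈ S)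
    (hxy : x ≠ y) : ∃ z ∈ S, z ≠ x ∧ z ≠ y ∧ 2 ≤ loss F z ∧ loss F z ≤ 3 := by
  by_contra hcon
  have h1 : ∀ z ∈ (S.erase x).erase y, 4 ≤ loss F z := by
    intro z hz
    simp only [mem_erase] at hz
    by_contra hc
    exact hcon ⟨z, hz.2.2, hz.2.1, hz.1, loss_ge_two h h3 hz.2.2, by omega⟩
  have h2 := sum_loss h
  have hy' : y ∈ S.erase x := mem_erase.mpr ⟨hxy.symm, hy⟩
  rw [← add_sum_erase _ _ hx, ← add_sum_erase _ _ hy'] at h2
  have h4 := sum_le_sum h1
  rw [sum_const, card_erase_of_mem hy', card_erase_of_mem hx, nsmul_eq_mul] at h4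
  have h5 := loss_ge_two h h3 hx
  have h6 := loss_ge_two h h3 hy
  have h7 : ((S.card - 1 - 1 : ℕ) : ℤ) = S.card - 2 := by omega
  rw [h7] at h4
  omega

/-- pair as a piece -/
theorem card_two_piece {P : Finset V} {z : V} (hz : z ∈ P) (h2 : P.card = 2) :
    ∃ a, a ≠ z ∧ P = {z, a} := by
  have h1 : (P.erase z).card = 1 := by rw [card_erase_of_mem hz]; omega
  obtain ⟨a, ha⟩ := card_eq_one.mp h1
  refine ⟨a, ?_, ?_⟩
  · have : a ∈ P.erase z := by rw [ha]; simp
    exact (mem_erase.mp this).1
  · rw [← insert_erase hz, ha]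

theorem loss_two_cases (h : Sparse S F) {z : V} (hl : loss F z = 2) :
    (∃ P ∈ F, z ∈ P ∧ 3 ≤ P.card ∧ ∀ Q ∈ F, z ∈ Q → Q = P) ∨
    (∃ a b, a ≠ b ∧ a ≠ z ∧ b ≠ z ∧ ({z, a} : Finset V) ∈ F ∧ ({z, b} : Finset V) ∈ F ∧
      ∀ Q ∈ F, z ∈ Q → Q = {z, a} ∨ Q = {z, b}) := by
  unfold loss at hl
  set G := F.filter (fun P => z ∈ P) with hG
  have memG : ∀ P, P ∈ G ↔ P ∈ F ∧ z ∈ P := fun P => by rw [hG, mem_filter]
  have hc1 : (G.card : ℤ) ≤ 2 := by
    rw [← hl, ← nsmul_one, ← sum_const]
    exact sum_le_sum fun P _ => by split_ifs <;> norm_num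
  have hne : G.card ≠ 0 := by
    intro h0
    rw [card_eq_zero] at h0
    rw [h0, sum_empty] at hl
    omega
  rcases (by omega : G.card = 1 ∨ G.card = 2) with h1 | h1
  · obtain ⟨P, hP⟩ := card_eq_one.mp h1
    left
    have hPG : P ∈ G := by rw [hP]; simp
    rw [hP, sum_singleton] at hl
    refine ⟨P, ((memG P).mp hPG).1, ((memG P).mp hPG).2, ?_, fun Q hQ hz => ?_⟩
    · have := h.two P ((memG P).mp hPG).1
      split_ifs at hl <;> omega
    · have : Q ∈ G := (memG Q).mpr ⟨hQ, hz⟩
      rw [hP, mem_singleton] at this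
      exact this
  · obtain ⟨P, Q, hPQ, hPQ'⟩ := card_eq_two.mp h1
    right
    have hPG : P ∈ G := by rw [hPQ']; simp
    have hQG : Q ∈ G := by rw [hPQ']; simp
    rw [hPQ', sum_pair hPQ] at hl
    have hP2 : P.card = 2 := by
      split_ifs at hl <;> omega
    have hQ2 : Q.card = 2 := by
      split_ifs at hl <;> omega
    obtain ⟨a, ha, rfl⟩ := card_two_piece ((memG P).mp hPG).2 hP2
    obtain ⟨b, hb, rfl⟩ := card_two_piece ((memG Q).mp hQG).2 hQ2
    refine ⟨a, b, fun e => hPQ (by rw [e]), ha, hb, ((memG _).mp hPG).1, ((memG _).mp hQG).1,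
      fun R hR hz => ?_⟩
    have : R ∈ G := (memG R).mpr ⟨hR, hz⟩
    rw [hPQ'] at this
    simpa using this

theorem loss_three_cases (h : Sparse S F) {z : V} (hl : loss F z = 3) :
    (∃ P ∈ F, ∃ c, z ∈ P ∧ 3 ≤ P.card ∧ c ∉ P ∧ c ≠ z ∧ ({z, c} : Finset V) ∈ F ∧
      ∀ Q ∈ F, z ∈ Q → Q = P ∨ Q = {z, c}) ∨
    (∃ a b c, a ≠ b ∧ a ≠ c ∧ b ≠ c ∧ a ≠ z ∧ b ≠ z ∧ c ≠ z ∧ ({z, a} : Finset V) ∈ F ∧
      ({z, b} : Finset V) ∈ F ∧ ({z, c} : Finset V) ∈ F ∧
      ∀ Q ∈ F, z ∈ Q → Q = {z, a} ∨ Q = {z, b} ∨ Q = {z, c}) := by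
  unfold loss at hl
  set G := F.filter (fun P => z ∈ P) with hG
  have memG : ∀ P, P ∈ G ↔ P ∈ F ∧ z ∈ P := fun P => by rw [hG, mem_filter]
  have hc1 : (G.card : ℤ) ≤ 3 := by
    rw [← hl, ← nsmul_one, ← sum_const]
    exact sum_le_sum fun P _ => by split_ifs <;> norm_num
  have hc2 : (3 : ℤ) ≤ 2 * G.card := by
    rw [← hl, mul_comm, ← nsmul_eq_mul, ← sum_const]
    exact sum_le_sum fun P _ => by split_ifs <;> norm_num
  rcases (by omega : G.card = 2 ∨ G.card = 3) with h1 | h1
  · obtain ⟨P, Q, hPQ, hPQ'⟩ := card_eq_two.mp h1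
    left
    -- wlog `Q` is the bar
    have main : ∀ P Q : Finset V, P ≠ Q → G = {P, Q} → P.card ≠ 2 → Q.card = 2 →
        ∃ P ∈ F, ∃ c, z ∈ P ∧ 3 ≤ P.card ∧ c ∉ P ∧ c ≠ z ∧ ({z, c} : Finset V) ∈ F ∧
        ∀ Q ∈ F, z ∈ Q → Q = P ∨ Q = {z, c} := by
      intro P Q hPQ hPQ' hP2 hQ2
      have hPG : P ∈ G := by rw [hPQ']; simp
      have hQG : Q ∈ G := by rw [hPQ']; simp
      obtain ⟨c, hc, rfl⟩ := card_two_piece ((memG Q).mp hQG).2 hQ2
      refine ⟨P, ((memG P).mp hPG).1, c, ((memG P).mp hPG).2, ?_, ?_, hc, ((memG _).mp hQG).1,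
        fun R hR hz => ?_⟩
      · have := h.two P ((memG P).mp hPG).1
        omega
      · intro hcP
        have h5 := piece_inter h ((memG P).mp hPG).1 ((memG _).mp hQG).1 hPQ
        have h6 : P ∩ {z, c} = {z, c} := by
          apply inter_eq_right.mpr
          intro d hd
          simp only [mem_insert, mem_singleton] at hd
          rcases hd with rfl | rfl
          · exact ((memG P).mp hPG).2
          · exact hcP
        rw [h6, card_pair hc.symm] at h5
        omega
      · have : R ∈ G := (memG R).mpr ⟨hR, hz⟩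
        rw [hPQ'] at this
        simpa using this
    rw [hPQ', sum_pair hPQ] at hl
    by_cases hP2 : P.card = 2
    · have hQ2 : Q.card ≠ 2 := by
        intro hQ2; rw [if_pos hP2, if_pos hQ2] at hl; omega
      exact main Q P hPQ.symm (by rw [hPQ', pair_comm]) hQ2 hP2
    · have hQ2 : Q.card = 2 := by
        by_contra hQ2; rw [if_neg hP2, if_neg hQ2] at hl; omega
      exact main P Q hPQ hPQ' hP2 hQ2
  · obtain ⟨P, Q, R, hPQ, hPR, hQR, hPQR⟩ := card_eq_three.mp h1
    right
    have hPG : P ∈ G := by rw [hPQR]; simp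
    have hQG : Q ∈ G := by rw [hPQR]; simp
    have hRG : R ∈ G := by rw [hPQR]; simp
    have hl' : (if P.card = 2 then (1 : ℤ) else 2) + ((if Q.card = 2 then (1 : ℤ) else 2) +
        (if R.card = 2 then (1 : ℤ) else 2)) = 3 := by
      rw [hPQR, sum_insert (by simp [hPQ, hPR]), sum_pair hQR] at hl
      exact hl
    have hP2 : P.card = 2 := by
      split_ifs at hl' <;> omega
    have hQ2 : Q.card = 2 := by
      split_ifs at hl' <;> omega
    have hR2 : R.card = 2 := by
      split_ifs at hl' <;> omega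
    obtain ⟨a, ha, rfl⟩ := card_two_piece ((memG P).mp hPG).2 hP2
    obtain ⟨b, hb, rfl⟩ := card_two_piece ((memG Q).mp hQG).2 hQ2
    obtain ⟨c, hc, rfl⟩ := card_two_piece ((memG R).mp hRG).2 hR2
    refine ⟨a, b, c, fun e => hPQ (by rw [e]), fun e => hPR (by rw [e]), fun e => hQR (by rw [e]),
      ha, hb, hc, ((memG _).mp hPG).1, ((memG _).mp hQG).1, ((memG _).mp hRG).1,
      fun U hU hz => ?_⟩
    have : U ∈ G := (memG U).mpr ⟨hU, hz⟩
    rw [hPQR] at this
    simpa using this

theorem tight_of_loss_two (h : Tight S F) (h3 : 3 ≤ S.card) {z : V} (hz : z ∈ S)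
    (hl : loss F z = 2) : Tight (S.erase z) (res F (S.erase z)) := by
  apply tight_res h.1
  have h1 := val_erase h.1 hz
  have h2 := h.2.2.2
  have h4 := card_erase_of_mem hz
  exact ⟨erase_subset _ _, by omega, by omega⟩

theorem tight_of_addable (h : Tight S F) (h3 : 3 ≤ S.card) {z : V} (hz : z ∈ S)
    (hl : loss F z = 3) {a b : V} (hab : Addable (S.erase z) (res F (S.erase z)) a b) :
    Tight (S.erase z) (insert {a, b} (res F (S.erase z))) := by
  have hs := sparse_res h.1 (erase_subset z S)
  refine ⟨hab.sparse hs, subset_refl _, ?_, ?_⟩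
  · have h4 := card_erase_of_mem hz
    omega
  · rw [val_insert (hab.notMem hs), val_res h.1 (erase_subset _ _) (subset_refl _),
      w_pair_inter hab.2.2.1, if_pos ⟨hab.1, hab.2.1⟩]
    have h1 := val_erase h.1 hz
    have h2 := h.2.2.2
    have h4 := card_erase_of_mem hz
    omega

theorem nbr_subset (h : Sparse S F) (z : V) : nbr F z ⊆ S.erase z := by
  intro a ha
  obtain ⟨P, hP, _, haP, haz⟩ := mem_nbr.mp ha
  exact mem_erase.mpr ⟨haz, h.sub P hP haP⟩

theorem piece_subset_nbr {P : Finset V} {z : V} (hP : P ∈ F) (hz : z ∈ P) :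
    P ⊆ insert z (nbr F z) := by
  intro a ha
  by_cases haz : a = z
  · rw [haz]; exact mem_insert_self _ _
  · exact mem_insert_of_mem (mem_nbr.mpr ⟨P, hP, hz, ha, haz⟩)

theorem no_tset_nbr (h : Sparse S F) {z : V} (hz : z ∈ S) (hl : 3 ≤ loss F z) {T : Finset V}
    (hT : TSet (S.erase z) (res F (S.erase z)) T) (hN : nbr F z ⊆ T) : False := by
  have hzT : z ∉ T := fun hc => (mem_erase.mp (hT.1 hc)).1 rfl
  have h1 := val_add h hzT (fun P hP hzP => (piece_subset_nbr hP hzP).trans
    (insert_subset_insert z hN))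
  have h2 := hT.2.2
  rw [val_res h (erase_subset _ _) hT.1] at h2
  have hsub : insert z T ⊆ S := insert_subset hz (hT.1.trans (erase_subset _ _))
  have hc : (insert z T).card = T.card + 1 := card_insert_of_notMem hzT
  have h3 := h.sp (insert z T) hsub (by have := hT.2.1; omega)
  omega

theorem two_le_nbr (h : Sparse S F) {z : V} (hl : 2 ≤ loss F z) : 2 ≤ (nbr F z).card := by
  by_contra hcon
  have key : ∀ P ∈ F.filter (fun P => z ∈ P), P = insert z (nbr F z) ∧ P.card = 2 := by
    intro P hP
    rw [mem_filter] at hP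
    have h1 := piece_subset_nbr hP.1 hP.2
    have h2 := card_le_card h1
    have h3 := card_insert_le z (nbr F z)
    have h4 := h.two P hP.1
    exact ⟨eq_of_subset_of_card_le h1 (by omega), by omega⟩
  have h5 : F.filter (fun P => z ∈ P) ⊆ {insert z (nbr F z)} := by
    intro P hP
    rw [mem_singleton]
    exact (key P hP).1
  have h6 : loss F z ≤ 1 := by
    unfold loss
    calc ∑ P ∈ F.filter (fun P => z ∈ P), (if P.card = 2 then (1 : ℤ) else 2)
        = ∑ P ∈ F.filter (fun P => z ∈ P), (1 : ℤ) :=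
          sum_congr rfl fun P hP => by rw [if_pos (key P hP).2]
      _ = (F.filter (fun P => z ∈ P)).card := by simp
      _ ≤ 1 := by
          have := card_le_card h5
          rw [card_singleton] at this
          exact_mod_cast this
  omega

/-- for the construction of rigid realisations: some pair of neighbours is addable -/
theorem exists_addable (h : Tight S F) {z : V} (hz : z ∈ S) (hl : loss F z = 3) :
    ∃ a ∈ nbr F z, ∃ b ∈ nbr F z, Addable (S.erase z) (res F (S.erase z)) a b := by
  have hs := sparse_res h.1 (erase_subset z S)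
  by_contra hcon
  obtain ⟨T, hT, hN⟩ := closure_lemma hs (nbr F z) (two_le_nbr h.1 (by omega))
    (fun a ha b hb hab => by
      by_contra hc
      exact hcon ⟨a, ha, b, hb, nbr_subset h.1 z ha, nbr_subset h.1 z hb, hab,
        fun X hX h1 h2 => hc ⟨X, hX, h1, h2⟩⟩)
  exact no_tset_nbr h.1 hz (by omega) hT hN

/-- a pair of neighbours different from `{x,y}` is addable, or we are in the special case -/
theorem exists_addable_ne (h : Tight S F) {z : V} (hz : z ∈ S) (hl : loss F z = 3) (x y : V) :
    (∃ a ∈ nbr F z, ∃ b ∈ nbr F z, Addable (S.erase z) (res F (S.erase z)) a b ∧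
      ({a, b} : Finset V) ≠ {x, y}) ∨
    (∃ d, nbr F z = {x, y, d} ∧ d ≠ x ∧ d ≠ y ∧ Addable (S.erase z) (res F (S.erase z)) x y ∧
      (∃ X, TSet (S.erase z) (res F (S.erase z)) X ∧ x ∈ X ∧ d ∈ X) ∧
      (∃ X, TSet (S.erase z) (res F (S.erase z)) X ∧ y ∈ X ∧ d ∈ X)) := by
  classical
  have hs := sparse_res h.1 (erase_subset z S)
  by_cases hcon : ∃ a ∈ nbr F z, ∃ b ∈ nbr F z, Addable (S.erase z) (res F (S.erase z)) a b ∧
      ({a, b} : Finset V) ≠ {x, y}
  · exact Or.inl hcon
  right
  have hN := nbr_subset h.1 z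
  obtain ⟨a, ha, b, hb, hab⟩ := exists_addable h hz hl
  have hpair : ({a, b} : Finset V) = {x, y} := by
    by_contra hc; exact hcon ⟨a, ha, b, hb, hab, hc⟩
  -- `x` and `y` are the two ends
  have hxy : (a = x ∧ b = y) ∨ (a = y ∧ b = x) := by
    have h1 : a ∈ ({x, y} : Finset V) := by rw [← hpair]; simp
    have h2 : b ∈ ({x, y} : Finset V) := by rw [← hpair]; simp
    simp only [mem_insert, mem_singleton] at h1 h2
    have h3 := hab.2.2.1
    rcases h1 with rfl | rfl <;> rcases h2 with rfl | rfl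
    · exact absurd rfl h3
    · exact Or.inl ⟨rfl, rfl⟩
    · exact Or.inr ⟨rfl, rfl⟩
    · exact absurd rfl h3
  have hadd : Addable (S.erase z) (res F (S.erase z)) x y := by
    rcases hxy with ⟨rfl, rfl⟩ | ⟨rfl, rfl⟩
    · exact hab
    · exact hab.symm
  have hxN : x ∈ nbr F z := by rcases hxy with ⟨rfl, rfl⟩ | ⟨rfl, rfl⟩ <;> assumption
  have hyN : y ∈ nbr F z := by rcases hxy with ⟨rfl, rfl⟩ | ⟨rfl, rfl⟩ <;> assumption
  have hxy' : x ≠ y := hadd.2.2.1
  have notadd : ∀ c ∈ nbr F z, ∀ d ∈ nbr F z, c ≠ d → ({c, d} : Finset V) ≠ {x, y} →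
      ∃ X, TSet (S.erase z) (res F (S.erase z)) X ∧ c ∈ X ∧ d ∈ X := by
    intro c hc d hd hcd hne
    by_contra hno
    exact hcon ⟨c, hc, d, hd, ⟨hN hc, hN hd, hcd, fun X hX h1 h2 => hno ⟨X, hX, h1, h2⟩⟩, hne⟩
  have ne1 : ∀ c d : V, c ≠ x → d ≠ x → ({c, d} : Finset V) ≠ {x, y} := by
    intro c d h1 h2 e
    have : x ∈ ({c, d} : Finset V) := by rw [e]; simp
    simp only [mem_insert, mem_singleton] at this
    rcases this with h | h
    · exact h1 h.symm
    · exact h2 h.symm
  have ne2 : ∀ c d : V, c ≠ y → d ≠ y → ({c, d} : Finset V) ≠ {x, y} := by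
    intro c d h1 h2 e
    have : y ∈ ({c, d} : Finset V) := by rw [e]; simp
    simp only [mem_insert, mem_singleton] at this
    rcases this with h | h
    · exact h1 h.symm
    · exact h2 h.symm
  -- a third neighbour
  have hthird : ∃ d ∈ nbr F z, d ≠ x ∧ d ≠ y := by
    by_contra hno
    have h1 : nbr F z ⊆ {x, y} := by
      intro d hd
      simp only [mem_insert, mem_singleton]
      by_contra hc
      rw [not_or] at hc
      exact hno ⟨d, hd, hc.1, hc.2⟩
    have key : ∀ P ∈ F.filter (fun P => z ∈ P), P = {z, x} ∨ P = {z, y} ∨ P = {z, x, y} := by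
      intro P hP
      rw [mem_filter] at hP
      have h2 := (piece_subset_nbr hP.1 hP.2).trans (insert_subset_insert z h1)
      have h3 := h.1.two P hP.1
      by_cases hxP : x ∈ P
      · by_cases hyP : y ∈ P
        · right; right
          apply subset_antisymm h2
          intro d hd
          simp only [mem_insert, mem_singleton] at hd
          rcases hd with rfl | rfl | rfl
          · exact hP.2
          · exact hxP
          · exact hyP
        · left
          apply subset_antisymm
          · intro d hd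
            have := h2 hd
            simp only [mem_insert, mem_singleton] at this ⊢
            rcases this with rfl | rfl | rfl
            · exact Or.inl rfl
            · exact Or.inr rfl
            · exact absurd hd hyP
          · intro d hd
            simp only [mem_insert, mem_singleton] at hd
            rcases hd with rfl | rfl
            · exact hP.2
            · exact hxP
      · by_cases hyP : y ∈ P
        · right; left
          apply subset_antisymm
          · intro d hd
            have := h2 hd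
            simp only [mem_insert, mem_singleton] at this ⊢
            rcases this with rfl | rfl | rfl
            · exact Or.inl rfl
            · exact absurd hd hxP
            · exact Or.inr rfl
          · intro d hd
            simp only [mem_insert, mem_singleton] at hd
            rcases hd with rfl | rfl
            · exact hP.2
            · exact hyP
        · exfalso
          have : P ⊆ {z} := by
            intro d hd
            have := h2 hd
            simp only [mem_insert, mem_singleton] at this ⊢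
            rcases this with rfl | rfl | rfl
            · rfl
            · exact absurd hd hxP
            · exact absurd hd hyP
          have := card_le_card this
          rw [card_singleton] at this
          omega
    -- the piece `{z,x,y}` is impossible since `{x,y}` is addable
    have key2 : ∀ P ∈ F.filter (fun P => z ∈ P), P = {z, x} ∨ P = {z, y} := by
      intro P hP
      rcases key P hP with h2 | h2 | h2
      · exact Or.inl h2
      · exact Or.inr h2
      · exfalso
        rw [mem_filter] at hP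
        have h3 : P ∩ S.erase z ∈ res F (S.erase z) := by
          rw [mem_res]
          refine ⟨?_, P, hP.1, rfl⟩
          rw [← card_pair hxy']
          apply card_le_card
          intro d hd
          simp only [mem_insert, mem_singleton] at hd
          rcases hd with rfl | rfl
          · exact mem_inter.mpr ⟨by rw [h2]; simp, hN hxN⟩
          · exact mem_inter.mpr ⟨by rw [h2]; simp, hN hyN⟩
        exact hadd.2.2.2 _ (piece_tset hs h3)
          (mem_inter.mpr ⟨by rw [h2]; simp, hN hxN⟩) (mem_inter.mpr ⟨by rw [h2]; simp, hN hyN⟩)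
    have hzx : z ≠ x := fun e => (mem_erase.mp (hN hxN)).1 e.symm
    have hzy : z ≠ y := fun e => (mem_erase.mp (hN hyN)).1 e.symm
    have h5 : loss F z ≤ 2 := by
      unfold loss
      calc ∑ P ∈ F.filter (fun P => z ∈ P), (if P.card = 2 then (1 : ℤ) else 2)
          = ∑ P ∈ F.filter (fun P => z ∈ P), (1 : ℤ) :=
            sum_congr rfl fun P hP => by
              rw [if_pos]
              rcases key2 P hP with rfl | rfl
              · exact card_pair hzx
              · exact card_pair hzy
        _ = (F.filter (fun P => z ∈ P)).card := by simp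
        _ ≤ 2 := by
            have h6 : F.filter (fun P => z ∈ P) ⊆ {{z, x}, {z, y}} := by
              intro P hP
              simp only [mem_insert, mem_singleton]
              exact key2 P hP
            have := (card_le_card h6).trans card_le_two
            exact_mod_cast this
    omega
  obtain ⟨d, hdN, hdx, hdy⟩ := hthird
  refine ⟨d, ?_, hdx, hdy, hadd, notadd x hxN d hdN hdx.symm (ne2 _ _ hxy' hdy),
    notadd y hyN d hdN hdy.symm (ne1 _ _ hxy'.symm hdx)⟩
  -- no further neighbour
  by_contra hne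
  have hfourth : ∃ e ∈ nbr F z, e ≠ x ∧ e ≠ y ∧ e ≠ d := by
    by_contra hno
    apply hne
    apply subset_antisymm
    · intro e he
      simp only [mem_insert, mem_singleton]
      by_contra hc
      rw [not_or, not_or] at hc
      exact hno ⟨e, he, hc.1, hc.2.1, hc.2.2⟩
    · intro e he
      simp only [mem_insert, mem_singleton] at he
      rcases he with rfl | rfl | rfl <;> assumption
  obtain ⟨e, heN, hex, hey, hed⟩ := hfourth
  have hcard : ∀ t ∈ nbr F z, t ≠ d → t ≠ e → 2 ≤ ((nbr F z).erase t).card := by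
    intro t ht h1 h2
    rw [← card_pair hed]
    apply card_le_card
    intro g hg
    simp only [mem_insert, mem_singleton] at hg
    rcases hg with rfl | rfl
    · exact mem_erase.mpr ⟨h2.symm, heN⟩
    · exact mem_erase.mpr ⟨h1.symm, hdN⟩
  obtain ⟨T1, hT1, hN1⟩ := closure_lemma hs ((nbr F z).erase x) (hcard x hxN hdx.symm hex.symm)
    (fun g hg k hk hgk => notadd g (mem_of_mem_erase hg) k (mem_of_mem_erase hk) hgk
      (ne1 _ _ (ne_of_mem_erase hg) (ne_of_mem_erase hk)))
  obtain ⟨T2, hT2, hN2⟩ := closure_lemma hs ((nbr F z).erase y) (hcard y hyN hdy.symm hey.symm)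
    (fun g hg k hk hgk => notadd g (mem_of_mem_erase hg) k (mem_of_mem_erase hk) hgk
      (ne2 _ _ (ne_of_mem_erase hg) (ne_of_mem_erase hk)))
  have h12 : 2 ≤ (T1 ∩ T2).card := by
    rw [← card_pair hed]
    apply card_le_card
    intro g hg
    simp only [mem_insert, mem_singleton] at hg
    rcases hg with rfl | rfl
    · exact mem_inter.mpr ⟨hN1 (mem_erase.mpr ⟨hex, heN⟩), hN2 (mem_erase.mpr ⟨hey, heN⟩)⟩
    · exact mem_inter.mpr ⟨hN1 (mem_erase.mpr ⟨hdx, hdN⟩), hN2 (mem_erase.mpr ⟨hdy, hdN⟩)⟩
  have hT := tset_union hs hT1 hT2 h12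
  apply no_tset_nbr h.1 hz (by omega) hT
  intro g hg
  by_cases hgx : g = x
  · exact mem_union_right _ (hN2 (mem_erase.mpr ⟨by rw [hgx]; exact hxy', hg⟩))
  · exact mem_union_left _ (hN1 (mem_erase.mpr ⟨hgx, hg⟩))

end Pool.Agent.helper13.GL
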