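import Mathlib
import Pool.Agent.helper13.GL.Red

/-!
# Optimal covers of the edges of a graph
-/

namespace Pool.Agent.helper13.GL

open Finset

variable {V : Type*} [DecidableEq V] [Fintype V]

/-- a cover of the edge set `E` by sets with at least two elements -/
def IsCover (E F : Finset (Finset V)) : Prop :=
  (∀ P ∈ F, 2 ≤ P.card) ∧ ∀ e ∈ E, ∃ P ∈ F, e ⊆ P

def cost (F : Finset (Finset V)) : ℤ := ∑ P ∈ F, (2 * (P.card : ℤ) - 3)

def cost2 (F : Finset (Finset V)) : ℤ := ∑ P ∈ F, (2 * (P.card : ℤ) - 3) ^ 2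

/-- an optimal cover -/
structure Opt (E F : Finset (Finset V)) : Prop where
  cov : IsCover E F
  le : ∀ F', IsCover E F' → cost F ≤ cost F'
  le2 : ∀ F', IsCover E F' → cost F' = cost F → cost2 F ≤ cost2 F'

theorem exists_opt (E : Finset (Finset V)) (hE : ∀ e ∈ E, e.card = 2) : ∃ F, Opt E F := by
  classical
  have hne : (univ.filter (fun F => IsCover E F)).Nonempty := by
    refine ⟨E, ?_⟩
    simp only [mem_filter, mem_univ, true_and]
    exact ⟨fun P hP => (hE P hP).ge, fun e he => ⟨e, he, subset_refl _⟩⟩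
  obtain ⟨F0, hF0, hmin0⟩ := exists_min_image _ (fun F => cost F) hne
  simp only [mem_filter, mem_univ, true_and] at hF0 hmin0
  have hne2 : (univ.filter (fun F => IsCover E F ∧ cost F = cost F0)).Nonempty :=
    ⟨F0, by simp [hF0]⟩
  obtain ⟨F, hF, hmin⟩ := exists_min_image _ (fun F => cost2 F) hne2
  simp only [mem_filter, mem_univ, true_and] at hF hmin
  exact ⟨F, hF.1, fun F' h' => by rw [hF.2]; exact hmin0 F' h',
    fun F' h' e => hmin F' ⟨h', by rw [e, hF.2]⟩⟩

variable {E F : Finset (Finset V)}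

theorem Opt.sparse (h : Opt E F) : Sparse univ F := by
  classical
  refine ⟨fun P _ => subset_univ P, h.cov.1, fun X _ hX2 => ?_⟩
  by_contra hcon
  rw [not_le] at hcon
  set Q := F.filter (fun P => 2 ≤ (P ∩ X).card) with hQ
  set U := X ∪ Q.biUnion id with hU
  have hcov : IsCover E (insert U (F \ Q)) := by
    constructor
    · intro P hP
      rcases mem_insert.mp hP with rfl | hP
      · exact hX2.trans (card_le_card subset_union_left)
      · exact h.cov.1 P (mem_sdiff.mp hP).1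
    · intro e he
      obtain ⟨P, hP, heP⟩ := h.cov.2 e he
      by_cases hPQ : P ∈ Q
      · exact ⟨U, mem_insert_self _ _, heP.trans
          ((subset_biUnion_of_mem id hPQ).trans subset_union_right)⟩
      · exact ⟨P, mem_insert_of_mem (mem_sdiff.mpr ⟨hP, hPQ⟩), heP⟩
  have h1 := h.le _ hcov
  have h2 : cost (insert U (F \ Q)) ≤ (2 * (U.card : ℤ) - 3) + cost (F \ Q) := by
    unfold cost
    by_cases hc : U ∈ F \ Q
    · rw [insert_eq_of_mem hc]
      have : 2 ≤ U.card := hX2.trans (card_le_card subset_union_left)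
      have h3 : (0 : ℤ) ≤ 2 * (U.card : ℤ) - 3 := by omega
      linarith
    · rw [sum_insert hc]
  have h3 : cost F = cost Q + cost (F \ Q) := by
    unfold cost
    rw [add_comm, sum_sdiff (filter_subset _ _)]
  have h4 : (U.card : ℤ) ≤ X.card + ∑ P ∈ Q, ((P \ X).card : ℤ) := by
    have e : U = X ∪ Q.biUnion (fun P => P \ X) := by
      ext a
      simp only [hU, mem_union, mem_biUnion, id, mem_sdiff]
      constructor
      · rintro (h' | ⟨P, hP, ha⟩)
        · exact Or.inl h'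
        · by_cases hax : a ∈ X
          · exact Or.inl hax
          · exact Or.inr ⟨P, hP, ha, hax⟩
      · rintro (h' | ⟨P, hP, ha, _⟩)
        · exact Or.inl h'
        · exact Or.inr ⟨P, hP, ha⟩
    rw [e]
    have h5 := card_union_le X (Q.biUnion (fun P => P \ X))
    have h6 : (Q.biUnion (fun P => P \ X)).card ≤ ∑ P ∈ Q, (P \ X).card := card_biUnion_le
    have h7 : ((X ∪ Q.biUnion (fun P => P \ X)).card : ℤ) ≤
        ((X.card + ∑ P ∈ Q, (P \ X).card : ℕ) : ℤ) := by
      exact_mod_cast h5.trans (Nat.add_le_add_left h6 _)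
    rwa [Nat.cast_add, Nat.cast_sum] at h7
  have h5 : cost Q = val F X + 2 * ∑ P ∈ Q, ((P \ X).card : ℤ) := by
    unfold cost val
    have e1 : ∑ P ∈ F, w (P ∩ X) = ∑ P ∈ Q, (2 * ((P ∩ X).card : ℤ) - 3) := by
      rw [hQ, sum_filter]
      exact sum_congr rfl fun P _ => rfl
    rw [e1, mul_sum, ← sum_add_distrib]
    refine sum_congr rfl fun P _ => ?_
    have := card_sdiff_add_card_inter P X
    omega
  omega

theorem Opt.exists_edge (h : Opt E F) {P : Finset V} (hP : P ∈ F) : ∃ e ∈ E, e ⊆ P := by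
  by_contra hcon
  have hcov : IsCover E (F.erase P) := by
    refine ⟨fun Q hQ => h.cov.1 Q (mem_of_mem_erase hQ), fun e he => ?_⟩
    obtain ⟨Q, hQ, heQ⟩ := h.cov.2 e he
    refine ⟨Q, mem_erase.mpr ⟨?_, hQ⟩, heQ⟩
    rintro rfl
    exact hcon ⟨e, he, heQ⟩
  have h1 := h.le _ hcov
  have h2 : cost F = (2 * (P.card : ℤ) - 3) + cost (F.erase P) := by
    exact (add_sum_erase F (fun P => 2 * (P.card : ℤ) - 3) hP).symm
  have := h.cov.1 P hP
  omega

theorem Opt.bar_mem (h : Opt E F) (hE : ∀ e ∈ E, e.card = 2) {P : Finset V} (hP : P ∈ F)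
    (h2 : P.card = 2) : P ∈ E := by
  obtain ⟨e, he, heP⟩ := h.exists_edge hP
  have : e = P := eq_of_subset_of_card_le heP (by rw [hE e he, h2])
  rw [← this]; exact he

omit [Fintype V] in
theorem sum_sq_le (T : Finset (Finset V)) (g : Finset V → ℤ) (hg : ∀ P ∈ T, 0 ≤ g P) :
    ∑ P ∈ T, g P ^ 2 ≤ (∑ P ∈ T, g P) ^ 2 := by
  induction T using Finset.induction_on with
  | empty => simp
  | insert P T hP ih =>
    rw [sum_insert hP, sum_insert hP]
    have h1 := ih (fun Q hQ => hg Q (mem_insert_of_mem hQ))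
    have h2 : 0 ≤ g P := hg P (mem_insert_self _ _)
    have h3 : 0 ≤ ∑ P ∈ T, g P := sum_nonneg fun Q hQ => hg Q (mem_insert_of_mem hQ)
    nlinarith [mul_nonneg h2 h3]

omit [Fintype V] in
theorem val_bars {H : Finset (Finset V)} (hH : ∀ e ∈ H, e.card = 2) (X : Finset V) :
    val H X = ((H.filter (fun e => e ⊆ X)).card : ℤ) := by
  unfold val
  rw [card_filter, Nat.cast_sum]
  refine sum_congr rfl fun e he => ?_
  by_cases hc : e ⊆ X
  · rw [if_pos hc, inter_eq_left.mpr hc, w_of_two (hH e he).ge, hH e he]; norm_num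
  · rw [if_neg hc, w_of_le_one]
    · norm_num
    · by_contra hcon
      apply hc
      have h1 : e ∩ X = e := eq_of_subset_of_card_le inter_subset_left (by rw [hH e he]; omega)
      exact inter_eq_left.mp h1

theorem Opt.redundant (h : Opt E F) (hE : ∀ e ∈ E, e.card = 2) {P : Finset V} (hP : P ∈ F)
    (h3 : 3 ≤ P.card) (f : Finset V) (hf : f ∈ E) (hfP : f ⊆ P) :
    ∃ H ⊆ E, f ∉ H ∧ Tight P H := by
  classical
  -- a maximal sparse subset of the other edges inside `P`
  set E' := E.filter (fun e => e ⊆ P ∧ e ≠ f) with hE'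
  have hne : (E'.powerset.filter (fun H => Sparse P H)).Nonempty := by
    refine ⟨∅, ?_⟩
    simp only [mem_filter, empty_mem_powerset, true_and]
    refine ⟨by simp, by simp, fun X _ hX2 => ?_⟩
    unfold val; rw [sum_empty]; omega
  obtain ⟨H, hH, hmax⟩ := exists_max_image _ (fun H => H.card) hne
  simp only [mem_filter, mem_powerset] at hH hmax
  obtain ⟨hHE', hHs⟩ := hH
  have hH2 : ∀ e ∈ H, e.card = 2 := fun e he => hE e (mem_filter.mp (hHE' he)).1
  have hvalP : val H P = (H.card : ℤ) := by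
    rw [val_bars hH2]
    congr 2
    apply filter_true_of_mem
    intro e he
    exact (mem_filter.mp (hHE' he)).2.1
  refine ⟨H, fun e he => (mem_filter.mp (hHE' he)).1, fun hc => (mem_filter.mp (hHE' hc)).2.2 rfl,
    hHs, subset_refl _, by omega, ?_⟩
  rw [hvalP]
  by_contra hcon
  have hcardlt : (H.card : ℤ) + 1 ≤ 2 * (P.card : ℤ) - 3 := by
    have := hHs.sp P (subset_refl _) (by omega)
    rw [hvalP] at this
    omega
  -- maximal tight sets
  set T := P.powerset.filter (fun X => TSet P H X ∧ ∀ Y, TSet P H Y → X ⊆ Y → X = Y) with hT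
  have memT : ∀ X, X ∈ T ↔ TSet P H X ∧ ∀ Y, TSet P H Y → X ⊆ Y → X = Y := by
    intro X
    rw [hT, mem_filter, mem_powerset]
    exact ⟨fun h' => h'.2, fun h' => ⟨h'.1.1, h'⟩⟩
  have hup : ∀ X, TSet P H X → ∃ Y ∈ T, X ⊆ Y := by
    intro X hX
    have hne' : (P.powerset.filter (fun Y => TSet P H Y ∧ X ⊆ Y)).Nonempty :=
      ⟨X, by simp [mem_filter, hX.1, hX]⟩
    obtain ⟨Y, hY, hYmax⟩ := exists_max_image _ (fun Y => Y.card) hne'
    simp only [mem_filter, mem_powerset] at hY hYmax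
    refine ⟨Y, (memT Y).mpr ⟨hY.2.1, fun Z hZ hYZ => ?_⟩, hY.2.2⟩
    exact eq_of_subset_of_card_le hYZ (hYmax Z ⟨hZ.1, hZ, hY.2.2.trans hYZ⟩)
  have hdisj : ∀ X ∈ T, ∀ Y ∈ T, X ≠ Y → (X ∩ Y).card ≤ 1 := by
    intro X hX Y hY hne
    by_contra hc
    have hU := tset_union hHs ((memT X).mp hX).1 ((memT Y).mp hY).1 (by omega)
    apply hne
    rw [((memT X).mp hX).2 _ hU subset_union_left]
    exact (((memT Y).mp hY).2 _ hU subset_union_right).symm
  have hsumT : ∑ X ∈ T, (2 * (X.card : ℤ) - 3) ≤ H.card := by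
    have e1 : ∑ X ∈ T, (2 * (X.card : ℤ) - 3) =
        ∑ X ∈ T, ((H.filter (fun e => e ⊆ X)).card : ℤ) := by
      refine sum_congr rfl fun X hX => ?_
      rw [← ((memT X).mp hX).1.2.2, val_bars hH2]
    rw [e1, ← Nat.cast_sum, ← card_biUnion]
    · exact_mod_cast card_le_card (biUnion_subset.mpr fun X _ => filter_subset _ _)
    · intro X hX Y hY hne
      rw [Function.onFun, disjoint_left]
      intro e he he'
      rw [mem_filter] at he he'
      have h1 := hdisj X hX Y hY hne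
      have h2 := card_le_card (subset_inter he.2 he'.2)
      have h3 := hH2 e he.1
      omega
  have hcovT : ∀ e ∈ E', ∃ X ∈ T, e ⊆ X := by
    intro e he
    by_cases heH : e ∈ H
    · exact hup e (piece_tset hHs heH)
    · obtain ⟨a, b, hab, rfl⟩ := card_eq_two.mp (hE e (mem_filter.mp he).1)
      have heP := (mem_filter.mp he).2.1
      have hnadd : ¬ Addable P H a b := by
        intro hadd
        have h1 := hmax (insert {a, b} H) ⟨insert_subset he hHE', hadd.sparse hHs⟩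
        rw [card_insert_of_notMem heH] at h1
        omega
      have : ∃ X, TSet P H X ∧ a ∈ X ∧ b ∈ X := by
        by_contra hno
        exact hnadd ⟨heP (by simp), heP (by simp), hab, fun X hX h1 h2 => hno ⟨X, hX, h1, h2⟩⟩
      obtain ⟨X, hX, ha, hb⟩ := this
      obtain ⟨Y, hY, hXY⟩ := hup X hX
      refine ⟨Y, hY, ?_⟩
      intro d hd
      simp only [mem_insert, mem_singleton] at hd
      rcases hd with rfl | rfl
      · exact hXY ha
      · exact hXY hb
  -- the new cover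
  set F' := (F.erase P ∪ T) ∪ {f} with hF'
  have hcov : IsCover E F' := by
    constructor
    · intro Q hQ
      rw [hF', mem_union, mem_union, mem_singleton] at hQ
      rcases hQ with (hQ | hQ) | hQ
      · exact h.cov.1 Q (mem_of_mem_erase hQ)
      · exact ((memT Q).mp hQ).1.2.1
      · rw [hQ, hE f hf]
    · intro e he
      obtain ⟨Q, hQ, heQ⟩ := h.cov.2 e he
      by_cases hQP : Q = P
      · by_cases hef : e = f
        · exact ⟨f, by rw [hF']; simp, by rw [hef]⟩
        · obtain ⟨X, hX, heX⟩ := hcovT e (mem_filter.mpr ⟨he, hQP ▸ heQ, hef⟩)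
          exact ⟨X, by rw [hF']; exact mem_union_left _ (mem_union_right _ hX), heX⟩
      · exact ⟨Q, by
          rw [hF']; exact mem_union_left _ (mem_union_left _ (mem_erase.mpr ⟨hQP, hQ⟩)), heQ⟩
  have hnn : ∀ Q : Finset V, 2 ≤ Q.card → (0 : ℤ) ≤ 2 * (Q.card : ℤ) - 3 := fun Q hQ => by omega
  have hle : ∀ g : Finset V → ℤ, (∀ Q, 2 ≤ Q.card → 0 ≤ g Q) →
      ∑ Q ∈ F', g Q ≤ (∑ Q ∈ F, g Q - g P) + ∑ Q ∈ T, g Q + g f := by
    intro g hg
    have hun : ∀ A B : Finset (Finset V), (∀ Q ∈ A, 2 ≤ Q.card) → (∀ Q ∈ B, 2 ≤ Q.card) →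
        ∑ Q ∈ A ∪ B, g Q ≤ ∑ Q ∈ A, g Q + ∑ Q ∈ B, g Q := by
      intro A B hA hB
      have h1 := sum_union_inter (s₁ := A) (s₂ := B) (f := g)
      have h2 : 0 ≤ ∑ Q ∈ A ∩ B, g Q := sum_nonneg fun Q hQ => hg Q (hA Q (mem_inter.mp hQ).1)
      linarith
    have hA : ∀ Q ∈ F.erase P, 2 ≤ Q.card := fun Q hQ => h.cov.1 Q (mem_of_mem_erase hQ)
    have hB : ∀ Q ∈ T, 2 ≤ Q.card := fun Q hQ => ((memT Q).mp hQ).1.2.1
    have h1 := hun (F.erase P ∪ T) {f} (fun Q hQ => by
      rcases mem_union.mp hQ with hQ | hQ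
      · exact hA Q hQ
      · exact hB Q hQ) (fun Q hQ => by rw [mem_singleton.mp hQ, hE f hf])
    have h2 := hun (F.erase P) T hA hB
    have h4 := add_sum_erase F g hP
    rw [sum_singleton] at h1
    rw [hF']
    linarith
  have hc1 := hle (fun Q => 2 * (Q.card : ℤ) - 3) (fun Q hQ => hnn Q hQ)
  have hc2 := hle (fun Q => (2 * (Q.card : ℤ) - 3) ^ 2) (fun Q _ => sq_nonneg _)
  have hf2 : (f.card : ℤ) = 2 := by exact_mod_cast hE f hf
  simp only [hf2] at hc1 hc2
  have hopt := h.le F' hcov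
  have e1 : cost F' = cost F := by
    unfold cost at *
    linarith
  have hopt2 := h.le2 F' hcov e1
  have h5 : ∑ X ∈ T, (2 * (X.card : ℤ) - 3) ^ 2 ≤ (∑ X ∈ T, (2 * (X.card : ℤ) - 3)) ^ 2 :=
    sum_sq_le T _ fun Q hQ => hnn Q ((memT Q).mp hQ).1.2.1
  have h6 : 0 ≤ ∑ X ∈ T, (2 * (X.card : ℤ) - 3) :=
    sum_nonneg fun Q hQ => hnn Q ((memT Q).mp hQ).1.2.1
  unfold cost2 at hopt2
  have h7 : (3 : ℤ) ≤ P.card := by exact_mod_cast h3
  nlinarith

end Pool.Agent.helper13.GL
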