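import Mathlib
import Pool.Agent.helper13.GL.Cover

/-!
# Plane geometry for body-bar structures
-/

namespace Pool.Agent.helper13.GL

open Finset Complex
open scoped ComplexConjugate

/-- real inner product of two complex numbers -/
def ip (z w : ℂ) : ℝ := z.re * w.re + z.im * w.im

/-- cross product of two complex numbers -/
def cr (z w : ℂ) : ℝ := z.re * w.im - z.im * w.re

theorem ip_add_left (a b c : ℂ) : ip (a + b) c = ip a c + ip b c := by
  unfold ip; simp only [add_re, add_im]; ring
theorem ip_add_right (a b c : ℂ) : ip a (b + c) = ip a b + ip a c := by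
  unfold ip; simp only [add_re, add_im]; ring
theorem ip_sub_left (a b c : ℂ) : ip (a - b) c = ip a c - ip b c := by
  unfold ip; simp only [sub_re, sub_im]; ring
theorem ip_sub_right (a b c : ℂ) : ip a (b - c) = ip a b - ip a c := by
  unfold ip; simp only [sub_re, sub_im]; ring
theorem ip_smul_left (r : ℝ) (a b : ℂ) : ip (r * a) b = r * ip a b := by
  unfold ip; simp only [mul_re, mul_im, ofReal_re, ofReal_im]; ring
theorem ip_smul_right (r : ℝ) (a b : ℂ) : ip a (r * b) = r * ip a b := by
  unfold ip; simp only [mul_re, mul_im, ofReal_re, ofReal_im]; ring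
theorem ip_comm (a b : ℂ) : ip a b = ip b a := by unfold ip; ring
theorem ip_zero_left (a : ℂ) : ip 0 a = 0 := by unfold ip; simp
theorem ip_zero_right (a : ℂ) : ip a 0 = 0 := by unfold ip; simp
theorem ip_neg_neg (a b : ℂ) : ip (-a) (-b) = ip a b := by
  unfold ip; simp only [neg_re, neg_im]; ring
theorem ip_rot (a : ℂ) (r : ℝ) : ip a (r * I * a) = 0 := by
  unfold ip
  simp only [mul_re, mul_im, ofReal_re, ofReal_im, I_re, I_im]; ring

theorem ip_self_eq_zero {a : ℂ} : ip a a = 0 ↔ a = 0 := by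
  unfold ip
  constructor
  · intro h
    apply Complex.ext
    · simp only [zero_re]; nlinarith [mul_self_nonneg a.re, mul_self_nonneg a.im]
    · simp only [zero_im]; nlinarith [mul_self_nonneg a.re, mul_self_nonneg a.im]
  · rintro rfl; simp

theorem ip_self_nonneg (a : ℂ) : 0 ≤ ip a a := by
  unfold ip; nlinarith [mul_self_nonneg a.re, mul_self_nonneg a.im]

theorem norm_eq_iff (a b : ℂ) : ‖a‖ = ‖b‖ ↔ ip a a = ip b b := by
  have h1 : ‖a‖ ^ 2 = ip a a := by rw [← Complex.normSq_eq_norm_sq, Complex.normSq_apply]; rfl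
  have h2 : ‖b‖ ^ 2 = ip b b := by rw [← Complex.normSq_eq_norm_sq, Complex.normSq_apply]; rfl
  rw [← h1, ← h2]
  constructor
  · intro h; rw [h]
  · intro h
    exact (sq_eq_sq₀ (norm_nonneg _) (norm_nonneg _)).mp h

theorem dist_eq_iff (a b c d : ℂ) : dist a b = dist c d ↔ ip (a - b) (a - b) = ip (c - d) (c - d) := by
  rw [Complex.dist_eq, Complex.dist_eq, norm_eq_iff]

/-- two independent constraints determine a vector -/
theorem eq_zero_of_ip {u v y : ℂ} (h : cr u v ≠ 0) (h1 : ip u y = 0) (h2 : ip v y = 0) : y = 0 := by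
  unfold cr at h
  unfold ip at h1 h2
  apply Complex.ext
  · have : (u.re * v.im - u.im * v.re) * y.re = 0 := by
      linear_combination v.im * h1 - u.im * h2
    simpa using (mul_eq_zero.mp this).resolve_left h
  · have : (u.re * v.im - u.im * v.re) * y.im = 0 := by
      linear_combination u.re * h2 - v.re * h1
    simpa using (mul_eq_zero.mp this).resolve_left h

/-- isometries of the plane -/
def IsoMap (T : ℂ → ℂ) : Prop :=
  ∃ α β : ℂ, ip α α = 1 ∧ ((∀ z, T z = α * z + β) ∨ (∀ z, T z = α * conj z + β))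

theorem ip_mul_self (a b : ℂ) : ip (a * b) (a * b) = ip a a * ip b b := by
  unfold ip; simp only [mul_re, mul_im]; ring

theorem ip_conj_self (a : ℂ) : ip (conj a) (conj a) = ip a a := by
  unfold ip; simp only [conj_re, conj_im]; ring

theorem IsoMap.isom {T : ℂ → ℂ} (h : IsoMap T) (z z' : ℂ) :
    ip (T z - T z') (T z - T z') = ip (z - z') (z - z') := by
  obtain ⟨α, β, hα, h | h⟩ := h
  · rw [h, h, show α * z + β - (α * z' + β) = α * (z - z') by ring, ip_mul_self, hα, one_mul]
  · rw [h, h, show α * conj z + β - (α * conj z' + β) = α * conj (z - z') by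
      rw [map_sub]; ring, ip_mul_self, hα, one_mul, ip_conj_self]

theorem IsoMap.dist {T : ℂ → ℂ} (h : IsoMap T) (z z' : ℂ) : dist (T z) (T z') = dist z z' := by
  rw [dist_eq_iff]; exact h.isom z z'

theorem mul_conj_of_ip {α : ℂ} (h : ip α α = 1) : conj α * α = 1 := by
  unfold ip at h
  apply Complex.ext
  · simp only [mul_re, conj_re, conj_im, one_re]; linarith
  · simp only [mul_im, conj_re, conj_im, one_im]; ring

theorem IsoMap.inv {T : ℂ → ℂ} (h : IsoMap T) :
    ∃ T', IsoMap T' ∧ (∀ z, T' (T z) = z) ∧ ∀ z, T (T' z) = z := by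
  obtain ⟨α, β, hα, h | h⟩ := h
  · have h1 := mul_conj_of_ip hα
    refine ⟨fun z => conj α * z + (-(conj α) * β), ⟨conj α, -(conj α) * β, ?_, Or.inl fun z => rfl⟩,
      fun z => ?_, fun z => ?_⟩
    · rw [ip_conj_self, hα]
    · simp only [h]; linear_combination z * h1
    · simp only [h]; linear_combination (z - β) * h1
  · have h1 := mul_conj_of_ip hα
    refine ⟨fun z => α * conj z + (-α * conj β), ⟨α, -α * conj β, hα, Or.inr fun z => rfl⟩,
      fun z => ?_, fun z => ?_⟩
    · simp only [h, map_add, map_mul, conj_conj]; linear_combination z * h1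
    · simp only [h, map_add, map_mul, conj_conj, map_neg]; linear_combination (z - β) * h1

/-- an isometry moving `A, B` to `A', B'`, in coordinates relative to the two points -/
theorem exists_iso {A B A' B' : ℂ} (hAB : A ≠ B) (h : ip (A - B) (A - B) = ip (A' - B') (A' - B')) :
    (∃ T, IsoMap T ∧ ∀ z, T (A + (B - A) * z) = A' + (B' - A') * z) ∧
    (∃ T, IsoMap T ∧ ∀ z, T (A + (B - A) * z) = A' + (B' - A') * conj z) := by
  have hBA : B - A ≠ 0 := sub_ne_zero.mpr hAB.symm
  have h1 : ip (B' - A') (B' - A') = ip (B - A) (B - A) := by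
    rw [← ip_neg_neg, neg_sub, ← ip_neg_neg (B - A), neg_sub]; exact h.symm
  constructor
  · set α := (B' - A') / (B - A) with hα
    have h2 : α * (B - A) = B' - A' := by rw [hα]; field_simp
    have h3 : ip α α = 1 := by
      have h4 := ip_mul_self α (B - A)
      rw [h2, h1] at h4
      have h5 : ip (B - A) (B - A) ≠ 0 := fun hc => hBA (ip_self_eq_zero.mp hc)
      have h6 : (ip α α - 1) * ip (B - A) (B - A) = 0 := by linarith
      have := (mul_eq_zero.mp h6).resolve_right h5
      linarith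
    refine ⟨fun z => α * z + (A' - α * A), ⟨α, _, h3, Or.inl fun z => rfl⟩, fun z => ?_⟩
    simp only
    linear_combination z * h2
  · have hcBA : conj (B - A) ≠ 0 := by
      intro hc; apply hBA; rw [← conj_conj (B - A), hc, map_zero]
    set α := (B' - A') / conj (B - A) with hα
    have h2 : α * conj (B - A) = B' - A' := by rw [hα]; field_simp
    have h3 : ip α α = 1 := by
      have h4 := ip_mul_self α (conj (B - A))
      rw [h2, h1, ip_conj_self] at h4
      have h5 : ip (B - A) (B - A) ≠ 0 := fun hc => hBA (ip_self_eq_zero.mp hc)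
      have h6 : (ip α α - 1) * ip (B - A) (B - A) = 0 := by linarith
      have := (mul_eq_zero.mp h6).resolve_right h5
      linarith
    refine ⟨fun z => α * conj z + (A' - α * conj A), ⟨α, _, h3, Or.inr fun z => rfl⟩, fun z => ?_⟩
    simp only [map_add, map_mul]
    linear_combination conj z * h2

/-- every point is determined by its relative coordinate -/
theorem exists_coord {A B : ℂ} (hAB : A ≠ B) (z : ℂ) : ∃ c, z = A + (B - A) * c := by
  have hBA : B - A ≠ 0 := sub_ne_zero.mpr hAB.symm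
  exact ⟨(z - A) / (B - A), by field_simp; ring⟩

theorem ip_coord (A B c d : ℂ) :
    ip (A + (B - A) * c - (A + (B - A) * d)) (A + (B - A) * c - (A + (B - A) * d)) =
      ip (B - A) (B - A) * ip (c - d) (c - d) := by
  rw [← ip_mul_self]; congr 1 <;> ring

/-- points with the same distances to `0` and `1` are equal or conjugate -/
theorem eq_or_conj {c d : ℂ} (h0 : ip c c = ip d d) (h1 : ip (c - 1) (c - 1) = ip (d - 1) (d - 1)) :
    d = c ∨ d = conj c := by
  unfold ip at h0 h1
  simp only [sub_re, sub_im, one_re, one_im, sub_zero] at h1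
  have h2 : d.re = c.re := by nlinarith
  have h3 : (d.im - c.im) * (d.im + c.im) = 0 := by rw [h2] at h0; nlinarith
  rcases mul_eq_zero.mp h3 with h4 | h4
  · left; apply Complex.ext h2; linarith
  · right; apply Complex.ext
    · rw [conj_re]; exact h2
    · rw [conj_im]; linarith

/-- three points with the same mutual distances are congruent -/
theorem sss {A B C A' B' C' : ℂ} (hAB : A ≠ B)
    (h1 : ip (A - B) (A - B) = ip (A' - B') (A' - B'))
    (h2 : ip (C - A) (C - A) = ip (C' - A') (C' - A'))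
    (h3 : ip (C - B) (C - B) = ip (C' - B') (C' - B')) :
    ∃ T, IsoMap T ∧ T A = A' ∧ T B = B' ∧ T C = C' := by
  have hn : ip (B - A) (B - A) = ip (B' - A') (B' - A') := by
    rw [← ip_neg_neg, neg_sub, ← ip_neg_neg (B' - A'), neg_sub]; exact h1
  have h5 : ip (B - A) (B - A) ≠ 0 := fun hc => hAB.symm (sub_eq_zero.mp (ip_self_eq_zero.mp hc))
  have hAB' : A' ≠ B' := by
    rintro rfl
    rw [sub_self, ip_zero_left] at hn
    exact h5 hn
  obtain ⟨c, rfl⟩ := exists_coord hAB C
  obtain ⟨c', rfl⟩ := exists_coord hAB' C'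
  have e1 := ip_coord A B c 0
  have e2 := ip_coord A' B' c' 0
  have e3 := ip_coord A B c 1
  have e4 := ip_coord A' B' c' 1
  have e5 : A + (B - A) * 1 = B := by ring
  have e6 : A' + (B' - A') * 1 = B' := by ring
  rw [mul_zero, add_zero, sub_zero] at e1 e2
  rw [e5] at e3
  rw [e6] at e4
  rw [e1, e2, ← hn] at h2
  rw [e3, e4, ← hn] at h3
  obtain ⟨⟨T, hT, hT'⟩, ⟨U, hU, hU'⟩⟩ := exists_iso hAB h1
  rcases eq_or_conj (mul_left_cancel₀ h5 h2) (mul_left_cancel₀ h5 h3) with rfl | rfl
  · refine ⟨T, hT, ?_, ?_, hT' _⟩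
    · have := hT' 0; simpa using this
    · have := hT' 1; simpa using this
  · refine ⟨U, hU, ?_, ?_, hU' _⟩
    · have := hU' 0; simpa using this
    · have := hU' 1; simpa using this

theorem two_points {A B A' B' : ℂ} (h1 : ip (A - B) (A - B) = ip (A' - B') (A' - B')) :
    ∃ T, IsoMap T ∧ T A = A' ∧ T B = B' := by
  by_cases hAB : A = B
  · subst hAB
    rw [sub_self, ip_zero_left] at h1
    have h2 : A' = B' := sub_eq_zero.mp (ip_self_eq_zero.mp h1.symm)
    subst h2
    refine ⟨fun z => 1 * z + (A' - A), ⟨1, _, by simp [ip], Or.inl fun z => rfl⟩, by ring, by ring⟩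
  · obtain ⟨⟨T, hT, hT'⟩, _⟩ := exists_iso hAB h1
    refine ⟨T, hT, ?_, ?_⟩
    · have := hT' 0; simpa using this
    · have := hT' 1; simpa using this

variable {V : Type*} [DecidableEq V]

/-- infinitesimal motions of a body-bar structure -/
def Mot (F : Finset (Finset V)) (p v : V → ℂ) : Prop :=
  ∀ P ∈ F, ∀ a ∈ P, ∀ b ∈ P, ip (p a - p b) (v a - v b) = 0

/-- infinitesimal rigidity -/
def Rig (S : Finset V) (F : Finset (Finset V)) (p : V → ℂ) : Prop :=
  ∀ v, Mot F p v → ∃ (t : ℂ) (ω : ℝ), ∀ a ∈ S, v a = t + ω * I * p a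

/-- two placements with congruent pieces -/
def Cong (F : Finset (Finset V)) (p q : V → ℂ) : Prop :=
  ∀ P ∈ F, ∃ T, IsoMap T ∧ ∀ a ∈ P, T (p a) = q a

/-- no piece is collapsed to a point -/
def NC (F : Finset (Finset V)) (p : V → ℂ) : Prop := ∀ P ∈ F, ∃ a ∈ P, ∃ b ∈ P, p a ≠ p b

/-- injective and no three points on a line -/
def Good (p : V → ℂ) : Prop :=
  (∀ a b, a ≠ b → p a ≠ p b) ∧
    ∀ a b c, a ≠ b → a ≠ c → b ≠ c → cr (p b - p a) (p c - p a) ≠ 0

omit [DecidableEq V] in
theorem Cong.refl (F : Finset (Finset V)) (p : V → ℂ) : Cong F p p := fun P _ =>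
  ⟨fun z => 1 * z + 0, ⟨1, 0, by simp [ip], Or.inl fun z => rfl⟩, fun a _ => by ring⟩

omit [DecidableEq V] in
theorem Cong.symm {F : Finset (Finset V)} {p q : V → ℂ} (h : Cong F p q) : Cong F q p := by
  intro P hP
  obtain ⟨T, hT, h1⟩ := h P hP
  obtain ⟨T', hT', h2, _⟩ := hT.inv
  exact ⟨T', hT', fun a ha => by rw [← h1 a ha, h2]⟩

omit [DecidableEq V] in
theorem Cong.mono {F F' : Finset (Finset V)} {p q : V → ℂ} (h : Cong F p q) (hF : F' ⊆ F) :
    Cong F' p q := fun P hP => h P (hF hP)

omit [DecidableEq V] in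
theorem Cong.ip_eq {F : Finset (Finset V)} {p q : V → ℂ} (h : Cong F p q) {P : Finset V}
    (hP : P ∈ F) {a b : V} (ha : a ∈ P) (hb : b ∈ P) :
    ip (p a - p b) (p a - p b) = ip (q a - q b) (q a - q b) := by
  obtain ⟨T, hT, h1⟩ := h P hP
  rw [← h1 a ha, ← h1 b hb, hT.isom]

omit [DecidableEq V] in
theorem Cong.dist_eq {F : Finset (Finset V)} {p q : V → ℂ} (h : Cong F p q) {P : Finset V}
    (hP : P ∈ F) {a b : V} (ha : a ∈ P) (hb : b ∈ P) :
    dist (p a) (p b) = dist (q a) (q b) := (dist_eq_iff _ _ _ _).mpr (h.ip_eq hP ha hb)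

omit [DecidableEq V] in
theorem NC.of_good {F : Finset (Finset V)} {p : V → ℂ} (h : Good p) (hF : ∀ P ∈ F, 2 ≤ P.card) :
    NC F p := by
  intro P hP
  obtain ⟨a, ha, b, hb, hab⟩ := one_lt_card.mp (by have := hF P hP; omega : 1 < P.card)
  exact ⟨a, ha, b, hb, h.1 a b hab⟩

omit [DecidableEq V] in
/-- subtracting a trivial motion -/
theorem Mot.sub_triv {F : Finset (Finset V)} {p v : V → ℂ} (h : Mot F p v) (t : ℂ) (ω : ℝ) :
    Mot F p (fun a => v a - (t + ω * I * p a)) := by
  intro P hP a ha b hb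
  have h1 := h P hP a ha b hb
  have e : v a - (t + ω * I * p a) - (v b - (t + ω * I * p b)) =
      (v a - v b) - ω * I * (p a - p b) := by ring
  rw [e, ip_sub_right, h1, ip_rot, sub_zero]

omit [DecidableEq V] in
theorem Mot.lin {F : Finset (Finset V)} {p v v' : V → ℂ} (h : Mot F p v) (h' : Mot F p v')
    (r : ℝ) : Mot F p (fun a => v a - r * v' a) := by
  intro P hP a ha b hb
  have e : v a - r * v' a - (v b - r * v' b) = (v a - v b) - r * (v' a - v' b) := by ring
  rw [e, ip_sub_right, ip_smul_right, h P hP a ha b hb, h' P hP a ha b hb]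
  ring

/-- normalisation at two points -/
theorem exists_norm {A B : ℂ} (hAB : A ≠ B) (v w : ℂ) :
    ∃ (t : ℂ) (ω κ : ℝ), v = t + ω * I * A ∧ w = t + ω * I * B + κ * (B - A) := by
  have hBA : B - A ≠ 0 := sub_ne_zero.mpr hAB.symm
  set c := (w - v) / (B - A) with hc
  have h1 : c * (B - A) = w - v := by rw [hc]; field_simp
  have h2 : c = c.re + c.im * I := (re_add_im c).symm
  refine ⟨v - c.im * I * A, c.im, c.re, by ring, ?_⟩
  rw [h2] at h1
  linear_combination -h1

theorem norm_kappa {A B v w t : ℂ} {ω κ : ℝ} (hv : v = t + ω * I * A)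
    (hw : w = t + ω * I * B + κ * (B - A)) : ip (A - B) (v - w) = κ * ip (A - B) (A - B) := by
  have e : v - w = ω * I * (A - B) + κ * (A - B) := by rw [hv, hw]; ring
  rw [e, ip_add_right, ip_rot, ip_smul_right, zero_add]

/-- a trivial motion vanishing at two points is zero -/
theorem triv_zero {A B t : ℂ} {ω : ℝ} (hAB : A ≠ B) (hA : t + ω * I * A = 0)
    (hB : t + ω * I * B = 0) (z : ℂ) : t + ω * I * z = 0 := by
  have h1 : (ω : ℂ) * I * (A - B) = 0 := by linear_combination hA - hB
  have h2 : (ω : ℂ) * I = 0 := (mul_eq_zero.mp h1).resolve_right (sub_ne_zero.mpr hAB)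
  have h3 : t = 0 := by rw [h2] at hA; simpa using hA
  rw [h2, h3]; simp

/-- a motion which preserves the distance `ab` is trivial at `a,b` -/
theorem exists_triv {A B v w : ℂ} (hAB : A ≠ B) (h : ip (A - B) (v - w) = 0) :
    ∃ (t : ℂ) (ω : ℝ), v - (t + ω * I * A) = 0 ∧ w - (t + ω * I * B) = 0 := by
  obtain ⟨t, ω, κ, h1, h2⟩ := exists_norm hAB v w
  have h3 := norm_kappa h1 h2
  rw [h] at h3
  have h4 : ip (A - B) (A - B) ≠ 0 := fun hc => hAB (sub_eq_zero.mp (ip_self_eq_zero.mp hc))
  have h5 : κ = 0 := (mul_eq_zero.mp h3.symm).resolve_right h4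
  refine ⟨t, ω, by rw [h1]; ring, ?_⟩
  rw [h2, h5]; push_cast; ring

end Pool.Agent.helper13.GL
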