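import Mathlib
import Pool.Agent.helper13.GL.Geom

/-!
# Extension of placements by one vertex
-/

namespace Pool.Agent.helper13.GL

open Finset Complex
open scoped ComplexConjugate

variable {V : Type*} [DecidableEq V] {S : Finset V} {F : Finset (Finset V)}

theorem mem_res_of (h : Sparse S F) {z : V} {Q : Finset V} (hQ : Q ∈ F) (hz : z ∉ Q) :
    Q ∈ res F (S.erase z) := by
  rw [mem_res]
  refine ⟨h.two Q hQ, Q, hQ, inter_eq_left.mpr ?_⟩
  intro a ha
  exact mem_erase.mpr ⟨fun e => hz (e ▸ ha), h.sub Q hQ ha⟩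

theorem upd_ne {p : V → ℂ} {z a : V} {Z : ℂ} (h : a ≠ z) : Function.update p z Z a = p a :=
  Function.update_of_ne h _ _

theorem upd_eq {p : V → ℂ} {z : V} {Z : ℂ} : Function.update p z Z z = Z :=
  Function.update_self _ _ _

theorem mot_res {p v : V → ℂ} {z : V} {Z : ℂ} (h : Mot F (Function.update p z Z) v) :
    Mot (res F (S.erase z)) p v := by
  intro P hP a ha b hb
  obtain ⟨_, Q, hQ, rfl⟩ := mem_res.mp hP
  obtain ⟨ha1, ha2⟩ := mem_inter.mp ha
  obtain ⟨hb1, hb2⟩ := mem_inter.mp hb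
  have := h Q hQ a ha1 b hb1
  rwa [upd_ne (mem_erase.mp ha2).1, upd_ne (mem_erase.mp hb2).1] at this

theorem cong_ext (h : Sparse S F) {p q : V → ℂ} {z : V} {Z Z' : ℂ}
    (hc : Cong (res F (S.erase z)) p q)
    (hz : ∀ Q ∈ F, z ∈ Q → ∃ T, IsoMap T ∧ T Z = Z' ∧ ∀ a ∈ Q, a ≠ z → T (p a) = q a) :
    Cong F (Function.update p z Z) (Function.update q z Z') := by
  intro Q hQ
  by_cases hzQ : z ∈ Q
  · obtain ⟨T, hT, h1, h2⟩ := hz Q hQ hzQ
    refine ⟨T, hT, fun a ha => ?_⟩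
    by_cases haz : a = z
    · subst haz; rw [upd_eq, upd_eq]; exact h1
    · rw [upd_ne haz, upd_ne haz]; exact h2 a ha haz
  · obtain ⟨T, hT, h1⟩ := hc Q (mem_res_of h hQ hzQ)
    refine ⟨T, hT, fun a ha => ?_⟩
    have haz : a ≠ z := fun e => hzQ (e ▸ ha)
    rw [upd_ne haz, upd_ne haz]; exact h1 a ha

theorem rig_ext {p : V → ℂ} {z : V} {Z : ℂ}
    (h : ∀ v, Mot F (Function.update p z Z) v → ∃ (t : ℂ) (ω : ℝ),
      (∀ a ∈ S.erase z, v a - (t + ω * I * p a) = 0) ∧ v z - (t + ω * I * Z) = 0) :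
    Rig S F (Function.update p z Z) := by
  intro v hv
  obtain ⟨t, ω, h1, h2⟩ := h v hv
  refine ⟨t, ω, fun a ha => ?_⟩
  by_cases haz : a = z
  · subst haz; rw [upd_eq]; exact sub_eq_zero.mp h2
  · rw [upd_ne haz]; exact sub_eq_zero.mp (h1 a (mem_erase.mpr ⟨haz, ha⟩))

theorem nc_ext (h : Sparse S F) {p : V → ℂ} {z : V} {Z : ℂ} (hn : NC (res F (S.erase z)) p)
    (hz : ∀ Q ∈ F, z ∈ Q → ∃ a ∈ Q, a ≠ z ∧ p a ≠ Z) : NC F (Function.update p z Z) := by
  intro Q hQ
  by_cases hzQ : z ∈ Q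
  · obtain ⟨a, ha, haz, h1⟩ := hz Q hQ hzQ
    refine ⟨a, ha, z, hzQ, ?_⟩
    rw [upd_ne haz, upd_eq]; exact h1
  · obtain ⟨a, ha, b, hb, h1⟩ := hn Q (mem_res_of h hQ hzQ)
    refine ⟨a, ha, b, hb, ?_⟩
    have haz : a ≠ z := fun e => hzQ (e ▸ ha)
    have hbz : b ≠ z := fun e => hzQ (e ▸ hb)
    rw [upd_ne haz, upd_ne hbz]; exact h1

theorem mot_insert {F0 : Finset (Finset V)} {p v : V → ℂ} (h : Mot F0 p v) {a b : V}
    (hab : ip (p a - p b) (v a - v b) = 0) : Mot (insert {a, b} F0) p v := by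
  intro P hP c hc d hd
  rcases mem_insert.mp hP with rfl | hP
  · simp only [mem_insert, mem_singleton] at hc hd
    have h2 : ip (p b - p a) (v b - v a) = 0 := by
      rw [← neg_sub (p a), ← neg_sub (v a), ip_neg_neg]; exact hab
    rcases hc with rfl | rfl <;> rcases hd with rfl | rfl
    · rw [sub_self, ip_zero_left]
    · exact hab
    · exact h2
    · rw [sub_self, ip_zero_left]
  · exact h P hP c hc d hd

/-- one degree of freedom, first form -/
theorem dofB {F0 : Finset (Finset V)} {p : V → ℂ} {a b c : V} (ha : a ∈ S) (hb : b ∈ S)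
    (hc : c ∈ S) (hr : Rig S (insert {b, c} F0) p) (hab : p a ≠ p b) (hbc : p b ≠ p c) :
    ∃ ν : ℂ, ip (p b - p c) ν ≠ 0 ∧ ∀ v, Mot F0 p v → v a = 0 → v b = 0 →
      ∃ l : ℝ, v c = l * ν ∧ (l = 0 → ∀ d ∈ S, v d = 0) := by
  have key : ∀ v, Mot F0 p v → v a = 0 → v b = 0 → ip (p b - p c) (v c) = 0 →
      ∀ d ∈ S, v d = 0 := by
    intro v hv hva hvb hvc d hd
    obtain ⟨t, ω, h1⟩ := hr v (mot_insert hv (by
      rw [hvb, zero_sub]
      have : ip (p b - p c) (-v c) = - ip (p b - p c) (v c) := by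
        unfold ip; simp only [neg_re, neg_im]; ring
      rw [this, hvc, neg_zero]))
    rw [h1 d hd]
    exact triv_zero hab (by rw [← h1 a ha, hva]) (by rw [← h1 b hb, hvb]) _
  by_cases hex : ∃ v, Mot F0 p v ∧ v a = 0 ∧ v b = 0 ∧ ip (p b - p c) (v c) ≠ 0
  · obtain ⟨v0, hv0, h0a, h0b, h0c⟩ := hex
    refine ⟨v0 c, h0c, fun v hv hva hvb => ?_⟩
    set l := ip (p b - p c) (v c) / ip (p b - p c) (v0 c) with hl
    have h1 := key _ (hv.lin hv0 l) (by simp [hva, h0a]) (by simp [hvb, h0b]) (by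
      rw [ip_sub_right, ip_smul_right, hl]; field_simp; ring)
    refine ⟨l, ?_, fun h0 d hd => ?_⟩
    · exact sub_eq_zero.mp (h1 c hc)
    · have := h1 d hd
      rw [h0] at this; simpa using this
  · refine ⟨p b - p c, fun h0 => hbc (sub_eq_zero.mp (ip_self_eq_zero.mp h0)),
      fun v hv hva hvb => ⟨0, ?_, fun _ => ?_⟩⟩
    · have h2 := key v hv hva hvb (by
        by_contra hne; exact hex ⟨v, hv, hva, hvb, hne⟩)
      rw [h2 c hc]; simp
    · exact key v hv hva hvb (by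
        by_contra hne; exact hex ⟨v, hv, hva, hvb, hne⟩)

/-- one degree of freedom, second form -/
theorem dofC {F0 : Finset (Finset V)} {p : V → ℂ} {a b c : V} (ha : a ∈ S) (hb : b ∈ S)
    (hc : c ∈ S) (hr : Rig S (insert {a, b} F0) p) (hab : p a ≠ p b) :
    ∃ γ : ℂ, ∀ v, Mot F0 p v → v a = 0 → ∀ κ : ℝ, v b = κ * (p b - p a) →
      v c = κ * γ ∧ (κ = 0 → ∀ d ∈ S, v d = 0) := by
  have key : ∀ v, Mot F0 p v → v a = 0 → v b = 0 → ∀ d ∈ S, v d = 0 := by
    intro v hv hva hvb d hd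
    obtain ⟨t, ω, h1⟩ := hr v (mot_insert hv (by rw [hva, hvb, sub_self, ip_zero_right]))
    rw [h1 d hd]
    exact triv_zero hab (by rw [← h1 a ha, hva]) (by rw [← h1 b hb, hvb]) _
  by_cases hex : ∃ v, Mot F0 p v ∧ v a = 0 ∧ ∃ κ : ℝ, κ ≠ 0 ∧ v b = κ * (p b - p a)
  · obtain ⟨v0, hv0, h0a, κ0, hκ0, h0b⟩ := hex
    refine ⟨v0 c / κ0, fun v hv hva κ hvb => ?_⟩
    have hk : (κ0 : ℂ) ≠ 0 := by exact_mod_cast hκ0
    have h1 := key _ (hv.lin hv0 (κ / κ0)) (by simp [hva, h0a]) (by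
      rw [hvb, h0b]; push_cast; field_simp; ring)
    refine ⟨?_, fun h0 d hd => ?_⟩
    · have := sub_eq_zero.mp (h1 c hc)
      rw [this]; push_cast; field_simp
    · have := h1 d hd
      rw [h0] at this; simpa using this
  · refine ⟨0, fun v hv hva κ hvb => ?_⟩
    have hκ : κ = 0 := by
      by_contra hne; exact hex ⟨v, hv, hva, κ, hne, hvb⟩
    have h2 := key v hv hva (by rw [hvb, hκ]; simp)
    refine ⟨by rw [h2 c hc]; simp, fun _ => h2⟩

omit [DecidableEq V] in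
theorem rig_of {p : V → ℂ}
    (h : ∀ v, Mot F p v → ∃ (t : ℂ) (ω : ℝ), ∀ d ∈ S, v d - (t + ω * I * p d) = 0) :
    Rig S F p := by
  intro v hv
  obtain ⟨t, ω, h1⟩ := h v hv
  exact ⟨t, ω, fun a ha => sub_eq_zero.mp (h1 a ha)⟩

theorem mot_z {p v : V → ℂ} {z : V} {Z : ℂ} (hv : Mot F (Function.update p z Z) v)
    {Q : Finset V} (hQ : Q ∈ F) (hz : z ∈ Q) {a : V} (ha : a ∈ Q) (haz : a ≠ z) :
    ip (Z - p a) (v z - v a) = 0 := by
  have := hv Q hQ z hz a ha
  rwa [upd_eq, upd_ne haz] at this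

theorem vanish_z {p v : V → ℂ} {z : V} {Z : ℂ} (hv : Mot F (Function.update p z Z) v)
    {Q R : Finset V} (hQ : Q ∈ F) (hz : z ∈ Q) {a : V} (ha : a ∈ Q) (haz : a ≠ z)
    (hR : R ∈ F) (hz' : z ∈ R) {b : V} (hb : b ∈ R) (hbz : b ≠ z) (hva : v a = 0) (hvb : v b = 0)
    (hcr : cr (Z - p a) (Z - p b) ≠ 0) : v z = 0 := by
  have h1 := mot_z hv hQ hz ha haz
  have h2 := mot_z hv hR hz' hb hbz
  rw [hva, sub_zero] at h1
  rw [hvb, sub_zero] at h2
  exact eq_zero_of_ip hcr h1 h2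

theorem cr_mul (d x y : ℂ) : cr (d * x) (d * y) = ip d d * cr x y := by
  unfold cr ip; simp only [mul_re, mul_im]; ring

theorem ip_mul (d x y : ℂ) : ip (d * x) (d * y) = ip d d * ip x y := by
  unfold ip; simp only [mul_re, mul_im]; ring

theorem ip_pos {A B : ℂ} (h : A ≠ B) : 0 < ip (B - A) (B - A) :=
  lt_of_le_of_ne (ip_self_nonneg _) fun h0 => h (sub_eq_zero.mp (ip_self_eq_zero.mp h0.symm)).symm

/-- two points at the same distances from two given pairs -/
theorem apex {A B A' B' : ℂ} (h : A ≠ B) (h' : A' ≠ B') : ∃ Z Z' : ℂ,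
    ip (Z - A) (Z - A) = ip (Z' - A') (Z' - A') ∧ ip (Z - B) (Z - B) = ip (Z' - B') (Z' - B') ∧
    cr (Z - A) (Z - B) ≠ 0 := by
  have hn := ip_pos h
  have hn' := ip_pos h'
  set n := ip (B - A) (B - A) with hn0
  set n' := ip (B' - A') (B' - A') with hn0'
  set k := Real.sqrt (n' / n) with hk
  set k' := Real.sqrt (n / (4 * n') + 3 / 4) with hk'
  have hk2 : k * k = n' / n := Real.mul_self_sqrt (by positivity)
  have hk2' : k' * k' = n / (4 * n') + 3 / 4 := Real.mul_self_sqrt (by positivity)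
  have hkpos : 0 < k := Real.sqrt_pos.mpr (by positivity)
  refine ⟨A + (B - A) * (1 / 2 + k * I), A' + (B' - A') * (1 / 2 + k' * I), ?_, ?_, ?_⟩
  · rw [show A + (B - A) * (1 / 2 + k * I) - A = (B - A) * (1 / 2 + k * I) by ring,
      show A' + (B' - A') * (1 / 2 + k' * I) - A' = (B' - A') * (1 / 2 + k' * I) by ring,
      ip_mul_self, ip_mul_self, ← hn0, ← hn0']
    have e1 : ip (1 / 2 + k * I) (1 / 2 + k * I) = 1 / 4 + k * k := by
      unfold ip; simp; ring
    have e2 : ip (1 / 2 + k' * I) (1 / 2 + k' * I) = 1 / 4 + k' * k' := by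
      unfold ip; simp; ring
    rw [e1, e2, hk2, hk2']; field_simp; ring
  · rw [show A + (B - A) * (1 / 2 + k * I) - B = (B - A) * (-1 / 2 + k * I) by ring,
      show A' + (B' - A') * (1 / 2 + k' * I) - B' = (B' - A') * (-1 / 2 + k' * I) by ring,
      ip_mul_self, ip_mul_self, ← hn0, ← hn0']
    have e1 : ip (-1 / 2 + k * I) (-1 / 2 + k * I) = 1 / 4 + k * k := by
      unfold ip; simp; ring
    have e2 : ip (-1 / 2 + k' * I) (-1 / 2 + k' * I) = 1 / 4 + k' * k' := by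
      unfold ip; simp; ring
    rw [e1, e2, hk2, hk2']; field_simp; ring
  · rw [show A + (B - A) * (1 / 2 + k * I) - A = (B - A) * (1 / 2 + k * I) by ring,
      show A + (B - A) * (1 / 2 + k * I) - B = (B - A) * (-1 / 2 + k * I) by ring, cr_mul, ← hn0]
    have e1 : cr (1 / 2 + k * I) (-1 / 2 + k * I) = k := by
      unfold cr; simp; ring
    rw [e1]; positivity

theorem inter_erase {P : Finset V} {z : V} (hP : P ⊆ S) : P ∩ S.erase z = P.erase z := by
  ext a
  simp only [mem_inter, mem_erase]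
  constructor
  · rintro ⟨h1, h2, _⟩; exact ⟨h2, h1⟩
  · rintro ⟨h1, h2⟩; exact ⟨h2, h1, hP h2⟩

theorem erase_mem_res (h : Sparse S F) {z : V} {P : Finset V} (hP : P ∈ F) (h3 : 3 ≤ P.card) :
    P.erase z ∈ res F (S.erase z) := by
  rw [mem_res]
  refine ⟨?_, P, hP, inter_erase (h.sub P hP)⟩
  have := pred_card_le_card_erase (a := z) (s := P)
  omega

/-- extension when `z` loses two constraints -/
theorem ext_two (h : Sparse S F) {z : V} (hl : loss F z = 2) {p q : V → ℂ}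
    (hp : Good p) (hq : Good q) (hr : Rig (S.erase z) (res F (S.erase z)) p)
    (hc : Cong (res F (S.erase z)) p q) :
    ∃ Z Z', Cong F (Function.update p z Z) (Function.update q z Z') ∧
      Rig S F (Function.update p z Z) ∧ NC F (Function.update p z Z) := by
  have hnc : NC (res F (S.erase z)) p := NC.of_good hp fun P hP => (mem_res.mp hP).1
  rcases loss_two_cases h hl with ⟨P, hP, hzP, h3, hall⟩ | ⟨a, b, hab, haz, hbz, hA, hB, hall⟩
  · -- one body
    have hres := erase_mem_res (z := z) h hP h3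
    obtain ⟨a, ha, b, hb, hab⟩ := one_lt_card.mp
      (by have := (mem_res.mp hres).1; omega : 1 < (P.erase z).card)
    obtain ⟨haz, haP⟩ := mem_erase.mp ha
    obtain ⟨hbz, hbP⟩ := mem_erase.mp hb
    obtain ⟨T, hT, hT1⟩ := hc _ hres
    have hpab := hp.1 a b hab
    set Z := p a + (p b - p a) * I with hZ
    have hcr : cr (Z - p a) (Z - p b) ≠ 0 := by
      rw [show Z - p a = (p b - p a) * I by rw [hZ]; ring,
        show Z - p b = (p b - p a) * (I - 1) by rw [hZ]; ring, cr_mul]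
      have e : cr I (I - 1) = 1 := by unfold cr; simp
      rw [e, mul_one]
      exact (ip_pos hpab).ne'
    refine ⟨Z, T Z, cong_ext h hc fun Q hQ hzQ => ?_, rig_of fun v hv => ?_,
      nc_ext h hnc fun Q hQ hzQ => ?_⟩
    · rw [hall Q hQ hzQ]
      exact ⟨T, hT, rfl, fun d hd hdz => hT1 d (mem_erase.mpr ⟨hdz, hd⟩)⟩
    · obtain ⟨t, ω, h1⟩ := hr v (mot_res hv)
      refine ⟨t, ω, ?_⟩
      have hv' := hv.sub_triv t ω
      set v' := fun d => v d - (t + ω * I * Function.update p z Z d) with hv0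
      have h2 : ∀ d ∈ S.erase z, v' d = 0 := by
        intro d hd
        simp only [hv0]
        rw [upd_ne (mem_erase.mp hd).1, h1 d hd, sub_self]
      have hzv : v' z = 0 := vanish_z hv' hP hzP haP haz hP hzP hbP hbz
        (h2 a (mem_erase.mpr ⟨haz, h.sub P hP haP⟩)) (h2 b (mem_erase.mpr ⟨hbz, h.sub P hP hbP⟩))
        hcr
      intro d hd
      by_cases hdz : d = z
      · rw [hdz]; exact hzv
      · exact h2 d (mem_erase.mpr ⟨hdz, hd⟩)
    · rw [hall Q hQ hzQ]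
      refine ⟨a, haP, haz, fun e => hcr ?_⟩
      rw [← e, sub_self]; unfold cr; simp
  · -- two bars
    have haS : a ∈ S.erase z := mem_erase.mpr ⟨haz, h.sub _ hA (by simp)⟩
    have hbS : b ∈ S.erase z := mem_erase.mpr ⟨hbz, h.sub _ hB (by simp)⟩
    obtain ⟨Z, Z', e1, e2, hcr⟩ := apex (hp.1 a b hab) (hq.1 a b hab)
    refine ⟨Z, Z', cong_ext h hc fun Q hQ hzQ => ?_, rig_of fun v hv => ?_,
      nc_ext h hnc fun Q hQ hzQ => ?_⟩
    · rcases hall Q hQ hzQ with rfl | rfl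
      · obtain ⟨T, hT, h1, h2⟩ := two_points e1
        refine ⟨T, hT, h1, fun d hd hdz => ?_⟩
        simp only [mem_insert, mem_singleton] at hd
        rcases hd with rfl | rfl
        · exact absurd rfl hdz
        · exact h2
      · obtain ⟨T, hT, h1, h2⟩ := two_points e2
        refine ⟨T, hT, h1, fun d hd hdz => ?_⟩
        simp only [mem_insert, mem_singleton] at hd
        rcases hd with rfl | rfl
        · exact absurd rfl hdz
        · exact h2
    · obtain ⟨t, ω, h1⟩ := hr v (mot_res hv)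
      refine ⟨t, ω, ?_⟩
      have hv' := hv.sub_triv t ω
      set v' := fun d => v d - (t + ω * I * Function.update p z Z d) with hv0
      have h2 : ∀ d ∈ S.erase z, v' d = 0 := by
        intro d hd
        simp only [hv0]
        rw [upd_ne (mem_erase.mp hd).1, h1 d hd, sub_self]
      have hzv : v' z = 0 := vanish_z hv' hA (by simp) (by simp) haz hB (by simp) (by simp) hbz
        (h2 a haS) (h2 b hbS) hcr
      intro d hd
      by_cases hdz : d = z
      · rw [hdz]; exact hzv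
      · exact h2 d (mem_erase.mpr ⟨hdz, hd⟩)
    · rcases hall Q hQ hzQ with rfl | rfl
      · refine ⟨a, by simp, haz, fun e => hcr ?_⟩
        rw [← e, sub_self]; unfold cr; simp
      · refine ⟨b, by simp, hbz, fun e => hcr ?_⟩
        rw [← e, sub_self]; unfold cr; simp

end Pool.Agent.helper13.GL
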