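import Mathlib
import Pool.Agent.helper13.GL.Ext

/-!
# Extension of placements by one vertex with three constraints
-/

namespace Pool.Agent.helper13.GL

open Finset Complex
open scoped ComplexConjugate

variable {V : Type*} [DecidableEq V] {S : Finset V} {F : Finset (Finset V)}

theorem exists_tau {B C u ν : ℂ} (h : ip (B - C) ν ≠ 0) :
    ∃ τ : ℝ, τ ≠ 0 ∧ ip (B + τ * u - C) ν ≠ 0 := by
  by_contra hcon
  push Not at hcon
  have h1 := hcon 1 one_ne_zero
  have h2 := hcon 2 two_ne_zero
  have e : ∀ τ : ℝ, ip (B + τ * u - C) ν = ip (B - C) ν + τ * ip u ν := by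
    intro τ
    rw [show B + τ * u - C = (B - C) + τ * u by ring, ip_add_left, ip_smul_left]
  rw [e] at h1 h2
  apply h; linarith

theorem pair_mem_insert {F0 : Finset (Finset V)} {p q : V → ℂ} {a b : V}
    (h : Cong (insert {a, b} F0) p q) : ip (p a - p b) (p a - p b) = ip (q a - q b) (q a - q b) :=
  h.ip_eq (mem_insert_self _ _) (by simp) (by simp)

theorem cong_pair {p q : V → ℂ} {z c : V} {Z Z' : ℂ}
    (e : ip (Z - p c) (Z - p c) = ip (Z' - q c) (Z' - q c)) :
    ∃ T, IsoMap T ∧ T Z = Z' ∧ ∀ a ∈ ({z, c} : Finset V), a ≠ z → T (p a) = q a := by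
  obtain ⟨T, hT, h1, h2⟩ := two_points e
  refine ⟨T, hT, h1, fun d hd hdz => ?_⟩
  simp only [mem_insert, mem_singleton] at hd
  rcases hd with rfl | rfl
  · exact absurd rfl hdz
  · exact h2

/-- choice of the isometry of the body and of the direction in which `z` is placed -/
theorem choose_dir {P0 : Finset V} {p q : V → ℂ} (hp : Good p) {T : ℂ → ℂ} (hT : IsoMap T)
    (hT1 : ∀ a ∈ P0, T (p a) = q a) {b c : V} (hb : b ∈ P0) (h2 : 2 ≤ P0.card)
    (hbc : ip (p b - p c) (p b - p c) = ip (q b - q c) (q b - q c)) :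
    ∃ T1, IsoMap T1 ∧ (∀ d ∈ P0, T1 (p d) = q d) ∧ ∃ a ∈ P0, a ≠ b ∧ ∃ u C' : ℂ, T1 C' = q c ∧
      cr (p a - p b) u ≠ 0 ∧ ∀ τ : ℝ, ip (p b + τ * u - p c) (p b + τ * u - p c) =
        ip (p b + τ * u - C') (p b + τ * u - C') := by
  obtain ⟨a, ha, hab⟩ := exists_mem_ne (by omega : 1 < P0.card) b
  have hpab := hp.1 a b hab
  -- first case: an isometry which also moves `p c` to `q c`
  by_cases hex : ∃ T1, IsoMap T1 ∧ (∀ d ∈ P0, T1 (p d) = q d) ∧ T1 (p c) = q c
  · obtain ⟨T1, hT1', h3, h4⟩ := hex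
    refine ⟨T1, hT1', h3, a, ha, hab, (p a - p b) * I, p c, h4, ?_, fun τ => rfl⟩
    have e : cr (p a - p b) ((p a - p b) * I) = ip (p a - p b) (p a - p b) := by
      unfold cr ip; simp; ring
    rw [e]
    intro h0
    exact hpab (sub_eq_zero.mp (ip_self_eq_zero.mp h0))
  · obtain ⟨T', hT', hl, hr⟩ := hT.inv
    set C' := T' (q c) with hC'
    have hTC : T C' = q c := hr _
    have hne : C' - p c ≠ 0 := by
      intro h0
      exact hex ⟨T, hT, hT1, by rw [← sub_eq_zero.mp h0, hTC]⟩
    have hbis : ∀ d ∈ P0, ip (p d - C') (p d - C') = ip (q d - q c) (q d - q c) := by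
      intro d hd
      rw [← hT.isom, hT1 d hd, hTC]
    have hbis_b : ip (p b - p c) (p b - p c) = ip (p b - C') (p b - C') := by
      rw [hbis b hb, hbc]
    -- a point not on the bisector
    have hoff : ∃ a ∈ P0, a ≠ b ∧ ip (p a - p b) (C' - p c) ≠ 0 := by
      by_contra hno
      have hall : ∀ d ∈ P0, d ≠ b → ip (p d - p b) (C' - p c) = 0 := by
        intro d hd hdb
        by_contra h0; exact hno ⟨d, hd, hdb, h0⟩
      have ha0 := hall a ha hab
      by_cases h3 : ∃ a2 ∈ P0, a2 ≠ a ∧ a2 ≠ b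
      · obtain ⟨a2, ha2, h21, h22⟩ := h3
        have h4 := hall a2 ha2 h22
        have h5 := hp.2 b a a2 hab.symm h22.symm h21.symm
        exact hne (eq_zero_of_ip h5 ha0 h4)
      · apply hex
        have h6 : ip (p a - p c) (p a - p c) = ip (p a - C') (p a - C') := by
          have h7 := hbis_b
          unfold ip at ha0 h7 ⊢
          simp only [sub_re, sub_im] at ha0 h7 ⊢
          linarith
        obtain ⟨T1, hT1', e1, e2, e3⟩ := sss (A := p a) (B := p b) (C := p c) (A' := q a) (B' := q b)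
          (C' := q c) hpab (by rw [← hT1 a ha, ← hT1 b hb, hT.isom])
          (by rw [← ip_neg_neg, neg_sub, h6, hbis a ha, ← ip_neg_neg, neg_sub])
          (by rw [← ip_neg_neg, neg_sub, hbc, ← ip_neg_neg, neg_sub])
        refine ⟨T1, hT1', fun d hd => ?_, e3⟩
        by_cases hda : d = a
        · rw [hda]; exact e1
        · by_cases hdb : d = b
          · rw [hdb]; exact e2
          · exact absurd ⟨d, hd, hda, hdb⟩ h3
    obtain ⟨a', ha', hab', h0⟩ := hoff
    refine ⟨T, hT, hT1, a', ha', hab', (C' - p c) * I, C', hTC, ?_, fun τ => ?_⟩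
    · have e : cr (p a' - p b) ((C' - p c) * I) = ip (p a' - p b) (C' - p c) := by
        unfold cr ip; simp; ring
      rw [e]; exact h0
    · have h7 := hbis_b
      unfold ip at h7 ⊢
      simp only [sub_re, sub_im, add_re, add_im, mul_re, mul_im, ofReal_re, ofReal_im, I_re,
        I_im] at h7 ⊢
      nlinarith

/-- extension: one body and one bar -/
theorem ext_B2 (h : Sparse S F) {z : V} {P : Finset V} {c : V} (hP : P ∈ F) (hzP : z ∈ P)
    (h3 : 3 ≤ P.card) (hcP : c ∉ P) (hcz : c ≠ z) (hbar : ({z, c} : Finset V) ∈ F)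
    (hall : ∀ Q ∈ F, z ∈ Q → Q = P ∨ Q = {z, c}) {b : V} (hb : b ∈ P) (hbz : b ≠ z) {p q : V → ℂ}
    (hp : Good p) (hr : Rig (S.erase z) (insert {b, c} (res F (S.erase z))) p)
    (hc : Cong (insert {b, c} (res F (S.erase z))) p q) :
    ∃ Z Z', Cong F (Function.update p z Z) (Function.update q z Z') ∧
      Rig S F (Function.update p z Z) ∧ NC F (Function.update p z Z) := by
  have hnc : NC (res F (S.erase z)) p := NC.of_good hp fun P hP => (mem_res.mp hP).1
  have hres := erase_mem_res (z := z) h hP h3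
  have hc0 : Cong (res F (S.erase z)) p q := hc.mono (subset_insert _ _)
  obtain ⟨T, hT, hT1⟩ := hc0 _ hres
  have hbP : b ∈ P.erase z := mem_erase.mpr ⟨hbz, hb⟩
  obtain ⟨T1, hT1', hT1d, a, ha, hab, u, C', hTC, hcr, heq⟩ :=
    choose_dir hp hT hT1 (b := b) (c := c) hbP (mem_res.mp hres).1 (pair_mem_insert hc)
  obtain ⟨haz, haP⟩ := mem_erase.mp ha
  have haS : a ∈ S.erase z := mem_erase.mpr ⟨haz, h.sub P hP haP⟩
  have hbS : b ∈ S.erase z := mem_erase.mpr ⟨hbz, h.sub P hP hb⟩
  have hcS : c ∈ S.erase z := mem_erase.mpr ⟨hcz, h.sub _ hbar (by simp)⟩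
  have hbc : b ≠ c := fun e => hcP (e ▸ hb)
  have hpab := hp.1 a b hab
  obtain ⟨ν, hν, hdof⟩ := dofB haS hbS hcS hr hpab (hp.1 b c hbc)
  obtain ⟨τ, hτ, hτν⟩ := exists_tau (u := u) hν
  set Z := p b + τ * u with hZ
  have hcrZ : cr (Z - p a) (Z - p b) ≠ 0 := by
    have e : cr (Z - p a) (Z - p b) = - (τ * cr (p a - p b) u) := by
      rw [hZ]; unfold cr; simp; ring
    rw [e]
    exact neg_ne_zero.mpr (mul_ne_zero hτ hcr)
  have hZc : ip (Z - p c) (Z - p c) = ip (T1 Z - q c) (T1 Z - q c) := by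
    rw [heq τ, ← hTC, hT1'.isom]
  refine ⟨Z, T1 Z, cong_ext h hc0 fun Q hQ hzQ => ?_, rig_of fun v hv => ?_,
    nc_ext h hnc fun Q hQ hzQ => ?_⟩
  · rcases hall Q hQ hzQ with rfl | rfl
    · exact ⟨T1, hT1', rfl, fun d hd hdz => hT1d d (mem_erase.mpr ⟨hdz, hd⟩)⟩
    · exact cong_pair hZc
  · have hvab : ip (p a - p b) (v a - v b) = 0 := by
      have := hv P hP a haP b hb
      rwa [upd_ne haz, upd_ne hbz] at this
    obtain ⟨t, ω, h1, h2⟩ := exists_triv hpab hvab
    refine ⟨t, ω, ?_⟩
    have hv' := hv.sub_triv t ω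
    have h1' : v a - (t + ω * I * Function.update p z Z a) = 0 := by rw [upd_ne haz]; exact h1
    have h2' : v b - (t + ω * I * Function.update p z Z b) = 0 := by rw [upd_ne hbz]; exact h2
    set v' := fun d => v d - (t + ω * I * Function.update p z Z d) with hv0
    have hzv : v' z = 0 := vanish_z hv' hP hzP haP haz hP hzP hb hbz h1' h2' hcrZ
    obtain ⟨l, hl1, hl2⟩ := hdof v' (mot_res hv') h1' h2'
    have h5 := mot_z hv' hbar (by simp) (a := c) (by simp) hcz
    rw [hzv, hl1, zero_sub, ← neg_mul] at h5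
    rw [show (-(l : ℂ) * ν) = ((-l : ℝ) : ℂ) * ν by push_cast; ring, ip_smul_right] at h5
    have h6 : l = 0 := by
      have := (mul_eq_zero.mp h5).resolve_right hτν
      linarith
    intro d hd
    by_cases hdz : d = z
    · rw [hdz]; exact hzv
    · exact hl2 h6 d (mem_erase.mpr ⟨hdz, hd⟩)
  · rcases hall Q hQ hzQ with rfl | rfl
    · refine ⟨a, haP, haz, fun e => hcrZ ?_⟩
      rw [← e, sub_self]; unfold cr; simp
    · refine ⟨c, by simp, hcz, fun e => hτν ?_⟩
      rw [← e, sub_self, ip_zero_left]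

/-- a point on one of two bisectors at which a quadratic form does not vanish -/
theorem quad_point {X Y X' Y' g1 g2 : ℝ} (hY : Y ≠ 0) (hY' : Y' ≠ 0) :
    ∃ s t : ℝ, t ≠ 0 ∧
      Y * (s ^ 2 - s) + t * ((g1 - X) * s + g2 * t + (X - X * g1 - Y * g2)) ≠ 0 ∧
      ((s - X) ^ 2 + (t - Y) ^ 2 = (s - X') ^ 2 + (t - Y') ^ 2 ∨
       (s - X) ^ 2 + (t - Y) ^ 2 = (s - X') ^ 2 + (-t - Y') ^ 2) := by
  by_contra hcon
  push Not at hcon
  by_cases hX : X' = X
  · subst hX
    by_cases h1 : Y' = -Y
    · subst h1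
      have key : ∀ s : ℝ, Y * (s ^ 2 - s) + 1 * ((g1 - X') * s + g2 * 1 +
          (X' - X' * g1 - Y * g2)) = 0 := by
        intro s
        by_contra hne
        exact (hcon s 1 one_ne_zero hne).2 (by ring)
      have h2 := key 0
      have h3 := key 1
      have h4 := key 2
      apply hY; linarith
    · have ht : (Y + Y') / 2 ≠ 0 := by
        intro h0; apply h1; linarith
      have key : ∀ s : ℝ, Y * (s ^ 2 - s) + (Y + Y') / 2 * ((g1 - X') * s + g2 * ((Y + Y') / 2) +
          (X' - X' * g1 - Y * g2)) = 0 := by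
        intro s
        by_contra hne
        exact (hcon s _ ht hne).1 (by ring)
      have h2 := key 0
      have h3 := key 1
      have h4 := key 2
      apply hY; linarith
  · have hd : X' - X ≠ 0 := sub_ne_zero.mpr hX
    set s0 := (X' ^ 2 + Y' ^ 2 - X ^ 2 - Y ^ 2) / (2 * (X' - X)) with hs0
    have e0 : 2 * (X' - X) * s0 = X' ^ 2 + Y' ^ 2 - X ^ 2 - Y ^ 2 := by rw [hs0]; field_simp
    set m := (Y - Y') / (X' - X) with hm
    have em : (X' - X) * m = Y - Y' := by rw [hm]; field_simp
    set m' := (Y + Y') / (X' - X) with hm'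
    have em' : (X' - X) * m' = Y + Y' := by rw [hm']; field_simp
    have key : ∀ t : ℝ, t ≠ 0 → Y * ((s0 + m * t) ^ 2 - (s0 + m * t)) + t * ((g1 - X) *
        (s0 + m * t) + g2 * t + (X - X * g1 - Y * g2)) = 0 := by
      intro t ht
      by_contra hne
      refine (hcon _ t ht hne).1 ?_
      linear_combination (1 : ℝ) * e0 + 2 * t * em
    have key' : ∀ t : ℝ, t ≠ 0 → Y * ((s0 + m' * t) ^ 2 - (s0 + m' * t)) + t * ((g1 - X) *
        (s0 + m' * t) + g2 * t + (X - X * g1 - Y * g2)) = 0 := by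
      intro t ht
      by_contra hne
      refine (hcon _ t ht hne).2 ?_
      linear_combination (1 : ℝ) * e0 + 2 * t * em'
    have a1 := key 1 one_ne_zero
    have a2 := key 2 two_ne_zero
    have a3 := key 3 three_ne_zero
    have b1 := key' 1 one_ne_zero
    have b2 := key' 2 two_ne_zero
    have b3 := key' 3 three_ne_zero
    have k0 : Y * (s0 ^ 2 - s0) = 0 := by linarith
    have k1 : Y * (2 * s0 - 1) * m + (g1 - X) * s0 + (X - X * g1 - Y * g2) = 0 := by linarith
    have k1' : Y * (2 * s0 - 1) * m' + (g1 - X) * s0 + (X - X * g1 - Y * g2) = 0 := by linarith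
    have k2 : Y * (2 * s0 - 1) * (m' - m) = 0 := by linarith
    have hmm : m' - m ≠ 0 := by
      intro h0
      have : (X' - X) * (m' - m) = 2 * Y' := by linarith
      rw [h0, mul_zero] at this
      apply hY'; linarith
    have k3 : 2 * s0 - 1 = 0 := by
      rcases mul_eq_zero.mp k2 with h4 | h4
      · exact (mul_eq_zero.mp h4).resolve_left hY
      · exact absurd h4 hmm
    have k4 : s0 ^ 2 - s0 = 0 := (mul_eq_zero.mp k0).resolve_left hY
    nlinarith

/-- extension: three bars -/
theorem ext_C (h : Sparse S F) {z a b c : V} (hab : a ≠ b) (hac : a ≠ c) (hbc : b ≠ c)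
    (haz : a ≠ z) (hbz : b ≠ z) (hcz : c ≠ z) (hA : ({z, a} : Finset V) ∈ F)
    (hB : ({z, b} : Finset V) ∈ F) (hC : ({z, c} : Finset V) ∈ F)
    (hall : ∀ Q ∈ F, z ∈ Q → Q = {z, a} ∨ Q = {z, b} ∨ Q = {z, c}) {p q : V → ℂ}
    (hp : Good p) (hq : Good q) (hr : Rig (S.erase z) (insert {a, b} (res F (S.erase z))) p)
    (hc : Cong (insert {a, b} (res F (S.erase z))) p q) :
    ∃ Z Z', Cong F (Function.update p z Z) (Function.update q z Z') ∧
      Rig S F (Function.update p z Z) ∧ NC F (Function.update p z Z) := by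
  have hnc : NC (res F (S.erase z)) p := NC.of_good hp fun P hP => (mem_res.mp hP).1
  have hc0 : Cong (res F (S.erase z)) p q := hc.mono (subset_insert _ _)
  have haS : a ∈ S.erase z := mem_erase.mpr ⟨haz, h.sub _ hA (by simp)⟩
  have hbS : b ∈ S.erase z := mem_erase.mpr ⟨hbz, h.sub _ hB (by simp)⟩
  have hcS : c ∈ S.erase z := mem_erase.mpr ⟨hcz, h.sub _ hC (by simp)⟩
  have hpab := hp.1 a b hab
  have hqab := hq.1 a b hab
  have hn := ip_pos hpab
  obtain ⟨γ, hγ⟩ := dofC haS hbS hcS hr hpab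
  obtain ⟨c0, hc0'⟩ := exists_coord hpab (p c)
  obtain ⟨c1, hc1'⟩ := exists_coord hqab (q c)
  have hBA : p b - p a ≠ 0 := sub_ne_zero.mpr hpab.symm
  obtain ⟨g, hg⟩ : ∃ g, γ = (p b - p a) * g := ⟨γ / (p b - p a), by field_simp⟩
  have hY : c0.im ≠ 0 := by
    have h1 := hp.2 a b c hab hac hbc
    rw [hc0', show p b - p a = (p b - p a) * 1 by ring,
      show p a + (p b - p a) * 1 * c0 - p a = (p b - p a) * c0 by ring, cr_mul] at h1
    intro h0; apply h1
    have : cr 1 c0 = c0.im := by unfold cr; simp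
    rw [this, h0, mul_zero]
  have hY' : c1.im ≠ 0 := by
    have h1 := hq.2 a b c hab hac hbc
    rw [hc1', show q b - q a = (q b - q a) * 1 by ring,
      show q a + (q b - q a) * 1 * c1 - q a = (q b - q a) * c1 by ring, cr_mul] at h1
    intro h0; apply h1
    have : cr 1 c1 = c1.im := by unfold cr; simp
    rw [this, h0, mul_zero]
  obtain ⟨s, t, ht, hD, hor⟩ := quad_point (X := c0.re) (Y := c0.im) (X' := c1.re) (Y' := c1.im)
    (g1 := g.re) (g2 := g.im) hY hY'
  set ζ : ℂ := ⟨s, t⟩ with hζ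
  set Z := p a + (p b - p a) * ζ with hZ
  have hlen : ip (p b - p a) (p b - p a) = ip (q b - q a) (q b - q a) := by
    rw [← ip_neg_neg, neg_sub, ← ip_neg_neg (q b - q a), neg_sub]; exact pair_mem_insert hc
  have eZa : Z - p a = (p b - p a) * ζ := by rw [hZ]; ring
  have eZb : Z - p b = (p b - p a) * (ζ - 1) := by rw [hZ]; ring
  have eZc : Z - p c = (p b - p a) * (ζ - c0) := by rw [hZ, hc0']; ring
  -- the image point
  have himg : ∃ Z', ip (Z - p a) (Z - p a) = ip (Z' - q a) (Z' - q a) ∧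
      ip (Z - p b) (Z - p b) = ip (Z' - q b) (Z' - q b) ∧
      ip (Z - p c) (Z - p c) = ip (Z' - q c) (Z' - q c) := by
    rcases hor with hor | hor
    · refine ⟨q a + (q b - q a) * ζ, ?_, ?_, ?_⟩
      · rw [eZa, show q a + (q b - q a) * ζ - q a = (q b - q a) * ζ by ring, ip_mul_self,
          ip_mul_self, hlen]
      · rw [eZb, show q a + (q b - q a) * ζ - q b = (q b - q a) * (ζ - 1) by ring, ip_mul_self,
          ip_mul_self, hlen]
      · rw [eZc, hc1', show q a + (q b - q a) * ζ - (q a + (q b - q a) * c1) =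
          (q b - q a) * (ζ - c1) by ring, ip_mul_self, ip_mul_self, hlen]
        congr 1
        unfold ip; simp only [sub_re, sub_im, hζ]; nlinarith
    · refine ⟨q a + (q b - q a) * conj ζ, ?_, ?_, ?_⟩
      · rw [eZa, show q a + (q b - q a) * conj ζ - q a = (q b - q a) * conj ζ by ring, ip_mul_self,
          ip_mul_self, hlen, ip_conj_self]
      · rw [eZb, show q a + (q b - q a) * conj ζ - q b = (q b - q a) * (conj ζ - 1) by ring,
          ip_mul_self, ip_mul_self, hlen]
        congr 1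
        unfold ip; simp only [sub_re, sub_im, conj_re, conj_im, one_re, one_im, hζ]; ring
      · rw [eZc, hc1', show q a + (q b - q a) * conj ζ - (q a + (q b - q a) * c1) =
          (q b - q a) * (conj ζ - c1) by ring, ip_mul_self, ip_mul_self, hlen]
        congr 1
        unfold ip; simp only [sub_re, sub_im, conj_re, conj_im, hζ]; nlinarith
  obtain ⟨Z', hZa, hZb, hZc⟩ := himg
  refine ⟨Z, Z', cong_ext h hc0 fun Q hQ hzQ => ?_, rig_of fun v hv => ?_,
    nc_ext h hnc fun Q hQ hzQ => ?_⟩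
  · rcases hall Q hQ hzQ with rfl | rfl | rfl
    · exact cong_pair hZa
    · exact cong_pair hZb
    · exact cong_pair hZc
  · obtain ⟨t', ω, κ, h1, h2⟩ := exists_norm hpab (v a) (v b)
    refine ⟨t', ω, ?_⟩
    have hv' := hv.sub_triv t' ω
    have h1' : v a - (t' + ω * I * Function.update p z Z a) = 0 := by
      rw [upd_ne haz, h1]; ring
    have h2' : v b - (t' + ω * I * Function.update p z Z b) = κ * (p b - p a) := by
      rw [upd_ne hbz, h2]; ring
    set v' := fun d => v d - (t' + ω * I * Function.update p z Z d) with hv0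
    obtain ⟨h3, h4⟩ := hγ v' (mot_res hv') h1' κ h2'
    obtain ⟨η, hη⟩ : ∃ η, v' z = (p b - p a) * η := ⟨v' z / (p b - p a), by field_simp⟩
    have m1 := mot_z hv' hA (by simp) (a := a) (by simp) haz
    have m2 := mot_z hv' hB (by simp) (a := b) (by simp) hbz
    have m3 := mot_z hv' hC (by simp) (a := c) (by simp) hcz
    have h1'' : v' a = 0 := h1'
    have h2'' : v' b = κ * (p b - p a) := h2'
    rw [h1'', hη, sub_zero, eZa, ip_mul] at m1
    rw [h2'', hη, show (p b - p a) * η - κ * (p b - p a) = (p b - p a) * (η - κ) by ring, eZb,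
      ip_mul] at m2
    rw [h3, hη, hg, show (p b - p a) * η - κ * ((p b - p a) * g) = (p b - p a) * (η - κ * g) by ring,
      eZc, ip_mul] at m3
    replace m1 := (mul_eq_zero.mp m1).resolve_left hn.ne'
    replace m2 := (mul_eq_zero.mp m2).resolve_left hn.ne'
    replace m3 := (mul_eq_zero.mp m3).resolve_left hn.ne'
    unfold ip at m1 m2 m3
    simp only [hζ, sub_re, sub_im, one_re, one_im, ofReal_re, ofReal_im, mul_re, mul_im] at m1 m2 m3
    have hκ : κ * (c0.im * (s ^ 2 - s) + t * ((g.re - c0.re) * s + g.im * t +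
        (c0.re - c0.re * g.re - c0.im * g.im))) = 0 := by
      have m4 : η.re = κ * (1 - s) := by linarith
      have m5 : t * η.im = - s * (κ * (1 - s)) := by rw [← m4]; linarith
      have m6 : t * ((s - c0.re) * (η.re - (κ * g.re - 0 * g.im)) +
        (t - c0.im) * (η.im - (κ * g.im + 0 * g.re))) = 0 := by rw [m3, mul_zero]
      rw [m4] at m6
      linear_combination (-1 : ℝ) * m6 + (t - c0.im) * m5
    have hκ0 : κ = 0 := (mul_eq_zero.mp hκ).resolve_right hD
    have hη0 : η = 0 := by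
      subst hκ0
      apply Complex.ext
      · simp only [zero_re]; linarith
      · simp only [zero_im]
        have m4 : η.re = 0 := by linarith
        have m5 : t * η.im = 0 := by rw [m4] at m1; linarith
        exact (mul_eq_zero.mp m5).resolve_left ht
    intro d hd
    by_cases hdz : d = z
    · rw [hdz]
      change v' z = 0
      rw [hη, hη0, mul_zero]
    · exact h4 hκ0 d (mem_erase.mpr ⟨hdz, hd⟩)
  · rcases hall Q hQ hzQ with rfl | rfl | rfl
    · refine ⟨a, by simp, haz, fun e => ht ?_⟩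
      have h5 : (p b - p a) * ζ = 0 := by rw [← eZa, e, sub_self]
      have h6 := (mul_eq_zero.mp h5).resolve_left hBA
      have := congrArg Complex.im h6
      simpa [hζ] using this
    · refine ⟨b, by simp, hbz, fun e => ht ?_⟩
      have h5 : (p b - p a) * (ζ - 1) = 0 := by rw [← eZb, e, sub_self]
      have h6 := (mul_eq_zero.mp h5).resolve_left hBA
      have := congrArg Complex.im h6
      simpa [hζ] using this
    · refine ⟨c, by simp, hcz, fun e => hD ?_⟩
      have h5 : (p b - p a) * (ζ - c0) = 0 := by rw [← eZc, e, sub_self]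
      have h6 := sub_eq_zero.mp ((mul_eq_zero.mp h5).resolve_left hBA)
      have hs := congrArg Complex.re h6
      have ht' := congrArg Complex.im h6
      simp only [hζ] at hs ht'
      rw [← hs, ← ht']; ring

end Pool.Agent.helper13.GL
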