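import Mathlib
import Pool.Agent.helper13.GL.Ext3

/-!
# Extension of placements: assembly, and the special case
-/

namespace Pool.Agent.helper13.GL

open Finset Complex
open scoped ComplexConjugate

variable {V : Type*} [DecidableEq V] {S : Finset V} {F : Finset (Finset V)}

/-- extension when `z` loses three constraints -/
theorem ext_three (h : Sparse S F) {z : V} (hl : loss F z = 3) {a b : V} (ha : a ∈ nbr F z)
    (hb : b ∈ nbr F z) (hab : Addable (S.erase z) (res F (S.erase z)) a b) {p q : V → ℂ}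
    (hp : Good p) (hq : Good q) (hr : Rig (S.erase z) (insert {a, b} (res F (S.erase z))) p)
    (hc : Cong (insert {a, b} (res F (S.erase z))) p q) :
    ∃ Z Z', Cong F (Function.update p z Z) (Function.update q z Z') ∧
      Rig S F (Function.update p z Z) ∧ NC F (Function.update p z Z) := by
  have hs := sparse_res h (erase_subset z S)
  have hne := hab.2.2.1
  obtain ⟨Qa, hQa, hzQa, haQ, haz⟩ := mem_nbr.mp ha
  obtain ⟨Qb, hQb, hzQb, hbQ, hbz⟩ := mem_nbr.mp hb
  rcases loss_three_cases h hl with ⟨P, hP, c, hzP, h3, hcP, hcz, hbar, hall⟩ |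
    ⟨a1, b1, c1, h1, h2, h3, hz1, hz2, hz3, hA, hB, hC, hall⟩
  · have ha' : a ∈ P ∨ a = c := by
      rcases hall Qa hQa hzQa with h4 | h4
      · left; rw [← h4]; exact haQ
      · rw [h4] at haQ
        simp only [mem_insert, mem_singleton] at haQ
        exact Or.inr (haQ.resolve_left haz)
    have hb' : b ∈ P ∨ b = c := by
      rcases hall Qb hQb hzQb with h4 | h4
      · left; rw [← h4]; exact hbQ
      · rw [h4] at hbQ
        simp only [mem_insert, mem_singleton] at hbQ
        exact Or.inr (hbQ.resolve_left hbz)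
    rcases ha' with haP | rfl
    · rcases hb' with hbP | rfl
      · exfalso
        exact hab.2.2.2 _ (piece_tset hs (erase_mem_res (z := z) h hP h3))
          (mem_erase.mpr ⟨haz, haP⟩) (mem_erase.mpr ⟨hbz, hbP⟩)
      · exact ext_B2 h hP hzP h3 hcP hcz hbar hall haP haz hp hr hc
    · rcases hb' with hbP | rfl
      · rw [pair_comm] at hr hc
        exact ext_B2 h hP hzP h3 hcP hcz hbar hall hbP hbz hp hr hc
      · exact absurd rfl hne
  · have ha' : a = a1 ∨ a = b1 ∨ a = c1 := by
      rcases hall Qa hQa hzQa with h4 | h4 | h4 <;> rw [h4] at haQ <;>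
        simp only [mem_insert, mem_singleton] at haQ <;> have := haQ.resolve_left haz <;> tauto
    have hb' : b = a1 ∨ b = b1 ∨ b = c1 := by
      rcases hall Qb hQb hzQb with h4 | h4 | h4 <;> rw [h4] at hbQ <;>
        simp only [mem_insert, mem_singleton] at hbQ <;> have := hbQ.resolve_left hbz <;> tauto
    rcases ha' with rfl | rfl | rfl <;> rcases hb' with rfl | rfl | rfl
    · exact absurd rfl hne
    · exact ext_C h h1 h2 h3 hz1 hz2 hz3 hA hB hC hall hp hq hr hc
    · exact ext_C h h2 h1 h3.symm hz1 hz3 hz2 hA hC hB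
        (fun Q hQ hz => by have := hall Q hQ hz; tauto) hp hq hr hc
    · exact ext_C h h1.symm h3 h2 hz2 hz1 hz3 hB hA hC
        (fun Q hQ hz => by have := hall Q hQ hz; tauto) hp hq hr hc
    · exact absurd rfl hne
    · exact ext_C h h3 h1.symm h2.symm hz2 hz3 hz1 hB hC hA
        (fun Q hQ hz => by have := hall Q hQ hz; tauto) hp hq hr hc
    · exact ext_C h h2.symm h3.symm h1 hz3 hz1 hz2 hC hA hB
        (fun Q hQ hz => by have := hall Q hQ hz; tauto) hp hq hr hc
    · exact ext_C h h3.symm h2.symm h1.symm hz3 hz2 hz1 hC hB hA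
        (fun Q hQ hz => by have := hall Q hQ hz; tauto) hp hq hr hc
    · exact absurd rfl hne

theorem cr_mul_I (a b : ℂ) : cr a (b * I) = ip a b := by
  unfold cr ip; simp

/-- the special case: the two given vertices are neighbours of `z` -/
theorem ext_T (h : Sparse S F) {z x y d : V} (hN : nbr F z = {x, y, d}) (hdx : d ≠ x)
    (hdy : d ≠ y) (hadd : Addable (S.erase z) (res F (S.erase z)) x y) {p q : V → ℂ}
    (hp : Good p) (hr : Rig (S.erase z) (insert {x, y} (res F (S.erase z))) p)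
    (hc : Cong (res F (S.erase z)) p q)
    (hxd : ip (p x - p d) (p x - p d) = ip (q x - q d) (q x - q d))
    (hyd : ip (p y - p d) (p y - p d) = ip (q y - q d) (q y - q d))
    (hne : ip (p x - p y) (p x - p y) ≠ ip (q x - q y) (q x - q y))
    (hmx : ∀ v, Mot (res F (S.erase z)) p v → ip (p x - p d) (v x - v d) = 0)
    (hmy : ∀ v, Mot (res F (S.erase z)) p v → ip (p y - p d) (v y - v d) = 0) :
    ∃ Z Z', Cong F (Function.update p z Z) (Function.update q z Z') ∧
      Rig S F (Function.update p z Z) ∧ NC F (Function.update p z Z) := by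
  have hnc : NC (res F (S.erase z)) p := NC.of_good hp fun P hP => (mem_res.mp hP).1
  have hs := sparse_res h (erase_subset z S)
  have hx : x ∈ nbr F z := by rw [hN]; simp
  have hy : y ∈ nbr F z := by rw [hN]; simp
  have hd : d ∈ nbr F z := by rw [hN]; simp
  obtain ⟨Qx, hQx, hzQx, hxQ, hxz⟩ := mem_nbr.mp hx
  obtain ⟨Qy, hQy, hzQy, hyQ, hyz⟩ := mem_nbr.mp hy
  obtain ⟨Qd, hQd, hzQd, hdQ, hdz⟩ := mem_nbr.mp hd
  have hxS := nbr_subset h z hx
  have hyS := nbr_subset h z hy
  have hdS := nbr_subset h z hd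
  have hxy : x ≠ y := hadd.2.2.1
  have hpxd := hp.1 x d hdx.symm
  have hpyd := hp.1 y d hdy.symm
  obtain ⟨T1, hT1, hTx, hTd⟩ := two_points hxd
  obtain ⟨T', hT', hl, hr'⟩ := hT1.inv
  set C' := T' (q y) with hC'
  have hTC : T1 C' = q y := hr' _
  have hxC : ip (p x - C') (p x - C') = ip (q x - q y) (q x - q y) := by
    rw [← hT1.isom, hTx, hTC]
  have hdC : ip (p d - C') (p d - C') = ip (q d - q y) (q d - q y) := by
    rw [← hT1.isom, hTd, hTC]
  have hdC' : ip (p d - p y) (p d - p y) = ip (p d - C') (p d - C') := by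
    rw [hdC, ← ip_neg_neg, neg_sub, hyd, ← ip_neg_neg, neg_sub]
  have hCy : C' - p y ≠ 0 := by
    intro h0
    apply hne
    rw [← hxC, sub_eq_zero.mp h0]
  set Z := p d + (C' - p y) * I with hZ
  have hZy : ip (Z - p y) (Z - p y) = ip (Z - C') (Z - C') := by
    have h7 := hdC'
    rw [hZ]
    unfold ip at h7 ⊢
    simp only [sub_re, sub_im, add_re, add_im, mul_re, mul_im, I_re, I_im] at h7 ⊢
    nlinarith
  have ex : ip (Z - p x) (Z - p x) = ip (T1 Z - q x) (T1 Z - q x) := by rw [← hTx, hT1.isom]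
  have ed : ip (Z - p d) (Z - p d) = ip (T1 Z - q d) (T1 Z - q d) := by rw [← hTd, hT1.isom]
  have ey : ip (Z - p y) (Z - p y) = ip (T1 Z - q y) (T1 Z - q y) := by
    rw [hZy, ← hTC, hT1.isom]
  have hcr1 : cr (Z - p x) (Z - p d) ≠ 0 := by
    have e : cr (Z - p x) (Z - p d) = ip (p d - p x) (C' - p y) := by
      rw [← cr_mul_I, hZ]
      unfold cr; simp; ring
    rw [e]
    intro h0
    apply hne
    rw [← hxC]
    have h7 := hdC'
    unfold ip at h0 h7 ⊢
    simp only [sub_re, sub_im] at h0 h7 ⊢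
    linarith
  have hcr2 : cr (Z - p y) (p y - p d) ≠ 0 := by
    have e : cr (Z - p y) (p y - p d) = ip (p d - p y) (C' - p y) := by
      rw [← cr_mul_I, hZ]
      unfold cr; simp; ring
    rw [e]
    intro h0
    apply hCy
    rw [← ip_self_eq_zero]
    have h7 := hdC'
    unfold ip at h0 h7 ⊢
    simp only [sub_re, sub_im] at h0 h7 ⊢
    linarith
  have hcr3 : cr (0 : ℂ) (p y - p d) = 0 := by unfold cr; simp
  have hcr4 : ∀ a : ℂ, cr a 0 = 0 := fun a => by unfold cr; simp
  have hcr5 : ∀ a : ℂ, cr 0 a = 0 := fun a => by unfold cr; simp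
  have hQsub : ∀ Q ∈ F, z ∈ Q → ∀ a ∈ Q, a ≠ z → a = x ∨ a = y ∨ a = d := by
    intro Q hQ hzQ a ha haz
    have : a ∈ nbr F z := mem_nbr.mpr ⟨Q, hQ, hzQ, ha, haz⟩
    rw [hN] at this
    simpa using this
  have hnotboth : ∀ Q ∈ F, z ∈ Q → x ∈ Q → y ∈ Q → False := by
    intro Q hQ hzQ hx' hy'
    have h3 : 3 ≤ Q.card := by
      have : ({z, x, y} : Finset V) ⊆ Q := by
        intro e he
        simp only [mem_insert, mem_singleton] at he
        rcases he with rfl | rfl | rfl <;> assumption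
      have h4 := card_le_card this
      rwa [card_eq_three.mpr ⟨z, x, y, hxz.symm, hyz.symm, hxy, rfl⟩] at h4
    exact hadd.2.2.2 _ (piece_tset hs (erase_mem_res (z := z) h hQ h3))
      (mem_erase.mpr ⟨hxz, hx'⟩) (mem_erase.mpr ⟨hyz, hy'⟩)
  refine ⟨Z, T1 Z, cong_ext h hc fun Q hQ hzQ => ?_, rig_of fun v hv => ?_,
    nc_ext h hnc fun Q hQ hzQ => ?_⟩
  · by_cases hyQ' : y ∈ Q
    · have hxQ' : x ∉ Q := fun hx' => hnotboth Q hQ hzQ hx' hyQ'
      obtain ⟨T, hT, e1, e2, e3⟩ := sss (C := Z) (C' := T1 Z) hpyd hyd ey ed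
      refine ⟨T, hT, e3, fun a ha haz => ?_⟩
      rcases hQsub Q hQ hzQ a ha haz with rfl | rfl | rfl
      · exact absurd ha hxQ'
      · exact e1
      · exact e2
    · refine ⟨T1, hT1, rfl, fun a ha haz => ?_⟩
      rcases hQsub Q hQ hzQ a ha haz with rfl | rfl | rfl
      · exact hTx
      · exact absurd ha hyQ'
      · exact hTd
  · obtain ⟨t, ω, h1, h2⟩ := exists_triv hpxd (hmx v (mot_res hv))
    refine ⟨t, ω, ?_⟩
    have hv' := hv.sub_triv t ω
    have h1' : v x - (t + ω * I * Function.update p z Z x) = 0 := by rw [upd_ne hxz]; exact h1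
    have h2' : v d - (t + ω * I * Function.update p z Z d) = 0 := by rw [upd_ne hdz]; exact h2
    set v' := fun e => v e - (t + ω * I * Function.update p z Z e) with hv0
    have hx0 : v' x = 0 := h1'
    have hd0 : v' d = 0 := h2'
    have hzv : v' z = 0 := vanish_z hv' hQx hzQx hxQ hxz hQd hzQd hdQ hdz hx0 hd0 hcr1
    have m1 := mot_z hv' hQy hzQy hyQ hyz
    have m2 := hmy v' (mot_res hv')
    rw [hzv, zero_sub] at m1
    rw [hd0, sub_zero] at m2
    have m1' : ip (Z - p y) (v' y) = 0 := by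
      have : ip (Z - p y) (-(v' y)) = - ip (Z - p y) (v' y) := by
        unfold ip; simp only [neg_re, neg_im]; ring
      rw [this] at m1; linarith
    have hy0 : v' y = 0 := eq_zero_of_ip hcr2 m1' m2
    obtain ⟨t2, ω2, h3⟩ := hr v' (mot_insert (mot_res hv') (by
      rw [hx0, hy0, sub_self, ip_zero_right]))
    intro e he
    by_cases hez : e = z
    · rw [hez]; exact hzv
    · change v' e = 0
      rw [h3 e (mem_erase.mpr ⟨hez, he⟩)]
      exact triv_zero hpxd (by rw [← h3 x hxS, hx0]) (by rw [← h3 d hdS, hd0]) _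
  · obtain ⟨a, ha, haz⟩ := exists_mem_ne (by have := h.two Q hQ; omega : 1 < Q.card) z
    refine ⟨a, ha, haz, fun e => ?_⟩
    rcases hQsub Q hQ hzQ a ha haz with rfl | rfl | rfl
    · apply hcr1; rw [← e, sub_self]; exact hcr5 _
    · apply hcr2; rw [← e, sub_self]; exact hcr5 _
    · apply hcr1; rw [← e, sub_self]; exact hcr4 _

end Pool.Agent.helper13.GL
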