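import Mathlib
import Pool.Agent.helper13.GL.Geom

/-!
# Generic placements
-/

namespace Pool.Agent.helper13.GL

open Finset Complex
open scoped Topology

variable {V : Type*}

/-- coordinates of a placement -/
def co (p : V → ℂ) : V ⊕ V → ℝ := fun i => Sum.elim (fun v => (p v).re) (fun v => (p v).im) i

/-- generic placements -/
def Gen (p : V → ℂ) : Prop := AlgebraicIndependent ℚ (co p)

/-- placement with given coordinates -/
def pl (x : V ⊕ V → ℝ) : V → ℂ := fun v => ⟨x (Sum.inl v), x (Sum.inr v)⟩

theorem co_pl (x : V ⊕ V → ℝ) : co (pl x) = x := by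
  funext i; rcases i with i | i <;> rfl

theorem pl_co (p : V → ℂ) : pl (co p) = p := by
  funext v; apply Complex.ext <;> rfl

theorem continuous_co : Continuous (co : (V → ℂ) → V ⊕ V → ℝ) := by
  apply continuous_pi
  intro i
  rcases i with i | i
  · exact Complex.continuous_re.comp (continuous_apply i)
  · exact Complex.continuous_im.comp (continuous_apply i)

theorem continuous_pl : Continuous (pl : (V ⊕ V → ℝ) → V → ℂ) := by
  apply continuous_pi
  intro v
  have : (fun x : V ⊕ V → ℝ => pl x v) =
      fun x => ((x (Sum.inl v) : ℝ) : ℂ) + ((x (Sum.inr v) : ℝ) : ℂ) * I := by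
    funext x; exact (Complex.mk_eq_add_mul_I _ _)
  rw [this]
  fun_prop

theorem Gen.ne {p : V → ℂ} (h : Gen p) {D : MvPolynomial (V ⊕ V) ℚ} {c : V ⊕ V → ℝ}
    (h0 : MvPolynomial.aeval c D ≠ 0) : MvPolynomial.aeval (co p) D ≠ 0 := by
  intro h1
  apply h0
  have h2 : D = 0 := by
    apply h
    rw [map_zero]; exact h1
  rw [h2, map_zero]

theorem Gen.good [DecidableEq V] {p : V → ℂ} (h : Gen p) : Good p := by
  constructor
  · intro a b hab e
    have h1 := AlgebraicIndependent.injective h
    have h2 : co p (Sum.inl a) = co p (Sum.inl b) := by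
      simp only [co, Sum.elim_inl, e]
    exact hab (Sum.inl_injective (h1 h2))
  · intro a b c hab hac hbc
    set D : MvPolynomial (V ⊕ V) ℚ :=
      (MvPolynomial.X (Sum.inl b) - MvPolynomial.X (Sum.inl a)) *
        (MvPolynomial.X (Sum.inr c) - MvPolynomial.X (Sum.inr a)) -
      (MvPolynomial.X (Sum.inr b) - MvPolynomial.X (Sum.inr a)) *
        (MvPolynomial.X (Sum.inl c) - MvPolynomial.X (Sum.inl a)) with hD
    have h1 : MvPolynomial.aeval (co p) D = cr (p b - p a) (p c - p a) := by
      rw [hD]
      simp only [map_sub, map_mul, MvPolynomial.aeval_X]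
      unfold cr co
      simp only [sub_re, sub_im, Sum.elim_inl, Sum.elim_inr]
    rw [← h1]
    refine h.ne (c := fun i => Sum.elim (fun v => if v = b then 1 else 0)
      (fun v => if v = c then 1 else 0) i) ?_
    rw [hD]
    simp only [map_sub, map_mul, MvPolynomial.aeval_X, Sum.elim_inl, Sum.elim_inr]
    simp [hab, hac, hbc, hbc.symm]

theorem good_eventually [Fintype V] {p : V → ℂ} (h : Good p) : ∀ᶠ q in 𝓝 p, Good q := by
  have h1 : ∀ᶠ q in 𝓝 p, ∀ a b, a ≠ b → q a ≠ q b := by
    rw [Filter.eventually_all]; intro a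
    rw [Filter.eventually_all]; intro b
    by_cases hab : a = b
    · exact Filter.Eventually.of_forall fun q h' => absurd hab h'
    · have : ContinuousAt (fun q : V → ℂ => q a - q b) p := by fun_prop
      filter_upwards [this.eventually_ne (sub_ne_zero.mpr (h.1 a b hab))] with q hq _
      exact sub_ne_zero.mp hq
  have h2 : ∀ᶠ q in 𝓝 p, ∀ a b c, a ≠ b → a ≠ c → b ≠ c → cr (q b - q a) (q c - q a) ≠ 0 := by
    rw [Filter.eventually_all]; intro a
    rw [Filter.eventually_all]; intro b
    rw [Filter.eventually_all]; intro c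
    by_cases hab : a ≠ b ∧ a ≠ c ∧ b ≠ c
    · have : ContinuousAt (fun q : V → ℂ => cr (q b - q a) (q c - q a)) p := by
        unfold cr; fun_prop
      filter_upwards [this.eventually_ne (h.2 a b c hab.1 hab.2.1 hab.2.2)] with q hq _ _ _
      exact hq
    · exact Filter.Eventually.of_forall fun q h1 h2 h3 => absurd ⟨h1, h2, h3⟩ hab
  filter_upwards [h1, h2] with q h3 h4
  exact ⟨h3, h4⟩

theorem continuous_aeval_co (D : MvPolynomial (V ⊕ V) ℚ) :
    Continuous (fun p : V → ℂ => MvPolynomial.aeval (co p) D) := by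
  have h1 : (fun p : V → ℂ => MvPolynomial.aeval (co p) D) =
      fun p => MvPolynomial.eval (co p) (MvPolynomial.map (algebraMap ℚ ℝ) D) := by
    funext p
    rw [MvPolynomial.aeval_def, MvPolynomial.eval_map]
  rw [h1]
  exact (MvPolynomial.continuous_eval _).comp continuous_co

/-- generic placements are dense -/
theorem gen_dense [Fintype V] : Dense {p : V → ℂ | Gen p} := by
  have h1 : {p : V → ℂ | Gen p} =
      ⋂ D : {D : MvPolynomial (V ⊕ V) ℚ // D ≠ 0},
        {p : V → ℂ | MvPolynomial.aeval (co p) D.1 ≠ 0} := by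
    ext p
    simp only [Set.mem_ofPred_eq, Set.mem_iInter]
    constructor
    · intro h D h0
      apply D.2
      apply h
      rw [h0, map_zero]
    · intro h
      unfold Gen
      rw [algebraicIndependent_iff]
      intro D h0
      by_contra hD
      exact h ⟨D, hD⟩ h0
  rw [h1]
  have : Countable (MvPolynomial (V ⊕ V) ℚ) := by
    rw [← Cardinal.mk_le_aleph0_iff]
    refine MvPolynomial.cardinalMk_le_max_lift.trans ?_
    refine max_le (max_le ?_ ?_) le_rfl
    · rw [Cardinal.lift_le_aleph0]; exact Cardinal.mk_le_aleph0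
    · rw [Cardinal.lift_le_aleph0]; exact Cardinal.mk_le_aleph0
  apply dense_iInter_of_isOpen
  · intro D
    exact isOpen_ne.preimage (continuous_aeval_co D.1)
  · intro D
    rw [dense_iff_inter_open]
    intro U hU ⟨p0, hp0⟩
    by_contra hne
    have hz : ∀ p ∈ U, MvPolynomial.aeval (co p) D.1 = 0 := by
      intro p hp
      by_contra h0
      exact hne ⟨p, hp, h0⟩
    have hpre : pl ⁻¹' U ∈ 𝓝 (co p0) := by
      apply (hU.preimage continuous_pl).mem_nhds
      rw [Set.mem_preimage, pl_co]; exact hp0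
    obtain ⟨ε, hε, hball⟩ := Metric.mem_nhds_iff.mp hpre
    have h2 : MvPolynomial.map (algebraMap ℚ ℝ) D.1 = 0 := by
      apply MvPolynomial.funext_set (fun k => Metric.ball (co p0 k) ε)
      · intro k
        rw [Real.ball_eq_Ioo]
        exact Set.Ioo_infinite (by linarith)
      · intro x hx
        rw [← ball_pi _ hε] at hx
        have h3 := hz (pl x) (hball hx)
        rw [co_pl, MvPolynomial.aeval_def] at h3
        rw [MvPolynomial.eval_map, h3, map_zero]
    apply D.2
    apply MvPolynomial.map_injective (algebraMap ℚ ℝ) (algebraMap ℚ ℝ).injective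
    rw [h2, map_zero]

theorem exists_gen [Fintype V] {p : V → ℂ} {U : Set (V → ℂ)} (hU : U ∈ 𝓝 p) :
    ∃ q ∈ U, Gen q := by
  obtain ⟨q, h1, h2⟩ := (mem_closure_iff_nhds.mp (gen_dense p)) U hU
  exact ⟨q, h1, h2⟩

end Pool.Agent.helper13.GL
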