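import Mathlib
import Pool.Agent.helper13.GL.Generic

/-!
# Rigidity of generic placements
-/

namespace Pool.Agent.helper13.GL

open Finset Complex
open scoped Topology

variable {V : Type*} [DecidableEq V] [Fintype V]

/-- difference of two indicator functions -/
def dd {R : Type*} [CommRing R] (a b d : V) : R :=
  (if d = a then 1 else 0) - (if d = b then 1 else 0)

/-- index set of the constraints -/
abbrev JJ (V : Type*) := (V × V) ⊕ (Fin 3 ⊕ (V ⊕ V))

open Classical in
/-- the rigidity matrix with pins -/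
noncomputable def MM {R : Type*} [CommRing R] (S : Finset V) (F : Finset (Finset V)) (a0 b0 : V)
    (c : V ⊕ V → R) : Matrix (JJ V) (V ⊕ V) R := fun j k =>
  match j with
  | Sum.inl (a, b) => if ∃ P ∈ F, a ∈ P ∧ b ∈ P then
      (match k with
        | Sum.inl d => (c (Sum.inl a) - c (Sum.inl b)) * dd a b d
        | Sum.inr d => (c (Sum.inr a) - c (Sum.inr b)) * dd a b d) else 0
  | Sum.inr (Sum.inl i) =>
      if i = 0 then (match k with
        | Sum.inl d => if d = a0 then 1 else 0
        | Sum.inr _ => 0)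
      else if i = 1 then (match k with
        | Sum.inl _ => 0
        | Sum.inr d => if d = a0 then 1 else 0)
      else (match k with
        | Sum.inl d => - (c (Sum.inr b0) - c (Sum.inr a0)) * dd b0 a0 d
        | Sum.inr d => (c (Sum.inl b0) - c (Sum.inl a0)) * dd b0 a0 d)
  | Sum.inr (Sum.inr (Sum.inl e)) => if e ∈ S then 0 else (match k with
        | Sum.inl d => if d = e then 1 else 0
        | Sum.inr _ => 0)
  | Sum.inr (Sum.inr (Sum.inr e)) => if e ∈ S then 0 else (match k with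
        | Sum.inl _ => 0
        | Sum.inr d => if d = e then 1 else 0)

omit [Fintype V] in
theorem MM_map {R R' : Type*} [CommRing R] [CommRing R'] (f : R →+* R') (S : Finset V)
    (F : Finset (Finset V)) (a0 b0 : V) (c : V ⊕ V → R) :
    (MM S F a0 b0 c).map f = MM S F a0 b0 (fun k => f (c k)) := by
  have hd : ∀ a b d : V, f (dd a b d) = dd a b d := by
    intro a b d
    unfold dd
    rw [map_sub]
    congr 1 <;> split_ifs <;> simp
  ext j k
  rw [Matrix.map_apply]
  unfold MM
  rcases j with ⟨a, b⟩ | i | e | e <;> rcases k with d | d <;> simp only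
  · split_ifs <;> simp [hd]
  · split_ifs <;> simp [hd]
  · split_ifs <;> simp [hd]
  · split_ifs <;> simp [hd]
  · split_ifs <;> simp
  · split_ifs <;> simp
  · split_ifs <;> simp
  · split_ifs <;> simp

theorem sum_dd (a b : V) (r : ℝ) (x : V → ℝ) :
    ∑ d, r * dd a b d * x d = r * (x a - x b) := by
  unfold dd
  have : ∀ d, r * ((if d = a then (1 : ℝ) else 0) - (if d = b then 1 else 0)) * x d =
      (if d = a then r * x d else 0) - (if d = b then r * x d else 0) := by
    intro d; split_ifs <;> ring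
  simp_rw [this, sum_sub_distrib, sum_ite_eq' univ, if_pos (mem_univ _)]
  ring

theorem MM_pair {S : Finset V} {F : Finset (Finset V)} {a0 b0 : V} {p v : V → ℂ} {a b : V}
    (h : ∃ P ∈ F, a ∈ P ∧ b ∈ P) :
    (MM S F a0 b0 (co p)).mulVec (co v) (Sum.inl (a, b)) = ip (p a - p b) (v a - v b) := by
  unfold Matrix.mulVec dotProduct
  rw [Fintype.sum_sum_type]
  unfold MM
  simp only [if_pos h]
  rw [sum_dd a b _ (fun d => co v (Sum.inl d)), sum_dd a b _ (fun d => co v (Sum.inr d))]
  rfl

theorem MM_pair_zero {S : Finset V} {F : Finset (Finset V)} {a0 b0 : V} {p v : V → ℂ} {a b : V}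
    (h : ¬ ∃ P ∈ F, a ∈ P ∧ b ∈ P) :
    (MM S F a0 b0 (co p)).mulVec (co v) (Sum.inl (a, b)) = 0 := by
  unfold Matrix.mulVec dotProduct
  unfold MM
  simp only [if_neg h]
  simp

theorem MM_pin0 {S : Finset V} {F : Finset (Finset V)} {a0 b0 : V} {p v : V → ℂ} :
    (MM S F a0 b0 (co p)).mulVec (co v) (Sum.inr (Sum.inl 0)) = (v a0).re := by
  unfold Matrix.mulVec dotProduct
  rw [Fintype.sum_sum_type]
  unfold MM
  simp [co]

theorem MM_pin1 {S : Finset V} {F : Finset (Finset V)} {a0 b0 : V} {p v : V → ℂ} :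
    (MM S F a0 b0 (co p)).mulVec (co v) (Sum.inr (Sum.inl 1)) = (v a0).im := by
  unfold Matrix.mulVec dotProduct
  rw [Fintype.sum_sum_type]
  unfold MM
  simp [co]

theorem MM_pin2 {S : Finset V} {F : Finset (Finset V)} {a0 b0 : V} {p v : V → ℂ} :
    (MM S F a0 b0 (co p)).mulVec (co v) (Sum.inr (Sum.inl 2)) =
      ip ((p b0 - p a0) * I) (v b0 - v a0) := by
  unfold Matrix.mulVec dotProduct
  rw [Fintype.sum_sum_type]
  unfold MM
  have h1 : (2 : Fin 3) ≠ 0 := by decide
  have h2 : (2 : Fin 3) ≠ 1 := by decide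
  simp only [if_neg h1, if_neg h2]
  rw [sum_dd b0 a0 _ (fun d => co v (Sum.inl d)), sum_dd b0 a0 _ (fun d => co v (Sum.inr d))]
  unfold ip co
  simp

theorem MM_out0 {S : Finset V} {F : Finset (Finset V)} {a0 b0 : V} {p v : V → ℂ} {e : V} :
    (MM S F a0 b0 (co p)).mulVec (co v) (Sum.inr (Sum.inr (Sum.inl e))) =
      if e ∈ S then 0 else (v e).re := by
  unfold Matrix.mulVec dotProduct
  rw [Fintype.sum_sum_type]
  unfold MM
  by_cases he : e ∈ S
  · simp [he]
  · simp [he, co]

theorem MM_out1 {S : Finset V} {F : Finset (Finset V)} {a0 b0 : V} {p v : V → ℂ} {e : V} :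
    (MM S F a0 b0 (co p)).mulVec (co v) (Sum.inr (Sum.inr (Sum.inr e))) =
      if e ∈ S then 0 else (v e).im := by
  unfold Matrix.mulVec dotProduct
  rw [Fintype.sum_sum_type]
  unfold MM
  by_cases he : e ∈ S
  · simp [he]
  · simp [he, co]

/-- rigidity is injectivity of the pinned rigidity matrix -/
theorem rig_iff {S : Finset V} {F : Finset (Finset V)} (hF : ∀ P ∈ F, P ⊆ S) {a0 b0 : V}
    (ha0 : a0 ∈ S) (hb0 : b0 ∈ S) {p : V → ℂ} (hab : p a0 ≠ p b0) :
    Rig S F p ↔ ∀ x, (MM S F a0 b0 (co p)).mulVec x = 0 → x = 0 := by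
  constructor
  · intro h x hx
    obtain ⟨v, rfl⟩ : ∃ v, x = co v := ⟨pl x, (co_pl x).symm⟩
    have hv : Mot F p v := by
      intro P hP a ha b hb
      rw [← MM_pair (S := S) (F := F) (a0 := a0) (b0 := b0) ⟨P, hP, ha, hb⟩, hx]; rfl
    obtain ⟨t, ω, h1⟩ := h v hv
    have h2 : v a0 = 0 := by
      apply Complex.ext
      · rw [← MM_pin0 (S := S) (F := F) (b0 := b0) (p := p), hx]; rfl
      · rw [← MM_pin1 (S := S) (F := F) (b0 := b0) (p := p), hx]; rfl
    have h3 : ip ((p b0 - p a0) * I) (v b0 - v a0) = 0 := by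
      rw [← MM_pin2 (S := S) (F := F), hx]; rfl
    have h4 : v b0 - v a0 = ω * ((p b0 - p a0) * I) := by
      rw [h1 _ ha0, h1 _ hb0]; ring
    rw [h4, ip_smul_right] at h3
    have h5 : ip ((p b0 - p a0) * I) ((p b0 - p a0) * I) ≠ 0 := by
      intro h0
      have := ip_self_eq_zero.mp h0
      rcases mul_eq_zero.mp this with h6 | h6
      · exact hab (sub_eq_zero.mp h6).symm
      · exact I_ne_zero h6
    have h6 : ω = 0 := (mul_eq_zero.mp h3).resolve_right h5
    have h7 : t = 0 := by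
      have := h1 a0 ha0
      rw [h2, h6] at this; simpa using this.symm
    have h8 : ∀ a, v a = 0 := by
      intro a
      by_cases ha : a ∈ S
      · rw [h1 a ha, h6, h7]; simp
      · apply Complex.ext
        · have := MM_out0 (S := S) (F := F) (a0 := a0) (b0 := b0) (p := p) (v := v) (e := a)
          rw [hx, if_neg ha] at this
          rw [← this]; rfl
        · have := MM_out1 (S := S) (F := F) (a0 := a0) (b0 := b0) (p := p) (v := v) (e := a)
          rw [hx, if_neg ha] at this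
          rw [← this]; rfl
    funext k
    rcases k with k | k
    · change (v k).re = 0; rw [h8]; rfl
    · change (v k).im = 0; rw [h8]; rfl
  · intro h v hv
    obtain ⟨t, ω, κ, h1, h2⟩ := exists_norm hab (v a0) (v b0)
    set v' : V → ℂ := fun a => if a ∈ S then v a - (t + ω * I * p a) else 0 with hv'
    have hmot : Mot F p v' := by
      intro P hP a ha b hb
      simp only [hv']
      rw [if_pos (hF P hP ha), if_pos (hF P hP hb)]
      exact hv.sub_triv t ω P hP a ha b hb
    have h3 : v' a0 = 0 := by simp only [hv']; rw [if_pos ha0, h1]; ring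
    have h4 : v' b0 = κ * (p b0 - p a0) := by simp only [hv']; rw [if_pos hb0, h2]; ring
    have h5 : co v' = 0 := by
      apply h
      funext j
      rcases j with ⟨a, b⟩ | i | e | e
      · by_cases hc : ∃ P ∈ F, a ∈ P ∧ b ∈ P
        · rw [MM_pair hc]
          obtain ⟨P, hP, ha, hb⟩ := hc
          exact hmot P hP a ha b hb
        · rw [MM_pair_zero hc]; rfl
      · fin_cases i
        · change (MM S F a0 b0 (co p)).mulVec (co v') (Sum.inr (Sum.inl 0)) = 0
          rw [MM_pin0, h3]; rfl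
        · change (MM S F a0 b0 (co p)).mulVec (co v') (Sum.inr (Sum.inl 1)) = 0
          rw [MM_pin1, h3]; rfl
        · change (MM S F a0 b0 (co p)).mulVec (co v') (Sum.inr (Sum.inl 2)) = 0
          rw [MM_pin2, h3, h4, sub_zero, ip_smul_right]
          have : ip ((p b0 - p a0) * I) (p b0 - p a0) = 0 := by
            unfold ip; simp; ring
          rw [this, mul_zero]
      · rw [MM_out0]
        simp only [hv']
        split_ifs <;> rfl
      · rw [MM_out1]
        simp only [hv']
        split_ifs <;> rfl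
    refine ⟨t, ω, fun a ha => ?_⟩
    have h6 : v' a = 0 := by
      have h7 : pl (co v') = pl 0 := by rw [h5]
      rw [pl_co] at h7
      rw [h7]; rfl
    simp only [hv'] at h6
    rw [if_pos ha] at h6
    exact sub_eq_zero.mp h6

/-- the Gram matrix of the rigidity matrix -/
noncomputable def GG {R : Type*} [CommRing R] (S : Finset V) (F : Finset (Finset V)) (a0 b0 : V)
    (c : V ⊕ V → R) : Matrix (V ⊕ V) (V ⊕ V) R :=
  (Matrix.transpose (MM S F a0 b0 c) * MM S F a0 b0 c : Matrix (V ⊕ V) (V ⊕ V) R)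

theorem GG_map {R R' : Type*} [CommRing R] [CommRing R'] (f : R →+* R') (S : Finset V)
    (F : Finset (Finset V)) (a0 b0 : V) (c : V ⊕ V → R) :
    (GG S F a0 b0 c).map f = GG S F a0 b0 (fun k => f (c k)) := by
  unfold GG
  rw [Matrix.map_mul, Matrix.transpose_map, MM_map]

/-- the polynomial which detects rigidity -/
noncomputable def DD (S : Finset V) (F : Finset (Finset V)) (a0 b0 : V) :
    MvPolynomial (V ⊕ V) ℚ := (GG S F a0 b0 MvPolynomial.X).det

theorem aeval_DD (S : Finset V) (F : Finset (Finset V)) (a0 b0 : V) (c : V ⊕ V → ℝ) :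
    MvPolynomial.aeval c (DD S F a0 b0) = (GG S F a0 b0 c).det := by
  have h1 : (GG S F a0 b0 (MvPolynomial.X : V ⊕ V → MvPolynomial (V ⊕ V) ℚ)).map
      (MvPolynomial.aeval (R := ℚ) c).toRingHom = GG S F a0 b0 c := by
    rw [GG_map]
    congr 1
    funext k
    exact MvPolynomial.aeval_X _ _
  unfold DD
  have h2 : MvPolynomial.aeval (R := ℚ) c (GG S F a0 b0 MvPolynomial.X).det =
      (MvPolynomial.aeval (R := ℚ) c).toRingHom (GG S F a0 b0 MvPolynomial.X).det := rfl
  rw [h2, RingHom.map_det, RingHom.mapMatrix_apply, h1]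

theorem rig_iff_DD {S : Finset V} {F : Finset (Finset V)} (hF : ∀ P ∈ F, P ⊆ S) {a0 b0 : V}
    (ha0 : a0 ∈ S) (hb0 : b0 ∈ S) {p : V → ℂ} (hab : p a0 ≠ p b0) :
    Rig S F p ↔ MvPolynomial.aeval (co p) (DD S F a0 b0) ≠ 0 := by
  rw [rig_iff hF ha0 hb0 hab, aeval_DD]
  have key : ∀ x : V ⊕ V → ℝ, (GG S F a0 b0 (co p)).mulVec x = 0 ↔
      (MM S F a0 b0 (co p)).mulVec x = 0 := by
    intro x
    have := Matrix.conjTranspose_mul_self_mulVec_eq_zero (MM S F a0 b0 (co p)) x
    rwa [Matrix.conjTranspose_eq_transpose_of_trivial] at this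
  constructor
  · intro h h0
    obtain ⟨x, hx, hx'⟩ := Matrix.exists_mulVec_eq_zero_iff.mpr h0
    exact hx (h x ((key x).mp hx'))
  · intro h x hx
    by_contra hne
    exact h (Matrix.exists_mulVec_eq_zero_iff.mp ⟨x, hne, (key x).mpr hx⟩)

/-- generic placements are rigid as soon as one placement is -/
theorem Gen.rig {S : Finset V} {F : Finset (Finset V)} (hF : ∀ P ∈ F, P ⊆ S) {p0 : V → ℂ}
    {a0 b0 : V} (ha0 : a0 ∈ S) (hb0 : b0 ∈ S) (hab : p0 a0 ≠ p0 b0) (hr : Rig S F p0)
    {p : V → ℂ} (hp : Gen p) : Rig S F p := by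
  have hne : a0 ≠ b0 := fun e => hab (by rw [e])
  rw [rig_iff_DD hF ha0 hb0 (hp.good.1 a0 b0 hne)]
  exact hp.ne ((rig_iff_DD hF ha0 hb0 hab).mp hr)

/-- rigidity is an open condition -/
theorem rig_eventually {S : Finset V} {F : Finset (Finset V)} (hF : ∀ P ∈ F, P ⊆ S) {p : V → ℂ}
    {a0 b0 : V} (ha0 : a0 ∈ S) (hb0 : b0 ∈ S) (hab : p a0 ≠ p b0) (hr : Rig S F p) :
    ∀ᶠ q in 𝓝 p, Rig S F q := by
  have h1 : ∀ᶠ q in 𝓝 p, q a0 - q b0 ≠ 0 := by
    have : ContinuousAt (fun q : V → ℂ => q a0 - q b0) p := by fun_prop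
    exact this.eventually_ne (sub_ne_zero.mpr hab)
  have h2 : ∀ᶠ q in 𝓝 p, MvPolynomial.aeval (co q) (DD S F a0 b0) ≠ 0 :=
    (continuous_aeval_co _).continuousAt.eventually_ne ((rig_iff_DD hF ha0 hb0 hab).mp hr)
  filter_upwards [h1, h2] with q h3 h4
  exact (rig_iff_DD hF ha0 hb0 (sub_ne_zero.mp h3)).mpr h4

end Pool.Agent.helper13.GL
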