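import Mathlib
import Pool.Agent.helper13.GL.RigGen

/-!
# Moving the pieces of a rigid placement
-/

set_option linter.unusedSectionVars false

namespace Pool.Agent.helper13.GL

open Finset Complex
open scoped Topology ComplexConjugate

variable {V : Type*} [DecidableEq V]

/-- parameters: positions and one isometry for each piece -/
abbrev E1 (S : Finset V) (F : Finset (Finset V)) := (↥S → ℂ) × (↥F → ℝ × ℂ)

/-- incidences -/
abbrev J1 (F : Finset (Finset V)) := Σ P : ↥F, ↥(P : Finset V)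

variable {S : Finset V} {F : Finset (Finset V)}

/-- position of a vertex -/
noncomputable def aL (hF : ∀ P ∈ F, P ⊆ S) (j : J1 F) : E1 S F →L[ℝ] ℂ :=
  (ContinuousLinearMap.proj (R := ℝ) (φ := fun _ : ↥S => ℂ)
    ⟨j.2.1, hF j.1.1 j.1.2 j.2.2⟩).comp (ContinuousLinearMap.fst ℝ (↥S → ℂ) (↥F → ℝ × ℂ))

/-- angle of a piece -/
noncomputable def tL (S : Finset V) (j : J1 F) : E1 S F →L[ℝ] ℂ :=
  I • (ofRealCLM.comp ((ContinuousLinearMap.fst ℝ ℝ ℂ).comp
    ((ContinuousLinearMap.proj (R := ℝ) (φ := fun _ : ↥F => ℝ × ℂ) j.1).comp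
      (ContinuousLinearMap.snd ℝ (↥S → ℂ) (↥F → ℝ × ℂ)))))

/-- translation part of a piece -/
noncomputable def gL (S : Finset V) (j : J1 F) : E1 S F →L[ℝ] ℂ :=
  (ContinuousLinearMap.snd ℝ ℝ ℂ).comp
    ((ContinuousLinearMap.proj (R := ℝ) (φ := fun _ : ↥F => ℝ × ℂ) j.1).comp
      (ContinuousLinearMap.snd ℝ (↥S → ℂ) (↥F → ℝ × ℂ)))

theorem aL_apply (hF : ∀ P ∈ F, P ⊆ S) (j : J1 F) (x : E1 S F) :
    aL hF j x = x.1 ⟨j.2.1, hF j.1.1 j.1.2 j.2.2⟩ := rfl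

theorem tL_apply (j : J1 F) (x : E1 S F) : tL S j x = I * ((x.2 j.1).1 : ℂ) := rfl

theorem gL_apply (j : J1 F) (x : E1 S F) : gL S j x = (x.2 j.1).2 := rfl

/-- the shape map -/
noncomputable def Phi (hF : ∀ P ∈ F, P ⊆ S) (u : ↥F → ℂ) (x : E1 S F) : J1 F → ℂ := fun j =>
  u j.1 * (exp (tL S j x) * aL hF j x) + gL S j x

/-- its derivative at a point with vanishing angles -/
noncomputable def Phi' (hF : ∀ P ∈ F, P ⊆ S) (u : ↥F → ℂ) (x0 : E1 S F) :
    E1 S F →L[ℝ] (J1 F → ℂ) :=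
  ContinuousLinearMap.pi fun j => u j.1 • (exp (tL S j x0) • aL hF j +
    aL hF j x0 • (exp (tL S j x0) • tL S j)) + gL S j

theorem Phi_deriv (hF : ∀ P ∈ F, P ⊆ S) (u : ↥F → ℂ) (x0 : E1 S F) :
    HasStrictFDerivAt (Phi hF u) (Phi' hF u x0) x0 := by
  unfold Phi Phi'
  rw [hasStrictFDerivAt_pi]
  intro j
  exact (((tL S j).hasStrictFDerivAt.cexp.mul (aL hF j).hasStrictFDerivAt).const_mul
    (u j.1)).add (gL S j).hasStrictFDerivAt

theorem Phi'_apply (hF : ∀ P ∈ F, P ⊆ S) (u : ↥F → ℂ) (x0 : E1 S F) (h0 : ∀ P, (x0.2 P).1 = 0)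
    (x : E1 S F) (j : J1 F) : Phi' hF u x0 x j =
      u j.1 * (x.1 ⟨j.2.1, hF j.1.1 j.1.2 j.2.2⟩ +
        x0.1 ⟨j.2.1, hF j.1.1 j.1.2 j.2.2⟩ * (I * ((x.2 j.1).1 : ℂ))) + (x.2 j.1).2 := by
  have h1 : tL S j x0 = 0 := by rw [tL_apply, h0]; simp
  unfold Phi'
  rw [ContinuousLinearMap.pi_apply]
  simp only [add_apply, smul_apply, smul_eq_mul, h1,
    exp_zero, one_mul, aL_apply, tL_apply, gL_apply]

/-- inner product as a linear map -/
def ipL (c : ℂ) : ℂ →ₗ[ℝ] ℝ where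
  toFun z := ip c z
  map_add' := ip_add_right c
  map_smul' := fun r z => by
    rw [RingHom.id_apply, Complex.real_smul, ip_smul_right, smul_eq_mul]

/-- three pins -/
noncomputable def pin (F : Finset (Finset V)) (a0 b0 : ↥S) (c : ℂ) : E1 S F →ₗ[ℝ] ℂ × ℝ :=
  LinearMap.prod
    ((LinearMap.proj (R := ℝ) (φ := fun _ : ↥S => ℂ) a0).comp (LinearMap.fst ℝ _ _))
    ((ipL c).comp ((LinearMap.proj (R := ℝ) (φ := fun _ : ↥S => ℂ) b0 -
      LinearMap.proj (R := ℝ) (φ := fun _ : ↥S => ℂ) a0).comp (LinearMap.fst ℝ _ _)))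

theorem pin_apply (a0 b0 : ↥S) (c : ℂ) (x : E1 S F) :
    pin F a0 b0 c x = (x.1 a0, ip c (x.1 b0 - x.1 a0)) := rfl

theorem ker_zero (hF : ∀ P ∈ F, P ⊆ S) {u : ↥F → ℂ} (hu : ∀ P, ip (u P) (u P) = 1)
    {p : V → ℂ} (hr : Rig S F p) (hn : NC F p) {x0 : E1 S F} (h0 : ∀ P, (x0.2 P).1 = 0)
    (hx0 : ∀ a, x0.1 a = p a) {a0 b0 : V} (ha0 : a0 ∈ S) (hb0 : b0 ∈ S) (hab : p a0 ≠ p b0)
    {x : E1 S F} (hx : Phi' hF u x0 x = 0)
    (hpin : pin F (⟨a0, ha0⟩ : ↥S) ⟨b0, hb0⟩ ((p b0 - p a0) * I) x = 0) : x = 0 := by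
  classical
  have hu0 : ∀ P, u P ≠ 0 := by
    intro P h
    have := hu P
    rw [h, ip_zero_left] at this
    exact zero_ne_one this
  set v : V → ℂ := fun a => if h : a ∈ S then x.1 ⟨a, h⟩ else 0 with hv
  have hvS : ∀ a (h : a ∈ S), v a = x.1 ⟨a, h⟩ := fun a h => by simp only [hv]; rw [dif_pos h]
  have heq : ∀ (P : Finset V) (hP : P ∈ F) (a : V) (ha : a ∈ P),
      u ⟨P, hP⟩ * (v a + p a * (I * ((x.2 ⟨P, hP⟩).1 : ℂ))) + (x.2 ⟨P, hP⟩).2 = 0 := by
    intro P hP a ha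
    have h1 := congrFun hx ⟨⟨P, hP⟩, ⟨a, ha⟩⟩
    rw [Phi'_apply hF u x0 h0, hx0] at h1
    rw [hvS a (hF P hP ha)]
    exact h1
  have hdiff : ∀ (P : Finset V) (hP : P ∈ F) (a : V) (_ : a ∈ P) (b : V) (_ : b ∈ P),
      v a - v b = ((-(x.2 ⟨P, hP⟩).1 : ℝ) : ℂ) * I * (p a - p b) := by
    intro P hP a ha b hb
    have h1 := heq P hP a ha
    have h2 := heq P hP b hb
    have h3 : u ⟨P, hP⟩ * ((v a - v b) + (p a - p b) * (I * ((x.2 ⟨P, hP⟩).1 : ℂ))) = 0 := by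
      linear_combination h1 - h2
    have h4 := (mul_eq_zero.mp h3).resolve_left (hu0 _)
    push_cast
    linear_combination h4
  have hmot : Mot F p v := by
    intro P hP a ha b hb
    rw [hdiff P hP a ha b hb, ip_rot]
  obtain ⟨t, ω, h1⟩ := hr v hmot
  rw [pin_apply, Prod.mk_eq_zero] at hpin
  obtain ⟨hp1, hp2⟩ := hpin
  rw [← hvS b0 hb0, ← hvS a0 ha0] at hp2
  rw [← hvS a0 ha0] at hp1
  have h4 : v b0 - v a0 = ω * ((p b0 - p a0) * I) := by
    rw [h1 _ ha0, h1 _ hb0]; ring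
  rw [h4, ip_smul_right] at hp2
  have h5 : ip ((p b0 - p a0) * I) ((p b0 - p a0) * I) ≠ 0 := by
    intro h0
    have := ip_self_eq_zero.mp h0
    rcases mul_eq_zero.mp this with h6 | h6
    · exact hab (sub_eq_zero.mp h6).symm
    · exact I_ne_zero h6
  have h6 : ω = 0 := (mul_eq_zero.mp hp2).resolve_right h5
  have h7 : t = 0 := by
    have := h1 a0 ha0
    rw [hp1, h6] at this; simpa using this.symm
  have h8 : ∀ a ∈ S, v a = 0 := fun a ha => by rw [h1 a ha, h6, h7]; simp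
  have h9 : ∀ (P : Finset V) (hP : P ∈ F), x.2 ⟨P, hP⟩ = 0 := by
    intro P hP
    obtain ⟨a, ha, b, hb, hne⟩ := hn P hP
    have h10 := hdiff P hP a ha b hb
    rw [h8 a (hF P hP ha), h8 b (hF P hP hb), sub_zero] at h10
    have h11 := (mul_eq_zero.mp h10.symm).resolve_right (sub_ne_zero.mpr hne)
    have h12 := (mul_eq_zero.mp h11).resolve_right I_ne_zero
    have h13 : (x.2 ⟨P, hP⟩).1 = 0 := by
      have : (-(x.2 ⟨P, hP⟩).1 : ℝ) = 0 := by exact_mod_cast h12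
      linarith
    have h14 := heq P hP a ha
    rw [h13, h8 a (hF P hP ha)] at h14
    have h15 : (x.2 ⟨P, hP⟩).2 = 0 := by simpa using h14
    exact Prod.ext h13 h15
  apply Prod.ext
  · funext a
    have := h8 a.1 a.2
    rw [hvS a.1 a.2] at this
    exact this
  · funext P
    exact h9 P.1 P.2

theorem finrank_E1 (S : Finset V) (F : Finset (Finset V)) :
    Module.finrank ℝ (E1 S F) = 2 * S.card + 3 * F.card := by
  rw [Module.finrank_prod, Module.finrank_pi_fintype, Module.finrank_pi_fintype]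
  simp only [Complex.finrank_real_complex, Module.finrank_prod, Module.finrank_self, sum_const,
    smul_eq_mul, card_univ, Fintype.card_coe]
  ring

theorem finrank_J1 (F : Finset (Finset V)) :
    Module.finrank ℝ (J1 F → ℂ) = 2 * ∑ P ∈ F, P.card := by
  rw [Module.finrank_pi_fintype]
  simp only [Complex.finrank_real_complex, sum_const, smul_eq_mul, card_univ, Fintype.card_sigma,
    Fintype.card_coe]
  rw [mul_comm]
  congr 1
  exact Finset.sum_coe_sort F (fun P => P.card)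

theorem tight_count (hT : Tight S F) : 2 * S.card + 3 * F.card = 2 * ∑ P ∈ F, P.card + 3 := by
  have h1 := hT.2.2.2
  have h2 : val F S = ∑ P ∈ F, (2 * (P.card : ℤ) - 3) := by
    unfold val
    refine sum_congr rfl fun P hP => ?_
    rw [inter_eq_left.mpr (hT.1.sub P hP), w_of_two (hT.1.two P hP)]
  rw [h2, sum_sub_distrib, ← mul_sum, sum_const, nsmul_eq_mul] at h1
  have h3 : ((∑ P ∈ F, P.card : ℕ) : ℤ) = ∑ P ∈ F, (P.card : ℤ) := by push_cast; rfl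
  rw [← h3] at h1
  omega

theorem Phi'_surj (hT : Tight S F) {u : ↥F → ℂ} (hu : ∀ P, ip (u P) (u P) = 1)
    {p : V → ℂ} (hr : Rig S F p) (hn : NC F p) {x0 : E1 S F} (h0 : ∀ P, (x0.2 P).1 = 0)
    (hx0 : ∀ a, x0.1 a = p a) {a0 b0 : V} (ha0 : a0 ∈ S) (hb0 : b0 ∈ S) (hab : p a0 ≠ p b0) :
    LinearMap.range (Phi' hT.1.sub u x0 : E1 S F →ₗ[ℝ] (J1 F → ℂ)) = ⊤ := by
  set L : E1 S F →ₗ[ℝ] (J1 F → ℂ) := (Phi' hT.1.sub u x0 : E1 S F →ₗ[ℝ] (J1 F → ℂ)) with hL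
  have h1 := L.finrank_range_add_finrank_ker
  have h2 : Module.finrank ℝ (LinearMap.ker L) ≤ 3 := by
    have h3 : Function.Injective
        ((pin F (⟨a0, ha0⟩ : ↥S) ⟨b0, hb0⟩ ((p b0 - p a0) * I)).comp (LinearMap.ker L).subtype) := by
      rw [← LinearMap.ker_eq_bot, LinearMap.ker_eq_bot']
      intro x hx
      apply Subtype.ext
      exact ker_zero hT.1.sub hu hr hn h0 hx0 ha0 hb0 hab (LinearMap.mem_ker.mp x.2) hx
    have h4 := LinearMap.finrank_le_finrank_of_injective h3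
    have h5 : Module.finrank ℝ (ℂ × ℝ) = 3 := by
      rw [Module.finrank_prod, Complex.finrank_real_complex, Module.finrank_self]
    omega
  rw [finrank_E1, tight_count hT] at h1
  apply Submodule.eq_top_of_finrank_eq
  have h6 := Submodule.finrank_le (LinearMap.range L)
  rw [finrank_J1] at h6 ⊢
  omega

end Pool.Agent.helper13.GL
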