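import Mathlib
import Pool.Agent.helper13.GL.OpenMap

/-!
# Moving the pieces of a rigid placement: the theorem
-/

set_option linter.unusedSectionVars false

namespace Pool.Agent.helper13.GL

open Finset Complex
open scoped Topology ComplexConjugate

variable {V : Type*} [DecidableEq V] {S : Finset V} {F : Finset (Finset V)}

/-- identity or conjugation -/
noncomputable def cj (ε : Bool) (z : ℂ) : ℂ := if ε then conj z else z

theorem continuous_cj (ε : Bool) : Continuous (cj ε) := by
  unfold cj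
  cases ε
  · simp only [Bool.false_eq_true, if_false]; exact continuous_id
  · simp only [if_true]; exact Complex.continuous_conj

theorem iso_normal {T : ℂ → ℂ} (h : IsoMap T) :
    ∃ (u g : ℂ) (ε : Bool), ip u u = 1 ∧ ∀ z, u * z + g = cj ε (T z) := by
  obtain ⟨α, β, hα, h | h⟩ := h
  · refine ⟨α, β, false, hα, fun z => ?_⟩
    rw [h]; rfl
  · refine ⟨conj α, conj β, true, by rw [ip_conj_self, hα], fun z => ?_⟩
    rw [h]
    unfold cj
    rw [if_pos rfl, map_add, map_mul, conj_conj]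

theorem iso_of_normal {u g : ℂ} (ε : Bool) (hu : ip u u = 1) :
    ∃ T, IsoMap T ∧ ∀ z w, u * z + g = cj ε w → T z = w := by
  cases ε
  · refine ⟨fun z => u * z + g, ⟨u, g, hu, Or.inl fun z => rfl⟩, fun z w h => ?_⟩
    simp only
    rw [h]; rfl
  · refine ⟨fun z => conj u * conj z + conj g, ⟨conj u, conj g, by rw [ip_conj_self, hu],
      Or.inr fun z => rfl⟩, fun z w h => ?_⟩
    simp only
    have h1 := congrArg conj h
    unfold cj at h1
    rw [if_pos rfl, map_add, map_mul, conj_conj] at h1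
    exact h1

theorem ip_exp (θ : ℝ) : ip (exp (I * θ)) (exp (I * θ)) = 1 := by
  rw [mul_comm I, Complex.exp_mul_I]
  unfold ip
  rw [← Complex.ofReal_cos, ← Complex.ofReal_sin]
  simp only [add_re, add_im, mul_re, mul_im, ofReal_re, ofReal_im, I_re, I_im]
  have := Real.sin_sq_add_cos_sq θ
  nlinarith

/-- small changes of the shapes of the pieces can be followed by a small change of a rigid
placement -/
theorem open_map (hT : Tight S F) {p : V → ℂ} (hr : Rig S F p) (hn : NC F p)
    {s : Finset V → V → ℂ} (hc : ∀ P ∈ F, ∃ T, IsoMap T ∧ ∀ a ∈ P, T (p a) = s P a)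
    {U : Set (V → ℂ)} (hU : U ∈ 𝓝 p) :
    ∀ᶠ s' in 𝓝 s, ∃ p' ∈ U, ∀ P ∈ F, ∃ T, IsoMap T ∧ ∀ a ∈ P, T (p' a) = s' P a := by
  classical
  have hF := hT.1.sub
  -- two distinct points
  have hFne : ∃ P, P ∈ F := by
    by_contra hno
    have h1 := hT.2.2.2
    have h2 : val F S = 0 := by
      unfold val
      apply sum_eq_zero
      intro P hP
      exact absurd ⟨P, hP⟩ hno
    have := hT.2.2.1
    omega
  obtain ⟨P0, hP0⟩ := hFne
  obtain ⟨a0, ha0, b0, hb0, hab⟩ := hn P0 hP0
  replace ha0 := hF P0 hP0 ha0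
  replace hb0 := hF P0 hP0 hb0
  have hnorm : ∀ P : ↥F, ∃ (u g : ℂ) (ε : Bool), ip u u = 1 ∧
      ∀ a ∈ (P : Finset V), u * p a + g = cj ε (s P a) := by
    intro P
    obtain ⟨T, hT1, h1⟩ := hc P.1 P.2
    obtain ⟨u, g, ε, hu, h2⟩ := iso_normal hT1
    exact ⟨u, g, ε, hu, fun a ha => by rw [h2, h1 a ha]⟩
  choose u g ε hu hug using hnorm
  set x0 : E1 S F := (fun a => p a, fun P => (0, g P)) with hx0
  set y : (Finset V → V → ℂ) → J1 F → ℂ := fun s' j => cj (ε j.1) (s' j.1 j.2) with hy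
  have hycont : Continuous y := by
    apply continuous_pi
    intro j
    have h1 : Continuous (fun s' : Finset V → V → ℂ => s' j.1 j.2) := by fun_prop
    exact (continuous_cj (ε j.1)).comp h1
  have hΦ0 : Phi hF u x0 = y s := by
    funext j
    unfold Phi
    rw [tL_apply, aL_apply, gL_apply]
    simp only [hx0, hy]
    rw [Complex.ofReal_zero, mul_zero, exp_zero, one_mul]
    exact hug j.1 j.2.1 j.2.2
  have hmap := (Phi_deriv hF u x0).map_nhds_eq_of_surj
    (Phi'_surj hT hu hr hn (x0 := x0) (fun P => rfl) (fun a => rfl) ha0 hb0 hab)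
  set ex : (↥S → ℂ) → V → ℂ := fun w a => if h : a ∈ S then w ⟨a, h⟩ else p a with hex
  have hexc : Continuous ex := by
    apply continuous_pi
    intro a
    simp only [hex]
    by_cases ha : a ∈ S
    · simp only [dif_pos ha]; fun_prop
    · simp only [dif_neg ha]; fun_prop
  have hex0 : ex x0.1 = p := by
    funext a
    simp only [hex, hx0]
    split_ifs <;> rfl
  have hU' : {x : E1 S F | ex x.1 ∈ U} ∈ 𝓝 x0 := by
    have h1 : Continuous (fun x : E1 S F => ex x.1) := hexc.comp continuous_fst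
    apply h1.continuousAt
    change U ∈ 𝓝 (ex x0.1)
    rw [hex0]; exact hU
  have himg := Filter.image_mem_map (m := Phi hF u) hU'
  rw [hmap, hΦ0] at himg
  filter_upwards [hycont.continuousAt himg] with s' hs'
  obtain ⟨x, hxU, hx⟩ := hs'
  refine ⟨ex x.1, hxU, fun P hP => ?_⟩
  obtain ⟨T, hT1, h1⟩ := iso_of_normal (u := u ⟨P, hP⟩ * exp (I * (x.2 ⟨P, hP⟩).1))
    (g := (x.2 ⟨P, hP⟩).2) (ε ⟨P, hP⟩) (by rw [ip_mul_self, hu, ip_exp, one_mul])
  refine ⟨T, hT1, fun a ha => h1 _ _ ?_⟩
  have h2 := congrFun hx ⟨⟨P, hP⟩, ⟨a, ha⟩⟩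
  unfold Phi at h2
  rw [tL_apply, aL_apply, gL_apply] at h2
  simp only [hy] at h2
  rw [← h2]
  simp only [hex]
  rw [dif_pos (hF P hP ha)]
  ring

/-- the version for pieces of a second placement -/
theorem open_cong (hT : Tight S F) {p q : V → ℂ} (hr : Rig S F p) (hn : NC F p)
    (hc : Cong F p q) {U : Set (V → ℂ)} (hU : U ∈ 𝓝 p) :
    ∀ᶠ q' in 𝓝 q, ∃ p' ∈ U, Cong F p' q' := by
  have h1 := open_map hT hr hn (s := fun _ => q) hc hU
  have h2 : Continuous (fun q' : V → ℂ => (fun _ : Finset V => q')) := by fun_prop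
  filter_upwards [h2.continuousAt h1] with q' hq'
  exact hq'

/-- stretching one bar -/
theorem stretch (hT : Tight S F) {p : V → ℂ} (hr : Rig S F p) (hn : NC F p) {x y : V}
    (hxy : ({x, y} : Finset V) ∈ F) (hpxy : p x ≠ p y) {U : Set (V → ℂ)} (hU : U ∈ 𝓝 p) :
    ∃ q ∈ U, Cong (F.erase {x, y}) p q ∧
      ip (p x - p y) (p x - p y) ≠ ip (q x - q y) (q x - q y) := by
  classical
  set s : ℝ → Finset V → V → ℂ := fun δ P a =>
    if P = {x, y} ∧ a = x then p x + δ * (p x - p y) else p a with hs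
  have hs0 : ∀ P a, s 0 P a = p a := by
    intro P a
    simp only [hs]
    split_ifs with h
    · rw [h.2]; simp
    · rfl
  have hcont : Continuous s := by
    apply continuous_pi; intro P
    apply continuous_pi; intro a
    simp only [hs]
    by_cases h : P = {x, y} ∧ a = x
    · simp only [if_pos h]; fun_prop
    · simp only [if_neg h]; fun_prop
  have h1 := open_map hT hr hn (s := s 0) (fun P _ => ⟨fun z => 1 * z + 0,
    ⟨1, 0, by simp [ip], Or.inl fun z => rfl⟩, fun a _ => by rw [hs0]; ring⟩) hU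
  have h2 := hcont.continuousAt h1
  obtain ⟨ε, hε, hball⟩ := Metric.mem_nhds_iff.mp h2
  have hmem : (ε / 2) ∈ Metric.ball (0 : ℝ) ε := by
    rw [Metric.mem_ball, Real.dist_eq, sub_zero, abs_of_pos (by positivity)]; linarith
  obtain ⟨q, hqU, hq⟩ := hball hmem
  have hne : x ≠ y := fun e => hpxy (by rw [e])
  refine ⟨q, hqU, ?_, ?_⟩
  · have : Cong (F.erase {x, y}) q p := by
      intro P hP
      obtain ⟨hPne, hPF⟩ := mem_erase.mp hP
      obtain ⟨T, hT1, h3⟩ := hq P hPF
      refine ⟨T, hT1, fun a ha => ?_⟩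
      rw [h3 a ha]
      simp only [hs]
      rw [if_neg (fun h => hPne h.1)]
    exact this.symm
  · obtain ⟨T, hT1, h3⟩ := hq _ hxy
    have h4 := hT1.isom (q x) (q y)
    rw [h3 x (by simp), h3 y (by simp)] at h4
    simp only [hs] at h4
    rw [if_pos (by simp), if_neg (fun h => hne h.2.symm)] at h4
    rw [← h4]
    have e : p x + ((ε / 2 : ℝ) : ℂ) * (p x - p y) - p y = ((1 + ε / 2 : ℝ) : ℂ) * (p x - p y) := by
      push_cast; ring
    rw [e, ip_smul_left, ip_smul_right]
    have h5 : 0 < ip (p x - p y) (p x - p y) := lt_of_le_of_ne (ip_self_nonneg _)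
      fun h0 => hpxy (sub_eq_zero.mp (ip_self_eq_zero.mp h0.symm))
    intro h6
    have h7 : (1 + ε / 2) * (1 + ε / 2) = 1 := by
      have : ((1 + ε / 2) * (1 + ε / 2) - 1) * ip (p x - p y) (p x - p y) = 0 := by linarith
      have := (mul_eq_zero.mp this).resolve_right h5.ne'
      linarith
    nlinarith

end Pool.Agent.helper13.GL
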