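import Mathlib
import Pool.Agent.helper13.GL.OpenMap2
import Pool.Agent.helper13.GL.ExtT

/-!
# Rigid placements and witnesses
-/

set_option linter.unusedSectionVars false

namespace Pool.Agent.helper13.GL

open Finset Complex
open scoped Topology ComplexConjugate

variable {V : Type*} [DecidableEq V] [Fintype V] {S : Finset V} {F : Finset (Finset V)}

/-- equal distances within the pieces -/
def Eqd (F : Finset (Finset V)) (p q : V → ℂ) : Prop :=
  ∀ P ∈ F, ∀ a ∈ P, ∀ b ∈ P, ip (p a - p b) (p a - p b) = ip (q a - q b) (q a - q b)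

theorem Cong.eqd {p q : V → ℂ} (h : Cong F p q) : Eqd F p q :=
  fun _ hP _ ha _ hb => h.ip_eq hP ha hb

theorem ip_sum_diff (A B : ℂ) : ip (A + B) (A - B) = ip A A - ip B B := by
  unfold ip; simp only [add_re, add_im, sub_re, sub_im]; ring

/-- infinitesimal rigidity implies local rigidity -/
theorem local_rigid (hF : ∀ P ∈ F, P ⊆ S) {p : V → ℂ} {a0 b0 : V} (ha0 : a0 ∈ S) (hb0 : b0 ∈ S)
    (hab : p a0 ≠ p b0) (hr : Rig S F p) :
    ∀ᶠ q in 𝓝 p, Eqd F p q → ∀ a ∈ S, ∀ b ∈ S,
      ip (p a - p b) (p a - p b) = ip (q a - q b) (q a - q b) := by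
  have h1 := rig_eventually hF ha0 hb0 hab hr
  have h2 : Continuous (fun q : V → ℂ => (fun a => (p a + q a) / 2)) := by fun_prop
  have h3 : (fun a => (p a + p a) / 2) = p := by funext a; ring
  have h4 : ∀ᶠ q in 𝓝 p, Rig S F (fun a => (p a + q a) / 2) := by
    have h5 : {q | Rig S F q} ∈ 𝓝 ((fun q : V → ℂ => (fun a => (p a + q a) / 2)) p) := by
      change {q | Rig S F q} ∈ 𝓝 (fun a => (p a + p a) / 2)
      rw [h3]; exact h1
    exact h2.continuousAt h5
  filter_upwards [h4] with q hq heq a ha b hb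
  have hmot : Mot F (fun a => (p a + q a) / 2) (fun a => (p a - q a) / 2) := by
    intro P hP a ha b hb
    have h5 := heq P hP a ha b hb
    have e1 : (p a + q a) / 2 - (p b + q b) / 2 = ((1 / 2 : ℝ) : ℂ) * ((p a - p b) + (q a - q b)) := by
      push_cast; ring
    have e2 : (p a - q a) / 2 - (p b - q b) / 2 = ((1 / 2 : ℝ) : ℂ) * ((p a - p b) - (q a - q b)) := by
      push_cast; ring
    simp only
    rw [e1, e2, ip_smul_left, ip_smul_right, ip_sum_diff, h5]
    ring
  obtain ⟨t, ω, h6⟩ := hq _ hmot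
  have h7 := h6 a ha
  have h8 := h6 b hb
  have h9 : (p a - p b) - (q a - q b) = ω * I * ((p a - p b) + (q a - q b)) := by
    linear_combination 2 * h7 - 2 * h8
  have h10 : ip ((p a - p b) + (q a - q b)) ((p a - p b) - (q a - q b)) = 0 := by
    rw [h9, ip_rot]
  rw [ip_sum_diff] at h10
  linarith

theorem Tight.nonempty (hT : Tight S F) : ∃ P, P ∈ F := by
  by_contra hno
  have h1 := hT.2.2.2
  have h2 : val F S = 0 := by
    unfold val
    apply sum_eq_zero
    intro P hP
    exact absurd ⟨P, hP⟩ hno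
  have := hT.2.2.1
  omega

theorem Tight.two_points (hT : Tight S F) {p : V → ℂ} (hn : NC F p) :
    ∃ a ∈ S, ∃ b ∈ S, p a ≠ p b := by
  obtain ⟨P, hP⟩ := hT.nonempty
  obtain ⟨a, ha, b, hb, hab⟩ := hn P hP
  exact ⟨a, hT.1.sub P hP ha, b, hT.1.sub P hP hb, hab⟩

theorem exists_gen' : ∃ p : V → ℂ, Gen p := by
  obtain ⟨q, _, h⟩ := exists_gen (p := fun _ : V => (0 : ℂ)) (U := Set.univ) Filter.univ_mem
  exact ⟨q, h⟩

theorem mem_of_card_two (hT : Tight S F) (h2 : S.card = 2) : S ∈ F := by
  obtain ⟨P, hP⟩ := hT.nonempty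
  have h3 := hT.1.two P hP
  have : P = S := eq_of_subset_of_card_le (hT.1.sub P hP) (by omega)
  rw [← this]; exact hP

/-- **every tight structure is rigid at all generic placements** -/
theorem rig_gen (hT : Tight S F) {p : V → ℂ} (hp : Gen p) : Rig S F p := by
  obtain ⟨n, hn⟩ : ∃ n, S.card = n := ⟨_, rfl⟩
  induction n using Nat.strong_induction_on generalizing S F p with
  | _ n ih =>
    by_cases h3 : 3 ≤ S.card
    · -- one rigid placement is enough
      suffices hex : ∃ p0, Rig S F p0 ∧ NC F p0 by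
        obtain ⟨p0, h4, h5⟩ := hex
        obtain ⟨a, ha, b, hb, hab⟩ := hT.two_points h5
        exact hp.rig hT.1.sub ha hb hab h4
      obtain ⟨x, hx, y, hy, hxy⟩ := one_lt_card.mp (by omega : 1 < S.card)
      obtain ⟨z, hz, _, _, hl2, hl3⟩ := exists_low hT h3 hx hy hxy
      have hcard := card_erase_of_mem hz
      rcases (by omega : loss F z = 2 ∨ loss F z = 3) with hl | hl
      · have h4 := ih _ (by omega) (tight_of_loss_two hT h3 hz hl) hp rfl
        obtain ⟨Z, Z', _, h6, h7⟩ := ext_two hT.1 hl hp.good hp.good h4 (Cong.refl _ _)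
        exact ⟨_, h6, h7⟩
      · obtain ⟨a, ha, b, hb, hab⟩ := exists_addable hT hz hl
        have h4 := ih _ (by omega) (tight_of_addable hT h3 hz hl hab) hp rfl
        obtain ⟨Z, Z', _, h6, h7⟩ := ext_three hT.1 hl ha hb hab hp.good hp.good h4 (Cong.refl _ _)
        exact ⟨_, h6, h7⟩
    · have h2 : S.card = 2 := by have := hT.2.2.1; omega
      have hS := mem_of_card_two hT h2
      obtain ⟨a, b, hab, rfl⟩ := card_eq_two.mp h2
      intro v hv
      obtain ⟨t, ω, h4, h5⟩ := exists_triv (hp.good.1 a b hab) (hv _ hS a (by simp) b (by simp))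
      refine ⟨t, ω, fun d hd => ?_⟩
      simp only [mem_insert, mem_singleton] at hd
      rcases hd with rfl | rfl
      · exact sub_eq_zero.mp h4
      · exact sub_eq_zero.mp h5

/-- a witness that the distance `xy` is not determined -/
def Wit (S : Finset V) (F : Finset (Finset V)) (x y : V) (p q : V → ℂ) : Prop :=
  Rig S F p ∧ NC F p ∧ Cong F p q ∧ ip (p x - p y) (p x - p y) ≠ ip (q x - q y) (q x - q y)

/-- normalisation of witnesses -/
theorem Wit.normal (hT : Tight S F) {x y : V} {p q : V → ℂ} (h : Wit S F x y p q) :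
    ∃ p' q', Gen p' ∧ Good q' ∧ Wit S F x y p' q' := by
  obtain ⟨hr, hn, hc, hne⟩ := h
  -- the two distances stay different
  have hcont : Continuous (fun r : (V → ℂ) × (V → ℂ) =>
      ip (r.1 x - r.1 y) (r.1 x - r.1 y) - ip (r.2 x - r.2 y) (r.2 x - r.2 y)) := by
    unfold ip; fun_prop
  have hopen : ∀ p q : V → ℂ, ip (p x - p y) (p x - p y) ≠ ip (q x - q y) (q x - q y) →
      ∃ U ∈ 𝓝 p, ∃ W ∈ 𝓝 q, ∀ p' ∈ U, ∀ q' ∈ W,
        ip (p' x - p' y) (p' x - p' y) ≠ ip (q' x - q' y) (q' x - q' y) := by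
    intro p q hne
    have h1 := (hcont.continuousAt (x := (p, q))).eventually_ne (sub_ne_zero.mpr hne)
    rw [nhds_prod_eq] at h1
    obtain ⟨U, hU, W, hW, h2⟩ := Filter.mem_prod_iff.mp h1
    refine ⟨U, hU, W, hW, fun p' hp' q' hq' => ?_⟩
    exact sub_ne_zero.mp (h2 (Set.mk_mem_prod hp' hq'))
  -- first step
  obtain ⟨U, hU, W, hW, hUW⟩ := hopen p q hne
  obtain ⟨q1, ⟨hq1W, p1, hp1U, hc1⟩, hq1⟩ :=
    exists_gen (Filter.inter_mem hW (open_cong hT hr hn hc hU))
  have hne1 := hUW p1 hp1U q1 hq1W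
  obtain ⟨a, ha, b, hb, hab⟩ := hT.two_points hn
  have hrq1 : Rig S F q1 := rig_gen hT hq1
  have hnq1 : NC F q1 := NC.of_good hq1.good hT.1.two
  -- second step
  obtain ⟨U1, hU1, W1, hW1, hUW1⟩ := hopen p1 q1 hne1
  obtain ⟨p2, ⟨hp2U, q2, ⟨hq2W, hq2g⟩, hc2⟩, hp2⟩ :=
    exists_gen (Filter.inter_mem hU1 (open_cong hT hrq1 hnq1 hc1.symm
      (Filter.inter_mem hW1 (good_eventually hq1.good))))
  exact ⟨p2, q2, hp2, hq2g, rig_gen hT hp2, NC.of_good hp2.good hT.1.two, hc2.symm,
    hUW1 p2 hp2U q2 hq2W⟩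

theorem mot_sub {X : Finset V} {p v : V → ℂ} (h : Mot F p v) : Mot (res F X) p v := by
  intro P hP a ha b hb
  obtain ⟨_, Q, hQ, rfl⟩ := mem_res.mp hP
  exact h Q hQ a (mem_inter.mp ha).1 b (mem_inter.mp hb).1

theorem eqd_sub {X : Finset V} {p q : V → ℂ} (h : Eqd F p q) : Eqd (res F X) p q := by
  intro P hP a ha b hb
  obtain ⟨_, Q, hQ, rfl⟩ := mem_res.mp hP
  exact h Q hQ a (mem_inter.mp ha).1 b (mem_inter.mp hb).1

/-- **if `x,y` are in no common piece of a tight structure then there is a witness** -/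
theorem exists_wit (hT : Tight S F) {x y : V} (hx : x ∈ S) (hy : y ∈ S) (hxy : x ≠ y)
    (hno : ∀ P ∈ F, x ∈ P → y ∈ P → False) : ∃ p q, Wit S F x y p q := by
  obtain ⟨n, hn⟩ : ∃ n, S.card = n := ⟨_, rfl⟩
  induction n using Nat.strong_induction_on generalizing S F with
  | _ n ih =>
    by_cases h3 : 3 ≤ S.card
    · obtain ⟨z, hz, hzx, hzy, hl2, hl3⟩ := exists_low hT h3 hx hy hxy
      have hcard := card_erase_of_mem hz
      have hx' : x ∈ S.erase z := mem_erase.mpr ⟨hzx.symm, hx⟩
      have hy' : y ∈ S.erase z := mem_erase.mpr ⟨hzy.symm, hy⟩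
      have hno' : ∀ P ∈ res F (S.erase z), x ∈ P → y ∈ P → False := by
        intro P hP h4 h5
        obtain ⟨_, Q, hQ, rfl⟩ := mem_res.mp hP
        exact hno Q hQ (mem_inter.mp h4).1 (mem_inter.mp h5).1
      rcases (by omega : loss F z = 2 ∨ loss F z = 3) with hl | hl
      · have hT0 := tight_of_loss_two hT h3 hz hl
        obtain ⟨p0, q0, h4⟩ := ih _ (by omega) hT0 hx' hy' hno' rfl
        obtain ⟨p, q, hp, hq, hr, _, hc, hne⟩ := h4.normal hT0
        obtain ⟨Z, Z', h5, h6, h7⟩ := ext_two hT.1 hl hp.good hq hr hc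
        refine ⟨_, _, h6, h7, h5, ?_⟩
        rw [upd_ne hzx.symm, upd_ne hzy.symm, upd_ne hzx.symm, upd_ne hzy.symm]
        exact hne
      · rcases exists_addable_ne hT hz hl x y with ⟨a, ha, b, hb, hab, hne'⟩ |
          ⟨d, hN, hdx, hdy, hadd, ⟨X, hX, hxX, hdX⟩, ⟨Y, hY, hyY, hdY⟩⟩
        · have hT0 := tight_of_addable hT h3 hz hl hab
          obtain ⟨p0, q0, h4⟩ := ih _ (by omega) hT0 hx' hy' (by
            intro P hP h5 h6
            rcases mem_insert.mp hP with rfl | hP
            · apply hne'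
              simp only [mem_insert, mem_singleton] at h5 h6
              rcases h5 with rfl | rfl <;> rcases h6 with rfl | rfl
              · exact absurd rfl hxy
              · rfl
              · exact pair_comm _ _
              · exact absurd rfl hxy
            · exact hno' P hP h5 h6) rfl
          obtain ⟨p, q, hp, hq, hr, _, hc, hne⟩ := h4.normal hT0
          obtain ⟨Z, Z', h5, h6, h7⟩ := ext_three hT.1 hl ha hb hab hp.good hq hr hc
          refine ⟨_, _, h6, h7, h5, ?_⟩
          rw [upd_ne hzx.symm, upd_ne hzy.symm, upd_ne hzx.symm, upd_ne hzy.symm]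
          exact hne
        · -- the special case
          have hT0 := tight_of_addable hT h3 hz hl hadd
          have hs := sparse_res hT.1 (erase_subset z S)
          obtain ⟨p, hp⟩ := exists_gen' (V := V)
          have hr := rig_gen hT0 hp
          have hnc := NC.of_good hp.good hT0.1.two
          have hTX := tight_res hs hX
          have hTY := tight_res hs hY
          have hrX := rig_gen hTX hp
          have hrY := rig_gen hTY hp
          have hlX := local_rigid hTX.1.sub hxX hdX (hp.good.1 x d hdx.symm) hrX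
          have hlY := local_rigid hTY.1.sub hyY hdY (hp.good.1 y d hdy.symm) hrY
          obtain ⟨q, ⟨hqX, hqY⟩, hc, hne⟩ := stretch hT0 hr hnc (mem_insert_self _ _)
            (hp.good.1 x y hxy) (Filter.inter_mem hlX hlY)
          rw [erase_insert (hadd.notMem hs)] at hc
          have e1 := hqX (eqd_sub hc.eqd) x hxX d hdX
          have e2 := hqY (eqd_sub hc.eqd) y hyY d hdY
          have key : ∀ (X : Finset V) (_ : Rig X (res (res F (S.erase z)) X) p) (c : V)
              (_ : c ∈ X) (d : V) (_ : d ∈ X) (v : V → ℂ) (_ : Mot (res F (S.erase z)) p v),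
              ip (p c - p d) (v c - v d) = 0 := by
            intro X hrX c hc d hd v hv
            obtain ⟨t, ω, h8⟩ := hrX v (mot_sub hv)
            rw [h8 c hc, h8 d hd]
            have : t + ω * I * p c - (t + ω * I * p d) = ω * I * (p c - p d) := by ring
            rw [this, ip_rot]
          obtain ⟨Z, Z', h5, h6, h7⟩ := ext_T hT.1 hN hdx hdy hadd hp.good hr hc e1 e2 hne
            (key X hrX x hxX d hdX) (key Y hrY y hyY d hdY)
          refine ⟨_, _, h6, h7, h5, ?_⟩
          rw [upd_ne hzx.symm, upd_ne hzy.symm, upd_ne hzx.symm, upd_ne hzy.symm]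
          exact hne
    · exfalso
      have h2 : S.card = 2 := by have := hT.2.2.1; omega
      exact hno S (mem_of_card_two hT h2) hx hy

end Pool.Agent.helper13.GL
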