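import Mathlib
import Pool.Agent.helper13.GL.Main

/-!
# Globally linked pairs
-/

namespace Pool.Agent.helper13.GL

open Finset Complex
open scoped Topology

variable {V : Type*} [Fintype V]

theorem rigid_of_tight [DecidableEq V] {W : Finset V} {H : Finset (Finset V)} (hT : Tight W H)
    {p : V → ℂ} (hp : Gen p) : ∃ ε : ℝ, 0 < ε ∧ ∀ q : V → ℂ,
      (∀ e ∈ H, ∀ a ∈ e, ∀ b ∈ e, dist (q a) (q b) = dist (p a) (p b)) →
      (∀ v ∈ W, dist (p v) (q v) < ε) →
      ∀ u ∈ W, ∀ v ∈ W, dist (q u) (q v) = dist (p u) (p v) := by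
  obtain ⟨a0, ha0, b0, hb0, hab⟩ := hT.two_points (NC.of_good hp.good hT.1.two)
  obtain ⟨ε, hε, hball⟩ := Metric.mem_nhds_iff.mp
    (local_rigid hT.1.sub ha0 hb0 hab (rig_gen hT hp))
  refine ⟨ε, hε, fun q hq hd u hu v hv => ?_⟩
  set q' : V → ℂ := fun a => if a ∈ W then q a else p a with hq'
  have hmem : q' ∈ Metric.ball p ε := by
    rw [Metric.mem_ball, dist_pi_lt_iff hε]
    intro a
    simp only [hq']
    split_ifs with ha
    · rw [dist_comm]; exact hd a ha
    · rw [dist_self]; exact hε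
  have hval : ∀ a ∈ W, q' a = q a := fun a ha => by simp only [hq']; rw [if_pos ha]
  have h1 := hball hmem (by
    intro P hP a ha b hb
    rw [hval a (hT.1.sub P hP ha), hval b (hT.1.sub P hP hb), ← dist_eq_iff]
    exact (hq P hP a ha b hb).symm) u hu v hv
  rw [hval u hu, hval v hv, ← dist_eq_iff] at h1
  exact h1.symm

theorem final (G : SimpleGraph V) (x y : V) (hxy : x ≠ y)
    (hGL : ∀ p : V → ℂ, Gen p → ∀ q : V → ℂ,
      (∀ u v : V, G.Adj u v → dist (q u) (q v) = dist (p u) (p v)) →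
      dist (q x) (q y) = dist (p x) (p y)) :
    G.Adj x y ∨ ∃ W : Finset V, x ∈ W ∧ y ∈ W ∧
      (∀ p : V → ℂ, Gen p → ∃ ε : ℝ, 0 < ε ∧ ∀ q : V → ℂ,
          (∀ u ∈ W, ∀ v ∈ W, G.Adj u v → dist (q u) (q v) = dist (p u) (p v)) →
          (∀ v ∈ W, dist (p v) (q v) < ε) →
          ∀ u ∈ W, ∀ v ∈ W, dist (q u) (q v) = dist (p u) (p v)) ∧
      (∀ a ∈ W, ∀ b ∈ W, G.Adj a b →
        ∀ p : V → ℂ, Gen p → ∃ ε : ℝ, 0 < ε ∧ ∀ q : V → ℂ,
            (∀ u ∈ W, ∀ v ∈ W, G.Adj u v → s(u, v) ≠ s(a, b) →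
              dist (q u) (q v) = dist (p u) (p v)) →
            (∀ v ∈ W, dist (p v) (q v) < ε) →
            ∀ u ∈ W, ∀ v ∈ W, dist (q u) (q v) = dist (p u) (p v)) := by
  classical
  by_contra hcon
  rw [not_or] at hcon
  obtain ⟨hnadj, hnW⟩ := hcon
  set E : Finset (Finset V) := univ.filter (fun e => ∃ u v, G.Adj u v ∧ e = {u, v}) with hEdef
  have memE : ∀ e, e ∈ E ↔ ∃ u v, G.Adj u v ∧ e = {u, v} := by
    intro e; rw [hEdef, mem_filter]; simp
  have hE : ∀ e ∈ E, e.card = 2 := by
    intro e he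
    obtain ⟨u, v, huv, rfl⟩ := (memE e).mp he
    exact card_pair huv.ne
  obtain ⟨F, hF⟩ := exists_opt E hE
  have hs := hF.sparse
  -- distances inside edges
  have hedge : ∀ (p q : V → ℂ) (e : Finset V), (∃ u v, e = {u, v} ∧
      dist (q u) (q v) = dist (p u) (p v)) → ∀ a ∈ e, ∀ b ∈ e,
      dist (q a) (q b) = dist (p a) (p b) := by
    rintro p q e ⟨u, v, rfl, h⟩ a ha b hb
    simp only [mem_insert, mem_singleton] at ha hb
    rcases ha with rfl | rfl <;> rcases hb with rfl | rfl
    · rw [dist_self, dist_self]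
    · exact h
    · rw [dist_comm, h, dist_comm]
    · rw [dist_self, dist_self]
  -- `x` and `y` are in no common piece
  have hno : ∀ P ∈ F, x ∈ P → y ∈ P → False := by
    intro P hP hx hy
    by_cases h2 : P.card = 2
    · have h1 := hF.bar_mem hE hP h2
      obtain ⟨u, v, huv, he⟩ := (memE P).mp h1
      rw [he] at hx hy
      simp only [mem_insert, mem_singleton] at hx hy
      rcases hx with rfl | rfl <;> rcases hy with rfl | rfl
      · exact hxy rfl
      · exact hnadj huv
      · exact hnadj huv.symm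
      · exact hxy rfl
    · have h3 : 3 ≤ P.card := by have := hs.two P hP; omega
      -- redundant rigidity
      have hred : ∀ a ∈ P, ∀ b ∈ P, G.Adj a b →
          ∀ p : V → ℂ, Gen p → ∃ ε : ℝ, 0 < ε ∧ ∀ q : V → ℂ,
            (∀ u ∈ P, ∀ v ∈ P, G.Adj u v → s(u, v) ≠ s(a, b) →
              dist (q u) (q v) = dist (p u) (p v)) →
            (∀ v ∈ P, dist (p v) (q v) < ε) →
            ∀ u ∈ P, ∀ v ∈ P, dist (q u) (q v) = dist (p u) (p v) := by
        intro a ha b hb hab p hp
        obtain ⟨H, hHE, hfH, hHT⟩ := hF.redundant hE hP h3 {a, b} ((memE _).mpr ⟨a, b, hab, rfl⟩)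
          (by
            intro c hc
            simp only [mem_insert, mem_singleton] at hc
            rcases hc with rfl | rfl <;> assumption)
        obtain ⟨ε, hε, h4⟩ := rigid_of_tight hHT hp
        refine ⟨ε, hε, fun q hq hd => h4 q ?_ hd⟩
        intro e he
        apply hedge
        obtain ⟨u, v, huv, rfl⟩ := (memE e).mp (hHE he)
        have hsub := hHT.1.sub _ he
        refine ⟨u, v, rfl, hq u (hsub (by simp)) v (hsub (by simp)) huv ?_⟩
        intro h5
        apply hfH
        have h6 : ({u, v} : Finset V) = {a, b} := by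
          rcases Sym2.eq_iff.mp h5 with ⟨rfl, rfl⟩ | ⟨rfl, rfl⟩
          · rfl
          · exact pair_comm _ _
        rw [← h6]; exact he
      apply hnW
      refine ⟨P, hx, hy, ?_, hred⟩
      intro p hp
      obtain ⟨f, hf, hfP⟩ := hF.exists_edge hP
      obtain ⟨u, v, huv, rfl⟩ := (memE f).mp hf
      obtain ⟨ε, hε, h4⟩ := hred u (hfP (by simp)) v (hfP (by simp)) huv p hp
      exact ⟨ε, hε, fun q hq hd => h4 q (fun u hu v hv huv _ => hq u hu v hv huv) hd⟩
  -- congruent placements contradict global linkedness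
  have hkey : ∀ p q : V → ℂ, Gen p → Cong F p q →
      ip (p x - p y) (p x - p y) ≠ ip (q x - q y) (q x - q y) → False := by
    intro p q hp hc hne
    apply hne
    rw [← dist_eq_iff]
    refine (hGL p hp q fun u v huv => ?_).symm
    obtain ⟨P, hP, heP⟩ := hF.cov.2 {u, v} ((memE _).mpr ⟨u, v, huv, rfl⟩)
    exact (hc.dist_eq hP (heP (by simp)) (heP (by simp))).symm
  have hV2 : 2 ≤ (univ : Finset V).card := by
    rw [← card_pair hxy]; exact card_le_card (subset_univ _)
  by_cases hadd : Addable univ F x y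
  · obtain ⟨F', hFF', hT, _⟩ := exists_tight (hadd.sparse hs) hV2
    obtain ⟨p, hp⟩ := exists_gen' (V := V)
    obtain ⟨q, _, hc, hne⟩ := stretch hT (rig_gen hT hp) (NC.of_good hp.good hT.1.two)
      (hFF' (mem_insert_self _ _)) (hp.good.1 x y hxy) (U := Set.univ) Filter.univ_mem
    refine hkey p q hp (hc.mono fun P hP => mem_erase.mpr ⟨?_, hFF' (mem_insert_of_mem hP)⟩) hne
    rintro rfl
    exact hadd.notMem hs hP
  · obtain ⟨F', hFF', hT, hnew⟩ := exists_tight hs hV2
    obtain ⟨p0, q0, hw⟩ := exists_wit hT (mem_univ x) (mem_univ y) hxy (by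
      intro P hP hx hy
      rcases hnew P hP with h1 | ⟨a, b, rfl, hab⟩
      · exact hno P h1 hx hy
      · apply hadd
        simp only [mem_insert, mem_singleton] at hx hy
        rcases hx with rfl | rfl <;> rcases hy with rfl | rfl
        · exact absurd rfl hxy
        · exact hab
        · exact hab.symm
        · exact absurd rfl hxy)
    obtain ⟨p, q, hp, _, _, _, hc, hne⟩ := hw.normal hT
    exact hkey p q hp (hc.mono hFF') hne

end Pool.Agent.helper13.GL
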