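import Pool.Agent.helper55.GL.Spec

/-! # Project gl (MP_51d945_co): module FLP (exchange of rows and columns) -/

set_option autoImplicit false

namespace Pool.Agent.GL

open SimpleGraph

theorem FLP_cp {V : Type} (H : SimpleGraph V) (c : V → Bool) (S : Set V) {n : ℕ}
    (B : Finset (Fin n × Fin n))
    (h : Cp H c S (B.map (Equiv.prodComm (Fin n) (Fin n)).toEmbedding)) :
    Cp H (fun a => !c a) S B := by
  obtain ⟨φ, h1, h2⟩ := h
  refine ⟨φ, ?_, ?_⟩
  · intro a ha b hb hab hφ
    refine h1 a ha b hb ?_ hφ
    simpa using hab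
  · intro a ha b hb hab hca hcb
    have hca' : c a = false := by simpa using hca
    have hcb' : c b = true := by simpa using hcb
    have h3 := h2 b hb a ha hab.symm hcb' hca'
    rw [Finset.mem_map] at h3
    obtain ⟨x, hx, hxe⟩ := h3
    have h4 : x = (φ a, φ b) := by
      apply (Equiv.prodComm (Fin n) (Fin n)).injective
      exact hxe
    rwa [h4] at hx

theorem FLP_le (hBAS : BAS_stmt) (V : Type) (H : SimpleGraph V) (c : V → Bool) (S : Set V)
    (n : ℕ) : exs n H c S ≤ exs n H (fun a => !c a) S := by
  rw [(hBAS V H c).1 n S]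
  intro B hB
  have h1 := ((hBAS V H (fun a => !c a)).1 n S (exs n H (fun a => !c a) S)).1 le_rfl
    (B.map (Equiv.prodComm (Fin n) (Fin n)).toEmbedding)
  rw [Finset.card_map] at h1
  apply h1
  intro h2
  apply hB
  have h3 := FLP_cp H (fun a => !c a) S B h2
  simpa using h3

theorem FLP (hBAS : BAS_stmt) : FLP_stmt := by
  intro V H c S n
  apply le_antisymm
  · have h := FLP_le hBAS V H (fun a => !c a) S n
    simpa using h
  · exact FLP_le hBAS V H c S n

end Pool.Agent.GL
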